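import Pool.Agent.Lib.MP_868e2f_al.Ideals

/-! The thick tensor ideal of modules which are acyclic for a skew-primitive element of
square zero. -/

namespace Pool.Agent.Lib.MP_868e2f_al

universe u

open scoped TensorProduct
open FinRep

section LinAlg

variable {k V : Type*} [Field k] [AddCommGroup V] [Module k V]

theorem exists_ginv (c : Module.End k V) : ∃ t : Module.End k V, ∀ v, c (t (c v)) = c v := by
  obtain ⟨g, hg⟩ := c.rangeRestrict.exists_rightInverse_of_surjective c.range_rangeRestrict
  obtain ⟨t, ht⟩ := LinearMap.exists_extend g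
  refine ⟨t, fun v => ?_⟩
  have h1 : t (c v) = g ⟨c v, ⟨v, rfl⟩⟩ := by
    have := LinearMap.congr_fun ht ⟨c v, ⟨v, rfl⟩⟩
    simpa using this
  rw [h1]
  have h2 := LinearMap.congr_fun hg ⟨c v, ⟨v, rfl⟩⟩
  have h3 := congrArg Subtype.val h2
  simpa using h3

theorem exists_homotopy (c : Module.End k V) (hc : ∀ v, c (c v) = 0)
    (h : ∀ v, c v = 0 → ∃ w, c w = v) :
    ∃ s : Module.End k V, ∀ v, c (s v) + s (c v) = v := by
  obtain ⟨t, ht⟩ := exists_ginv c
  have hp : ∀ m, c m = 0 → c (t m) = m := by
    intro m hm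
    obtain ⟨w, rfl⟩ := h m hm
    exact ht w
  refine ⟨(1 - c * t) * t * (c * t), fun v => ?_⟩
  have h1 : c (t (t (c v)) - t v) = c (t (t (c v))) - c (t v) := map_sub _ _ _
  have h2 : c (t (c v) - v) = 0 := by rw [map_sub, ht, sub_self]
  have h3 := hp _ h2
  rw [map_sub, map_sub] at h3
  simp only [Module.End.mul_apply, LinearMap.sub_apply, Module.End.one_apply, map_sub, hc,
    sub_zero, ht]
  rw [sub_eq_sub_iff_add_eq_add] at h3
  rw [← sub_eq_zero]
  have h4 : c (t v) + (t (c v) - c (t (t (c v)))) - v =
      (c (t v) + t (c v)) - (c (t (t (c v))) + v) := by abel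
  rw [h4, sub_eq_zero, h3]
  abel

end LinAlg

section Acy

variable {k H : Type u} [Field k] [Ring H] [Bialgebra k H]

/-- `M` is acyclic for the operator `c`. -/
def Acy (c : H) (M : FinRep k H) : Prop :=
  ∃ s : Module.End k M.V, ∀ m, M.act c (s m) + s (M.act c m) = m

theorem Acy.exact {c : H} {M : FinRep k H} (h : Acy c M) :
    ∀ m, M.act c m = 0 → ∃ w, M.act c w = m := by
  obtain ⟨s, hs⟩ := h
  intro m hm
  refine ⟨s m, ?_⟩
  have := hs m
  rwa [hm, map_zero, add_zero] at this

theorem act_sq {c : H} (hcc : c * c = 0) (M : FinRep k H) (m : M.V) :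
    M.act c (M.act c m) = 0 := by
  have : M.act (c * c) m = 0 := by rw [hcc, map_zero]; rfl
  rwa [map_mul] at this

theorem Acy.of_exact {c : H} (hcc : c * c = 0) {M : FinRep k H}
    (h : ∀ m, M.act c m = 0 → ∃ w, M.act c w = m) : Acy c M :=
  exists_homotopy (M.act c) (act_sq hcc M) h

/-- A module which surjects onto the projective module `P` has it as a direct summand. -/
theorem isSummand_of_surj {P Q : FinRep k H} (hP : IsProjective P) (p : Q.V →ₗ[k] P.V)
    (hp : IsHom Q P p) (hs : Function.Surjective p) : IsSummand P Q := by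
  obtain ⟨g, hg, hpg⟩ := hP Q P p LinearMap.id hp hs (isHom_id P)
  exact ⟨g, p, hg, hp, hpg⟩

theorem Acy.summand {c : H} {M N : FinRep k H} (h : IsSummand M N) (hN : Acy c N) :
    Acy c M := by
  obtain ⟨i, r, hi, hr, hri⟩ := h
  obtain ⟨s, hs⟩ := hN
  refine ⟨r ∘ₗ s ∘ₗ i, fun m => ?_⟩
  simp only [LinearMap.comp_apply]
  rw [← hr, hi, ← map_add, hs]
  exact LinearMap.congr_fun hri m

/-- The free module `H ⊗ W` with `H` acting on the left factor. -/
noncomputable abbrev freeRep [FiniteDimensional k H] (W : Type u) [AddCommGroup W] [Module k W]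
    [FiniteDimensional k W] : FinRep k H where
  V := H ⊗[k] W
  act := (Module.End.rTensorAlgHom k H W).comp (Algebra.lmul k H)

theorem Acy.proj [FiniteDimensional k H] {a c : H} (f : H →ₗ[k] k)
    (hΔ : Coalgebra.comul (R := k) c = c ⊗ₜ[k] 1 + a ⊗ₜ[k] c)
    (hfc : ∀ x, f (c * x) = Coalgebra.counit (R := k) x) (hfa : ∀ x, f (a * x) = - f x)
    (P : FinRep k H) (hP : IsProjective P) : Acy c P := by
  -- homotopy on `H`
  let s0 : H →ₗ[k] H := (TensorProduct.lid k H).toLinearMap ∘ₗ (LinearMap.rTensor H f) ∘ₗ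
    Coalgebra.comul
  have hs0 : ∀ x, c * s0 x + s0 (c * x) = x := by
    have key : ∀ t : H ⊗[k] H,
        c * ((TensorProduct.lid k H) (LinearMap.rTensor H f t)) +
          (TensorProduct.lid k H) (LinearMap.rTensor H f ((c ⊗ₜ[k] 1 + a ⊗ₜ[k] c) * t)) =
        (TensorProduct.lid k H) (LinearMap.rTensor H Coalgebra.counit t) := by
      intro t
      induction t with
      | zero => simp
      | tmul x y =>
        simp only [LinearMap.rTensor_tmul, TensorProduct.lid_tmul, add_mul,
          Algebra.TensorProduct.tmul_mul_tmul, one_mul, map_add, hfc, hfa, mul_smul_comm, neg_smul]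
        abel
      | add x y hx hy =>
        simp only [map_add, mul_add] at hx hy ⊢
        rw [← hx, ← hy]
        abel
    intro x
    have h1 := key (Coalgebra.comul x)
    rw [Coalgebra.rTensor_counit_comul, TensorProduct.lid_tmul, one_smul, ← hΔ,
      ← Bialgebra.comul_mul] at h1
    exact h1
  refine Acy.summand (isSummand_of_surj (Q := freeRep P.V) hP
    (TensorProduct.lift P.act.toLinearMap) ?_ ?_) ?_
  · intro b m
    induction m using TensorProduct.induction_on with
    | zero => simp
    | tmul x y =>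
      change TensorProduct.lift P.act.toLinearMap ((b * x) ⊗ₜ[k] y) = _
      simp only [TensorProduct.lift.tmul, AlgHom.toLinearMap_apply, map_mul]
      rfl
    | add x y hx hy =>
      rw [map_add, map_add, map_add, map_add, hx, hy]
  · intro m
    refine ⟨(1 : H) ⊗ₜ[k] m, ?_⟩
    change TensorProduct.lift P.act.toLinearMap ((1 : H) ⊗ₜ[k] m) = m
    simp
  · refine ⟨(LinearMap.rTensor P.V s0 : H ⊗[k] P.V →ₗ[k] H ⊗[k] P.V), ?_⟩
    intro m
    induction m using TensorProduct.induction_on with
    | zero => simp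
    | tmul x y =>
      change (c * s0 x) ⊗ₜ[k] y + (s0 (c * x)) ⊗ₜ[k] y = x ⊗ₜ[k] y
      rw [← TensorProduct.add_tmul, hs0]
    | add x y hx hy =>
      rw [map_add, map_add, map_add, map_add]
      have h3 : ∀ p q r s : (freeRep (k := k) (H := H) P.V).V, p + q + (r + s) = (p + r) + (q + s) := by
        intro p q r s; abel
      rw [h3, hx, hy]

theorem acy_ideal [FiniteDimensional k H] (h2 : (2 : k) ≠ 0) {a c : H} (f : H →ₗ[k] k)
    (hΔ : Coalgebra.comul (R := k) c = c ⊗ₜ[k] 1 + a ⊗ₜ[k] c)
    (hfc : ∀ x, f (c * x) = Coalgebra.counit (R := k) x) (hfa : ∀ x, f (a * x) = - f x)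
    (haa : a * a = 1) (hac : c * a = - (a * c)) (hcc : c * c = 0) :
    IsThickIdeal (Acy (k := k) c) := by
  refine ⟨?_, ?_, ?_, ?_, ?_, ?_, ?_⟩
  · intro P hP
    exact Acy.proj f hΔ hfc hfa P hP
  · intro M N h hN
    exact hN.summand h
  · rintro A B C ⟨i, p, hi, hp, hi1, hp1, hip⟩ hA hB
    refine Acy.of_exact hcc ?_
    intro z hz
    obtain ⟨b, rfl⟩ := hp1 z
    rw [← hp] at hz
    have h1 : B.act c b ∈ LinearMap.range i := by rw [hip]; exact hz
    obtain ⟨x, hx⟩ := h1
    have h3 : A.act c x = 0 := by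
      apply hi1
      rw [hi, hx, act_sq hcc, map_zero]
    obtain ⟨x', rfl⟩ := hA.exact x h3
    have h4 : B.act c (b - i x') = 0 := by
      rw [map_sub, ← hi, hx, sub_self]
    obtain ⟨b', hb'⟩ := hB.exact _ h4
    refine ⟨p b', ?_⟩
    rw [← hp, hb', map_sub]
    have h5 : p (i x') = 0 := by
      have : i x' ∈ LinearMap.ker p := by rw [← hip]; exact ⟨x', rfl⟩
      exact this
    rw [h5, sub_zero]
  · rintro A B C ⟨i, p, hi, hp, hi1, hp1, hip⟩ hA hC
    refine Acy.of_exact hcc ?_
    intro b hb
    have h1 : C.act c (p b) = 0 := by rw [← hp, hb, map_zero]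
    obtain ⟨z', hz'⟩ := hC.exact _ h1
    obtain ⟨b', rfl⟩ := hp1 z'
    have h2 : b - B.act c b' ∈ LinearMap.range i := by
      rw [hip, LinearMap.mem_ker, map_sub, hp, hz', sub_self]
    obtain ⟨x, hx⟩ := h2
    have h3 : A.act c x = 0 := by
      apply hi1
      rw [hi, hx, map_sub, hb, act_sq hcc, map_zero, sub_zero]
    obtain ⟨x', rfl⟩ := hA.exact x h3
    refine ⟨b' + i x', ?_⟩
    rw [map_add, ← hi, hx]
    abel
  · rintro A B C ⟨i, p, hi, hp, hi1, hp1, hip⟩ hB hC
    refine Acy.of_exact hcc ?_
    intro x hx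
    have h1 : B.act c (i x) = 0 := by rw [← hi, hx, map_zero]
    obtain ⟨b, hb⟩ := hB.exact _ h1
    have h2 : C.act c (p b) = 0 := by
      rw [← hp, hb]
      have : i x ∈ LinearMap.ker p := by rw [← hip]; exact ⟨x, rfl⟩
      exact this
    obtain ⟨z', hz'⟩ := hC.exact _ h2
    obtain ⟨b', rfl⟩ := hp1 z'
    have h3 : b - B.act c b' ∈ LinearMap.range i := by
      rw [hip, LinearMap.mem_ker, map_sub, hp, hz', sub_self]
    obtain ⟨x', hx'⟩ := h3
    refine ⟨x', ?_⟩
    apply hi1
    rw [hi, hx', map_sub, act_sq hcc, hb, sub_zero]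
  · -- `N` acyclic implies `M ⊗ N` acyclic
    rintro M N ⟨s, hs⟩
    refine ⟨(TensorProduct.map (M.act a) s : M.V ⊗[k] N.V →ₗ[k] M.V ⊗[k] N.V), ?_⟩
    intro m
    have hact : (M.tensor N).act c = TensorProduct.map (M.act c) (N.act 1) +
        TensorProduct.map (M.act a) (N.act c) := by
      rw [tensor_act, hΔ, map_add, act₂_tmul, act₂_tmul]
    have hca : ∀ x, M.act c (M.act a x) = - (M.act a (M.act c x)) := by
      intro x
      have := LinearMap.congr_fun (congrArg M.act hac) x
      rw [map_mul, map_neg, map_mul] at this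
      exact this
    have haa' : ∀ x, M.act a (M.act a x) = x := by
      intro x
      have := LinearMap.congr_fun (congrArg M.act haa) x
      rw [map_mul, map_one] at this
      exact this
    rw [hact]
    induction m using TensorProduct.induction_on with
    | zero => simp
    | tmul x y =>
      simp only [map_one, LinearMap.add_apply, TensorProduct.map_tmul, Module.End.one_apply,
        map_add, hca, haa']
      have h1 : x ⊗ₜ[k] (N.act c (s y)) + x ⊗ₜ[k] (s (N.act c y)) = x ⊗ₜ[k] y := by
        rw [← TensorProduct.tmul_add, hs]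
      rw [TensorProduct.neg_tmul]
      have h5 : ∀ p q r : M.V ⊗[k] N.V, -p + q + (p + r) = q + r := by
        intro p q r; abel
      rw [h5, h1]
    | add x y hx hy =>
      rw [map_add, map_add, map_add, map_add]
      have h3 : ∀ p q r s : (M.tensor N).V, p + q + (r + s) = (p + r) + (q + s) := by
        intro p q r s; abel
      rw [h3, hx, hy]
  · -- `M` acyclic implies `M ⊗ N` acyclic
    rintro M N ⟨s, hs⟩
    have hca : ∀ x, M.act c (M.act a x) = - (M.act a (M.act c x)) := by
      intro x
      have := LinearMap.congr_fun (congrArg M.act hac) x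
      rw [map_mul, map_neg, map_mul] at this
      exact this
    have haa' : ∀ x, M.act a (M.act a x) = x := by
      intro x
      have := LinearMap.congr_fun (congrArg M.act haa) x
      rw [map_mul, map_one] at this
      exact this
    -- make `s` anticommute with `a`
    obtain ⟨s', hs', has'⟩ : ∃ s' : Module.End k M.V,
        (∀ m, M.act c (s' m) + s' (M.act c m) = m) ∧
        (∀ m, M.act a (s' m) + s' (M.act a m) = 0) := by
      refine ⟨(2 : k)⁻¹ • (s - M.act a * s * M.act a), ?_, ?_⟩
      · intro m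
        simp only [LinearMap.smul_apply, LinearMap.sub_apply, Module.End.mul_apply, map_smul,
          map_sub, hca]
        rw [← smul_add]
        have h1 := hs m
        have h3 := hs (M.act a m)
        rw [hca, map_neg] at h3
        have h4 : M.act a (s (M.act a (M.act c m))) =
            M.act a (M.act c (s (M.act a m))) - m := by
          have h5 : s (M.act a (M.act c m)) = M.act c (s (M.act a m)) - M.act a m := by
            have h7 : s (M.act a (M.act c m)) = M.act c (s (M.act a m)) -
                (M.act c (s (M.act a m)) + -s (M.act a (M.act c m))) := by abel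
            rwa [h3] at h7
          rw [h5, map_sub, haa']
        rw [h4]
        have h6 : M.act c (s m) - -(M.act a) ((M.act c) (s ((M.act a) m))) +
            (s ((M.act c) m) - (M.act a ((M.act c) (s ((M.act a) m))) - m)) =
            (M.act c (s m) + s (M.act c m)) + m := by abel
        rw [h6, h1, ← two_smul k m, smul_smul, inv_mul_cancel₀ h2, one_smul]
      · intro m
        simp only [LinearMap.smul_apply, LinearMap.sub_apply, Module.End.mul_apply, map_smul,
          map_sub, haa']
        rw [← smul_add]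
        have h6 : M.act a (s m) - s (M.act a m) + (s (M.act a m) - M.act a (s m)) = 0 := by abel
        rw [h6, smul_zero]
    refine ⟨(TensorProduct.map s' LinearMap.id : M.V ⊗[k] N.V →ₗ[k] M.V ⊗[k] N.V), ?_⟩
    intro m
    have hact : (M.tensor N).act c = TensorProduct.map (M.act c) (N.act 1) +
        TensorProduct.map (M.act a) (N.act c) := by
      rw [tensor_act, hΔ, map_add, act₂_tmul, act₂_tmul]
    rw [hact]
    induction m using TensorProduct.induction_on with
    | zero => simp
    | tmul x y =>
      simp only [map_one, LinearMap.add_apply, TensorProduct.map_tmul, Module.End.one_apply,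
        map_add, LinearMap.id_apply]
      have h1 : (M.act c (s' x)) ⊗ₜ[k] y + (s' (M.act c x)) ⊗ₜ[k] y = x ⊗ₜ[k] y := by
        rw [← TensorProduct.add_tmul, hs']
      have h4 : (M.act a (s' x)) ⊗ₜ[k] (N.act c y) + (s' (M.act a x)) ⊗ₜ[k] (N.act c y) = 0 := by
        rw [← TensorProduct.add_tmul, has', TensorProduct.zero_tmul]
      have h5 : ∀ p q r s : M.V ⊗[k] N.V, p + q + (r + s) = (p + r) + (q + s) := by
        intro p q r s; abel
      rw [h5, h1, h4, add_zero]
    | add x y hx hy =>
      rw [map_add, map_add, map_add, map_add]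
      have h3 : ∀ p q r s : (M.tensor N).V, p + q + (r + s) = (p + r) + (q + s) := by
        intro p q r s; abel
      rw [h3, hx, hy]

theorem not_acy_unit {c : H} (hε : Coalgebra.counit (R := k) c = 0) :
    ¬ Acy c (FinRep.unit k H) := by
  rintro ⟨s, hs⟩
  have h1 := hs (1 : k)
  have h3 : ∀ x : k, (FinRep.unit k H).act c x = 0 := by
    intro x
    change Coalgebra.counit (R := k) c * x = 0
    rw [hε, zero_mul]
  have h4 : (FinRep.unit k H).act c (s (1 : k)) = 0 := h3 _
  rw [h4, h3 1, map_zero, add_zero] at h1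
  exact zero_ne_one h1

end Acy

end Pool.Agent.Lib.MP_868e2f_al
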