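import Mathlib

/-! The pointed Hopf algebra of dimension 32 (bosonization of the Nichols algebra of type
`A₂` at `-1` over the Klein four group), by generators and relations. -/

namespace Pool.Agent.Lib.MP_868e2f_al

universe u

open scoped TensorProduct

/-- The four generators. -/
inductive Gen
  | g | h | x | y

section Alg

variable (k : Type u) [CommRing k]

/-- The defining relations. -/
inductive Rel : FreeAlgebra k Gen → FreeAlgebra k Gen → Prop
  | gg : Rel (FreeAlgebra.ι k Gen.g * FreeAlgebra.ι k Gen.g) 1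
  | hh : Rel (FreeAlgebra.ι k Gen.h * FreeAlgebra.ι k Gen.h) 1
  | gh : Rel (FreeAlgebra.ι k Gen.g * FreeAlgebra.ι k Gen.h)
      (FreeAlgebra.ι k Gen.h * FreeAlgebra.ι k Gen.g)
  | gx : Rel (FreeAlgebra.ι k Gen.x * FreeAlgebra.ι k Gen.g)
      (-(FreeAlgebra.ι k Gen.g * FreeAlgebra.ι k Gen.x))
  | gy : Rel (FreeAlgebra.ι k Gen.y * FreeAlgebra.ι k Gen.g)
      (FreeAlgebra.ι k Gen.g * FreeAlgebra.ι k Gen.y)
  | hx : Rel (FreeAlgebra.ι k Gen.x * FreeAlgebra.ι k Gen.h)
      (-(FreeAlgebra.ι k Gen.h * FreeAlgebra.ι k Gen.x))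
  | hy : Rel (FreeAlgebra.ι k Gen.y * FreeAlgebra.ι k Gen.h)
      (-(FreeAlgebra.ι k Gen.h * FreeAlgebra.ι k Gen.y))
  | xx : Rel (FreeAlgebra.ι k Gen.x * FreeAlgebra.ι k Gen.x) 0
  | yy : Rel (FreeAlgebra.ι k Gen.y * FreeAlgebra.ι k Gen.y) 0
  | xy : Rel (FreeAlgebra.ι k Gen.x * (FreeAlgebra.ι k Gen.y * (FreeAlgebra.ι k Gen.x *
        FreeAlgebra.ι k Gen.y)))
      (-(FreeAlgebra.ι k Gen.y * (FreeAlgebra.ι k Gen.x * (FreeAlgebra.ι k Gen.y *
        FreeAlgebra.ι k Gen.x))))

/-- The algebra with generators `g, h, x, y` and the relations `Rel`. -/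
def H32 : Type u := RingQuot (Rel k)

noncomputable instance : Ring (H32 k) := inferInstanceAs (Ring (RingQuot (Rel k)))
noncomputable instance : Algebra k (H32 k) := inferInstanceAs (Algebra k (RingQuot (Rel k)))

variable {k}

/-- Four elements of an algebra satisfying the defining relations. -/
structure Datum {A : Type*} [Ring A] (G K X Y : A) : Prop where
  gg : G * G = 1
  hh : K * K = 1
  gh : G * K = K * G
  gx : X * G = -(G * X)
  gy : Y * G = G * Y
  hx : X * K = -(K * X)
  hy : Y * K = -(K * Y)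
  xx : X * X = 0
  yy : Y * Y = 0
  xy : X * (Y * (X * Y)) = -(Y * (X * (Y * X)))

variable (k)

/-- The quotient map. -/
noncomputable def mkH : FreeAlgebra k Gen →ₐ[k] H32 k := RingQuot.mkAlgHom k (Rel k)

/-- The generators in the algebra. -/
noncomputable def gen (i : Gen) : H32 k := mkH k (FreeAlgebra.ι k i)

theorem datum_gen : Datum (gen k Gen.g) (gen k Gen.h) (gen k Gen.x) (gen k Gen.y) := by
  have key : ∀ {a b : FreeAlgebra k Gen}, Rel k a b →
      mkH k a = mkH k b :=
    fun hab => RingQuot.mkAlgHom_rel k hab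
  refine ⟨?_, ?_, ?_, ?_, ?_, ?_, ?_, ?_, ?_, ?_⟩
  · have := key (Rel.gg (k := k)); simp only [map_mul, map_one] at this; exact this
  · have := key (Rel.hh (k := k)); simp only [map_mul, map_one] at this; exact this
  · have := key (Rel.gh (k := k)); simp only [map_mul, map_one] at this; exact this
  · have := key (Rel.gx (k := k)); simp only [map_mul, map_neg] at this; exact this
  · have := key (Rel.gy (k := k)); simp only [map_mul, map_neg] at this; exact this
  · have := key (Rel.hx (k := k)); simp only [map_mul, map_neg] at this; exact this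
  · have := key (Rel.hy (k := k)); simp only [map_mul, map_neg] at this; exact this
  · have := key (Rel.xx (k := k)); simp only [map_mul, map_zero] at this; exact this
  · have := key (Rel.yy (k := k)); simp only [map_mul, map_zero] at this; exact this
  · have := key (Rel.xy (k := k)); simp only [map_mul, map_neg] at this; exact this

variable {k}

/-- The function on generators attached to four elements. -/
def genFun {A : Type*} (G K X Y : A) : Gen → A
  | Gen.g => G
  | Gen.h => K
  | Gen.x => X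
  | Gen.y => Y

section Lift

variable {A : Type*} [Ring A] [Algebra k A] {G K X Y : A}

/-- Universal property. -/
noncomputable def Datum.lift (d : Datum G K X Y) : H32 k →ₐ[k] A :=
  RingQuot.liftAlgHom k (s := Rel k) ⟨FreeAlgebra.lift k (genFun G K X Y), by
    intro a b hab
    cases hab
    all_goals
      simp only [map_mul, map_neg, map_one, map_zero, FreeAlgebra.lift_ι_apply, genFun]
    · exact d.gg
    · exact d.hh
    · exact d.gh
    · exact d.gx
    · exact d.gy
    · exact d.hx
    · exact d.hy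
    · exact d.xx
    · exact d.yy
    · exact d.xy⟩

theorem Datum.lift_gen (d : Datum G K X Y) (i : Gen) :
    d.lift (gen k i) = genFun G K X Y i := by
  unfold Datum.lift gen mkH
  erw [RingQuot.liftAlgHom_mkAlgHom_apply]
  rw [FreeAlgebra.lift_ι_apply]

theorem hom_ext' {f f' : H32 k →ₐ[k] A} (h : ∀ i, f (gen k i) = f' (gen k i)) : f = f' := by
  apply RingQuot.ringQuot_ext' k f f'
  apply FreeAlgebra.hom_ext
  funext i
  exact h i

end Lift

theorem H32.induction {P : H32 k → Prop} (hr : ∀ r : k, P (algebraMap k (H32 k) r))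
    (hg : ∀ i, P (gen k i)) (hmul : ∀ a b, P a → P b → P (a * b))
    (hadd : ∀ a b, P a → P b → P (a + b)) (a : H32 k) : P a := by
  obtain ⟨a, rfl⟩ : ∃ b, mkH k b = a := RingQuot.mkAlgHom_surjective k (Rel k) a
  induction a using FreeAlgebra.induction with
  | grade0 r =>
    have : mkH k (algebraMap k (FreeAlgebra k Gen) r) =
      algebraMap k (H32 k) r := AlgHom.commutes _ r
    rw [this]; exact hr r
  | grade1 i => exact hg i
  | mul a b ha hb => rw [map_mul]; exact hmul _ _ ha hb
  | add a b ha hb => rw [map_add]; exact hadd _ _ ha hb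

end Alg

section Comul

/-- The quartic relation for a sum of two braided-commuting pairs. -/
theorem quartic {A : Type*} [Ring A] {a₁ a₂ b₁ b₂ : A}
    (h1 : a₁ * a₂ = -(a₂ * a₁)) (h2 : b₁ * b₂ = -(b₂ * b₁)) (h3 : a₁ * b₂ = -(b₂ * a₁))
    (h4 : b₁ * a₂ = a₂ * b₁) (ha1 : a₁ * a₁ = 0) (ha2 : a₂ * a₂ = 0) (hb1 : b₁ * b₁ = 0)
    (hb2 : b₂ * b₂ = 0) (hq1 : a₁ * (b₁ * (a₁ * b₁)) = -(b₁ * (a₁ * (b₁ * a₁))))
    (hq2 : a₂ * (b₂ * (a₂ * b₂)) = -(b₂ * (a₂ * (b₂ * a₂)))) :
    (a₁ + a₂) * ((b₁ + b₂) * ((a₁ + a₂) * (b₁ + b₂))) =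
      -((b₁ + b₂) * ((a₁ + a₂) * ((b₁ + b₂) * (a₁ + a₂)))) := by
  have h1' : ∀ z, a₁ * (a₂ * z) = -(a₂ * (a₁ * z)) := fun z => by
    rw [← mul_assoc, h1, neg_mul, mul_assoc]
  have h2' : ∀ z, b₁ * (b₂ * z) = -(b₂ * (b₁ * z)) := fun z => by
    rw [← mul_assoc, h2, neg_mul, mul_assoc]
  have h3' : ∀ z, a₁ * (b₂ * z) = -(b₂ * (a₁ * z)) := fun z => by
    rw [← mul_assoc, h3, neg_mul, mul_assoc]
  have h4' : ∀ z, b₁ * (a₂ * z) = (a₂ * (b₁ * z)) := fun z => by
    rw [← mul_assoc, h4, mul_assoc]
  have ha1' : ∀ z, a₁ * (a₁ * z) = 0 := fun z => by rw [← mul_assoc, ha1, zero_mul]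
  have ha2' : ∀ z, a₂ * (a₂ * z) = 0 := fun z => by rw [← mul_assoc, ha2, zero_mul]
  have hb1' : ∀ z, b₁ * (b₁ * z) = 0 := fun z => by rw [← mul_assoc, hb1, zero_mul]
  have hb2' : ∀ z, b₂ * (b₂ * z) = 0 := fun z => by rw [← mul_assoc, hb2, zero_mul]
  simp only [mul_add, add_mul, h1, h2, h3, h4, h1', h2', h3', h4', ha1, hb1, ha1', ha2',
    hb1', hb2', mul_neg, neg_neg, mul_zero, neg_zero, add_zero, zero_add, neg_add, hq1, hq2]
  abel

variable {k : Type u} [CommRing k] {A B : Type*} [Ring A] [Ring B] [Algebra k A] [Algebra k B]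

theorem Datum.tmul {G K X Y : A} (d : Datum G K X Y) {G' K' X' Y' : B}
    (d' : Datum G' K' X' Y') : Datum (G ⊗ₜ[k] G') (K ⊗ₜ[k] K') (X ⊗ₜ[k] (1 : B) + G ⊗ₜ[k] X')
      (Y ⊗ₜ[k] (1 : B) + K ⊗ₜ[k] Y') := by
  refine ⟨?_, ?_, ?_, ?_, ?_, ?_, ?_, ?_, ?_, ?_⟩
  · rw [Algebra.TensorProduct.tmul_mul_tmul, d.gg, d'.gg]; rfl
  · rw [Algebra.TensorProduct.tmul_mul_tmul, d.hh, d'.hh]; rfl
  · rw [Algebra.TensorProduct.tmul_mul_tmul, Algebra.TensorProduct.tmul_mul_tmul, d.gh, d'.gh]
  · simp only [add_mul, mul_add, Algebra.TensorProduct.tmul_mul_tmul, d.gx, d'.gx, one_mul,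
      mul_one, TensorProduct.neg_tmul, TensorProduct.tmul_neg, neg_add]
  · simp only [add_mul, mul_add, Algebra.TensorProduct.tmul_mul_tmul, d.gy, d'.gy, one_mul,
      mul_one, d.gh]
  · simp only [add_mul, mul_add, Algebra.TensorProduct.tmul_mul_tmul, d.hx, d'.hx, one_mul,
      mul_one, TensorProduct.neg_tmul, TensorProduct.tmul_neg, neg_add, d.gh]
  · simp only [add_mul, mul_add, Algebra.TensorProduct.tmul_mul_tmul, d.hy, d'.hy, one_mul,
      mul_one, TensorProduct.neg_tmul, TensorProduct.tmul_neg, neg_add]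
  · simp only [add_mul, mul_add, Algebra.TensorProduct.tmul_mul_tmul, d.xx, d'.xx, one_mul,
      mul_one, TensorProduct.neg_tmul, TensorProduct.zero_tmul, TensorProduct.tmul_zero, d.gx]
    abel
  · simp only [add_mul, mul_add, Algebra.TensorProduct.tmul_mul_tmul, d.yy, d'.yy, one_mul,
      mul_one, TensorProduct.neg_tmul, TensorProduct.zero_tmul, TensorProduct.tmul_zero, d.hy]
    abel
  · apply quartic
    · simp only [Algebra.TensorProduct.tmul_mul_tmul, one_mul, mul_one, d.gx,
        TensorProduct.neg_tmul]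
    · simp only [Algebra.TensorProduct.tmul_mul_tmul, one_mul, mul_one, d.hy,
        TensorProduct.neg_tmul]
    · simp only [Algebra.TensorProduct.tmul_mul_tmul, one_mul, mul_one, d.hx,
        TensorProduct.neg_tmul]
    · simp only [Algebra.TensorProduct.tmul_mul_tmul, one_mul, mul_one, d.gy]
    · simp only [Algebra.TensorProduct.tmul_mul_tmul, d.xx, TensorProduct.zero_tmul]
    · simp only [Algebra.TensorProduct.tmul_mul_tmul, d'.xx, TensorProduct.tmul_zero]
    · simp only [Algebra.TensorProduct.tmul_mul_tmul, d.yy, TensorProduct.zero_tmul]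
    · simp only [Algebra.TensorProduct.tmul_mul_tmul, d'.yy, TensorProduct.tmul_zero]
    · simp only [Algebra.TensorProduct.tmul_mul_tmul, mul_one, d.xy,
        TensorProduct.neg_tmul]
    · simp only [Algebra.TensorProduct.tmul_mul_tmul, d'.xy, TensorProduct.tmul_neg]
      have e1 : G * (K * (G * K)) = K * (G * (K * G)) := by
        rw [← mul_assoc, ← mul_assoc, d.gh, mul_assoc, mul_assoc, d.gh]
      rw [e1]

variable (k)

theorem datum_unit : Datum (1 : k) 1 0 0 := by
  refine ⟨?_, ?_, ?_, ?_, ?_, ?_, ?_, ?_, ?_, ?_⟩ <;> simp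

/-- comultiplication -/
noncomputable def comulH : H32 k →ₐ[k] H32 k ⊗[k] H32 k :=
  ((datum_gen k).tmul (k := k) (datum_gen k)).lift

/-- counit -/
noncomputable def counitH : H32 k →ₐ[k] k := (datum_unit k).lift

theorem comulH_g : comulH k (gen k Gen.g) = gen k Gen.g ⊗ₜ gen k Gen.g := Datum.lift_gen _ _
theorem comulH_h : comulH k (gen k Gen.h) = gen k Gen.h ⊗ₜ gen k Gen.h := Datum.lift_gen _ _
theorem comulH_x : comulH k (gen k Gen.x) =
    gen k Gen.x ⊗ₜ 1 + gen k Gen.g ⊗ₜ gen k Gen.x := Datum.lift_gen _ _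
theorem comulH_y : comulH k (gen k Gen.y) =
    gen k Gen.y ⊗ₜ 1 + gen k Gen.h ⊗ₜ gen k Gen.y := Datum.lift_gen _ _
theorem counitH_g : counitH k (gen k Gen.g) = 1 := Datum.lift_gen _ _
theorem counitH_h : counitH k (gen k Gen.h) = 1 := Datum.lift_gen _ _
theorem counitH_x : counitH k (gen k Gen.x) = 0 := Datum.lift_gen _ _
theorem counitH_y : counitH k (gen k Gen.y) = 0 := Datum.lift_gen _ _

noncomputable instance : Bialgebra k (H32 k) :=
  Bialgebra.ofAlgHom (comulH k) (counitH k)
    (by
      apply hom_ext'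
      intro i
      cases i <;>
      simp [comulH_g, comulH_h, comulH_x, comulH_y, TensorProduct.add_tmul,
        TensorProduct.tmul_add, Algebra.TensorProduct.one_def]
      · abel
      · abel)
    (by
      apply hom_ext'
      intro i
      cases i <;>
      simp [comulH_g, comulH_h, comulH_x, comulH_y, counitH_g, counitH_h, counitH_x, counitH_y])
    (by
      apply hom_ext'
      intro i
      cases i <;>
      simp [comulH_g, comulH_h, comulH_x, comulH_y, counitH_g, counitH_h, counitH_x, counitH_y])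

theorem comul_apply (a : H32 k) : Coalgebra.comul (R := k) a = comulH k a := rfl
theorem counit_apply (a : H32 k) : Coalgebra.counit (R := k) a = counitH k a := rfl

end Comul

section Antipode

variable {k : Type u} [CommRing k] {A : Type*} [Ring A]

open MulOpposite

theorem Datum.antipode {G K X Y : A} (d : Datum G K X Y) :
    Datum (op G) (op K) (op (-(G * X))) (op (-(K * Y))) := by
  have gx' : ∀ z, X * (G * z) = -(G * (X * z)) := fun z => by
    rw [← mul_assoc, d.gx, neg_mul, mul_assoc]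
  have gy' : ∀ z, Y * (G * z) = (G * (Y * z)) := fun z => by
    rw [← mul_assoc, d.gy, mul_assoc]
  have hx' : ∀ z, X * (K * z) = -(K * (X * z)) := fun z => by
    rw [← mul_assoc, d.hx, neg_mul, mul_assoc]
  have hy' : ∀ z, Y * (K * z) = -(K * (Y * z)) := fun z => by
    rw [← mul_assoc, d.hy, neg_mul, mul_assoc]
  have gh' : ∀ z, K * (G * z) = (G * (K * z)) := fun z => by
    rw [← mul_assoc, ← d.gh, mul_assoc]
  have gg' : ∀ z, G * (G * z) = z := fun z => by rw [← mul_assoc, d.gg, one_mul]
  have hh' : ∀ z, K * (K * z) = z := fun z => by rw [← mul_assoc, d.hh, one_mul]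
  refine ⟨?_, ?_, ?_, ?_, ?_, ?_, ?_, ?_, ?_, ?_⟩
  · rw [← op_mul, d.gg, op_one]
  · rw [← op_mul, d.hh, op_one]
  · rw [← op_mul, ← op_mul, d.gh]
  · rw [← op_mul, ← op_mul, ← op_neg]
    congr 1
    simp only [mul_neg, neg_mul, neg_neg, mul_assoc, d.gx]
  · rw [← op_mul, ← op_mul]
    congr 1
    simp only [mul_neg, neg_mul, neg_neg, mul_assoc, d.gy, gh']
  · rw [← op_mul, ← op_mul, ← op_neg]
    congr 1
    simp only [mul_neg, neg_mul, neg_neg, mul_assoc, d.hx, gh']
  · rw [← op_mul, ← op_mul, ← op_neg]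
    congr 1
    simp only [mul_neg, neg_mul, neg_neg, mul_assoc, d.hy]
  · rw [← op_mul, ← op_zero]
    congr 1
    simp only [mul_neg, neg_mul, neg_neg, mul_assoc, gx', d.xx, mul_zero, neg_zero]
  · rw [← op_mul, ← op_zero]
    congr 1
    simp only [mul_neg, neg_mul, neg_neg, mul_assoc, hy', d.yy, mul_zero, neg_zero]
  · rw [← op_mul, ← op_mul, ← op_mul, ← op_mul, ← op_mul, ← op_mul, ← op_neg]
    congr 1
    simp only [mul_neg, neg_mul, neg_neg, mul_assoc, gx', gy', hx', hy', gh', gg', hh', d.xy]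

variable (k)

/-- antipode, as an algebra homomorphism to the opposite algebra -/
noncomputable def antiH : H32 k →ₐ[k] (H32 k)ᵐᵒᵖ := (datum_gen k).antipode.lift

/-- antipode -/
noncomputable def antiL : H32 k →ₗ[k] H32 k :=
  (opLinearEquiv k : H32 k ≃ₗ[k] (H32 k)ᵐᵒᵖ).symm.toLinearMap ∘ₗ (antiH k).toLinearMap

theorem antiL_mul (a b : H32 k) : antiL k (a * b) = antiL k b * antiL k a := by
  simp [antiL]

theorem antiL_one : antiL k 1 = 1 := by
  simp [antiL]

theorem antiL_g : antiL k (gen k Gen.g) = gen k Gen.g := by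
  have : antiH k (gen k Gen.g) = op (gen k Gen.g) := Datum.lift_gen _ _
  simp [antiL, this]
theorem antiL_h : antiL k (gen k Gen.h) = gen k Gen.h := by
  have : antiH k (gen k Gen.h) = op (gen k Gen.h) := Datum.lift_gen _ _
  simp [antiL, this]
theorem antiL_x : antiL k (gen k Gen.x) = -(gen k Gen.g * gen k Gen.x) := by
  have : antiH k (gen k Gen.x) = op (-(gen k Gen.g * gen k Gen.x)) := Datum.lift_gen _ _
  simp [antiL, this]
theorem antiL_y : antiL k (gen k Gen.y) = -(gen k Gen.h * gen k Gen.y) := by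
  have : antiH k (gen k Gen.y) = op (-(gen k Gen.h * gen k Gen.y)) := Datum.lift_gen _ _
  simp [antiL, this]

/-- `S(a₁) a₂` -/
noncomputable def muL : H32 k ⊗[k] H32 k →ₗ[k] H32 k :=
  LinearMap.mul' k (H32 k) ∘ₗ (antiL k).rTensor (H32 k)

/-- `a₁ S(a₂)` -/
noncomputable def muR : H32 k ⊗[k] H32 k →ₗ[k] H32 k :=
  LinearMap.mul' k (H32 k) ∘ₗ (antiL k).lTensor (H32 k)

theorem muL_tmul (a b : H32 k) : muL k (a ⊗ₜ b) = antiL k a * b := by simp [muL]
theorem muR_tmul (a b : H32 k) : muR k (a ⊗ₜ b) = a * antiL k b := by simp [muR]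

theorem muL_mul (s : H32 k ⊗[k] H32 k) (p q : H32 k) :
    muL k (s * (p ⊗ₜ q)) = antiL k p * muL k s * q := by
  induction s with
  | zero => simp
  | tmul a b =>
    rw [Algebra.TensorProduct.tmul_mul_tmul, muL_tmul, muL_tmul, antiL_mul]
    simp only [mul_assoc]
  | add x y hx hy => rw [add_mul, map_add, map_add, hx, hy, mul_add, add_mul]

theorem muR_mul (s : H32 k ⊗[k] H32 k) (p q : H32 k) :
    muR k ((p ⊗ₜ q) * s) = p * muR k s * antiL k q := by
  induction s with
  | zero => simp
  | tmul a b =>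
    rw [Algebra.TensorProduct.tmul_mul_tmul, muR_tmul, muR_tmul, antiL_mul]
    simp only [mul_assoc]
  | add x y hx hy => rw [mul_add, map_add, map_add, hx, hy, mul_add, add_mul]

theorem muL_comul (a : H32 k) : muL k (comulH k a) = algebraMap k _ (counitH k a) := by
  induction a using H32.induction with
  | hr r =>
    rw [AlgHom.commutes, AlgHom.commutes]
    rw [Algebra.TensorProduct.algebraMap_apply, muL_tmul, mul_one, Algebra.algebraMap_eq_smul_one,
      map_smul, antiL_one]
    simp [Algebra.algebraMap_eq_smul_one]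
  | hg i =>
    cases i
    · rw [comulH_g, counitH_g, muL_tmul, antiL_g, (datum_gen k).gg, map_one]
    · rw [comulH_h, counitH_h, muL_tmul, antiL_h, (datum_gen k).hh, map_one]
    · rw [comulH_x, counitH_x, map_add, muL_tmul, muL_tmul, antiL_x, antiL_g, map_zero]
      simp
    · rw [comulH_y, counitH_y, map_add, muL_tmul, muL_tmul, antiL_y, antiL_h, map_zero]
      simp
  | hmul a b ha hb =>
    have key : ∀ t, muL k (comulH k a * t) = counitH k a • muL k t := by
      intro t
      induction t with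
      | zero => simp
      | tmul p q =>
        rw [muL_mul, ha, muL_tmul, Algebra.algebraMap_eq_smul_one]
        simp
      | add x y hx hy => rw [mul_add, map_add, map_add, hx, hy, smul_add]
    rw [map_mul, key, hb, map_mul, map_mul, Algebra.smul_def]
  | hadd a b ha hb => rw [map_add, map_add, map_add, map_add, ha, hb]

theorem muR_comul (a : H32 k) : muR k (comulH k a) = algebraMap k _ (counitH k a) := by
  induction a using H32.induction with
  | hr r =>
    rw [AlgHom.commutes, AlgHom.commutes]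
    rw [Algebra.TensorProduct.algebraMap_apply, muR_tmul, antiL_one, mul_one]
    simp
  | hg i =>
    cases i
    · rw [comulH_g, counitH_g, muR_tmul, antiL_g, (datum_gen k).gg, map_one]
    · rw [comulH_h, counitH_h, muR_tmul, antiL_h, (datum_gen k).hh, map_one]
    · rw [comulH_x, counitH_x, map_add, muR_tmul, muR_tmul, antiL_x, antiL_one, map_zero]
      rw [mul_neg, ← mul_assoc, (datum_gen k).gg]
      simp
    · rw [comulH_y, counitH_y, map_add, muR_tmul, muR_tmul, antiL_y, antiL_one, map_zero]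
      rw [mul_neg, ← mul_assoc, (datum_gen k).hh]
      simp
  | hmul a b ha hb =>
    have key : ∀ t, muR k (t * comulH k b) = counitH k b • muR k t := by
      intro t
      induction t with
      | zero => simp
      | tmul p q =>
        rw [muR_mul, hb, muR_tmul, Algebra.algebraMap_eq_smul_one]
        simp
      | add x y hx hy => rw [add_mul, map_add, map_add, hx, hy, smul_add]
    rw [map_mul, key, ha, map_mul, map_mul, Algebra.smul_def, Algebra.commutes]
  | hadd a b ha hb => rw [map_add, map_add, map_add, map_add, ha, hb]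

noncomputable instance : HopfAlgebra k (H32 k) where
  antipode := antiL k
  mul_antipode_rTensor_comul := by
    apply LinearMap.ext
    intro a
    exact muL_comul k a
  mul_antipode_lTensor_comul := by
    apply LinearMap.ext
    intro a
    exact muR_comul k a

end Antipode

end Pool.Agent.Lib.MP_868e2f_al
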