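import Pool.Agent.Lib.MP_868e2f_al.Alg

/-! The Hopf algebra is finite-dimensional. -/

namespace Pool.Agent.Lib.MP_868e2f_al

universe u

variable (k : Type u) [Field k]

/-- The words in `x, y`. -/
noncomputable def wordsH : Finset (H32 k) :=
  letI := Classical.decEq (H32 k)
  {1, gen k Gen.x, gen k Gen.y, gen k Gen.x * gen k Gen.y, gen k Gen.y * gen k Gen.x,
    gen k Gen.x * (gen k Gen.y * gen k Gen.x), gen k Gen.y * (gen k Gen.x * gen k Gen.y),
    gen k Gen.x * (gen k Gen.y * (gen k Gen.x * gen k Gen.y))}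

/-- Their span. -/
noncomputable def spanW : Submodule k (H32 k) := Submodule.span k (wordsH k : Set (H32 k))

instance : FiniteDimensional k (spanW k) := FiniteDimensional.span_finset k _

theorem mem_wordsH (a : H32 k) : a ∈ wordsH k ↔ a = 1 ∨ a = gen k Gen.x ∨ a = gen k Gen.y ∨
    a = gen k Gen.x * gen k Gen.y ∨ a = gen k Gen.y * gen k Gen.x ∨
    a = gen k Gen.x * (gen k Gen.y * gen k Gen.x) ∨
    a = gen k Gen.y * (gen k Gen.x * gen k Gen.y) ∨
    a = gen k Gen.x * (gen k Gen.y * (gen k Gen.x * gen k Gen.y)) := by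
  simp [wordsH]

theorem spanW_mul (c : H32 k) (h : ∀ a ∈ wordsH k, c * a ∈ spanW k) :
    ∀ a ∈ spanW k, c * a ∈ spanW k := by
  intro a ha
  induction ha using Submodule.span_induction with
  | mem x hx => exact h x hx
  | zero => rw [mul_zero]; exact Submodule.zero_mem _
  | add x y _ _ hx hy => rw [mul_add]; exact Submodule.add_mem _ hx hy
  | smul r x _ hx => rw [mul_smul_comm]; exact Submodule.smul_mem _ r hx

theorem x_mul_spanW : ∀ a ∈ spanW k, gen k Gen.x * a ∈ spanW k := by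
  have d := datum_gen k
  have xx' : ∀ z, gen k Gen.x * (gen k Gen.x * z) = 0 := fun z => by
    rw [← mul_assoc, d.xx, zero_mul]
  apply spanW_mul
  intro a ha
  have hw : ∀ b, b ∈ wordsH k → b ∈ spanW k := fun b hb => Submodule.subset_span hb
  rw [mem_wordsH] at ha
  rcases ha with rfl | rfl | rfl | rfl | rfl | rfl | rfl | rfl
  · rw [mul_one]; apply hw; rw [mem_wordsH]; tauto
  · rw [d.xx]; exact Submodule.zero_mem _
  · apply hw; rw [mem_wordsH]; tauto
  · rw [xx']; exact Submodule.zero_mem _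
  · apply hw; rw [mem_wordsH]; tauto
  · rw [xx']; exact Submodule.zero_mem _
  · apply hw; rw [mem_wordsH]; tauto
  · rw [xx']; exact Submodule.zero_mem _

theorem y_mul_spanW : ∀ a ∈ spanW k, gen k Gen.y * a ∈ spanW k := by
  have d := datum_gen k
  have yy' : ∀ z, gen k Gen.y * (gen k Gen.y * z) = 0 := fun z => by
    rw [← mul_assoc, d.yy, zero_mul]
  apply spanW_mul
  intro a ha
  have hw : ∀ b, b ∈ wordsH k → b ∈ spanW k := fun b hb => Submodule.subset_span hb
  rw [mem_wordsH] at ha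
  rcases ha with rfl | rfl | rfl | rfl | rfl | rfl | rfl | rfl
  · rw [mul_one]; apply hw; rw [mem_wordsH]; tauto
  · apply hw; rw [mem_wordsH]; tauto
  · rw [d.yy]; exact Submodule.zero_mem _
  · apply hw; rw [mem_wordsH]; tauto
  · rw [yy']; exact Submodule.zero_mem _
  · have : gen k Gen.y * (gen k Gen.x * (gen k Gen.y * gen k Gen.x)) =
        -(gen k Gen.x * (gen k Gen.y * (gen k Gen.x * gen k Gen.y))) := by
      rw [d.xy, neg_neg]
    rw [this]
    apply Submodule.neg_mem
    apply hw; rw [mem_wordsH]; tauto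
  · rw [yy']; exact Submodule.zero_mem _
  · rw [d.xy, mul_neg, yy', neg_zero]; exact Submodule.zero_mem _

/-- Spanning map. -/
noncomputable def spanMap : (spanW k × spanW k) × (spanW k × spanW k) →ₗ[k] H32 k :=
  LinearMap.coprod
    (LinearMap.coprod (spanW k).subtype (LinearMap.mulLeft k (gen k Gen.g) ∘ₗ (spanW k).subtype))
    (LinearMap.coprod (LinearMap.mulLeft k (gen k Gen.h) ∘ₗ (spanW k).subtype)
      (LinearMap.mulLeft k (gen k Gen.g * gen k Gen.h) ∘ₗ (spanW k).subtype))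

theorem spanMap_apply (s : (spanW k × spanW k) × (spanW k × spanW k)) :
    spanMap k s = (s.1.1 : H32 k) + gen k Gen.g * s.1.2 + (gen k Gen.h * s.2.1 +
      gen k Gen.g * gen k Gen.h * s.2.2) := rfl

theorem spanMap_surjective : Function.Surjective (spanMap k) := by
  have d := datum_gen k
  have gx' : ∀ z, gen k Gen.x * (gen k Gen.g * z) = -(gen k Gen.g * (gen k Gen.x * z)) :=
    fun z => by rw [← mul_assoc, d.gx, neg_mul, mul_assoc]
  have gy' : ∀ z, gen k Gen.y * (gen k Gen.g * z) = (gen k Gen.g * (gen k Gen.y * z)) :=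
    fun z => by rw [← mul_assoc, d.gy, mul_assoc]
  have hx' : ∀ z, gen k Gen.x * (gen k Gen.h * z) = -(gen k Gen.h * (gen k Gen.x * z)) :=
    fun z => by rw [← mul_assoc, d.hx, neg_mul, mul_assoc]
  have hy' : ∀ z, gen k Gen.y * (gen k Gen.h * z) = -(gen k Gen.h * (gen k Gen.y * z)) :=
    fun z => by rw [← mul_assoc, d.hy, neg_mul, mul_assoc]
  have key : ∀ a : H32 k, ∀ v ∈ LinearMap.range (spanMap k),
      a * v ∈ LinearMap.range (spanMap k) := by
    intro a
    induction a using H32.induction with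
    | hr r =>
      intro v hv
      rw [← Algebra.smul_def]
      exact Submodule.smul_mem _ r hv
    | hg i =>
      rintro v ⟨⟨⟨s1, s2⟩, ⟨s3, s4⟩⟩, rfl⟩
      cases i
      · refine ⟨⟨⟨s2, s1⟩, ⟨s4, s3⟩⟩, ?_⟩
        rw [spanMap_apply, spanMap_apply]
        simp only [mul_add]
        rw [← mul_assoc (gen k Gen.g) (gen k Gen.g), d.gg, one_mul,
          ← mul_assoc (gen k Gen.g) (gen k Gen.g * gen k Gen.h),
          ← mul_assoc (gen k Gen.g) (gen k Gen.g), d.gg, one_mul,
          ← mul_assoc (gen k Gen.g) (gen k Gen.h)]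
        abel
      · refine ⟨⟨⟨s3, s4⟩, ⟨s1, s2⟩⟩, ?_⟩
        rw [spanMap_apply, spanMap_apply]
        simp only [mul_add]
        rw [d.gh, ← mul_assoc (gen k Gen.h) (gen k Gen.h), d.hh, one_mul,
          ← mul_assoc (gen k Gen.h) (gen k Gen.h * gen k Gen.g),
          ← mul_assoc (gen k Gen.h) (gen k Gen.h), d.hh, one_mul,
          ← mul_assoc (gen k Gen.h) (gen k Gen.g)]
        abel
      · refine ⟨⟨⟨⟨_, x_mul_spanW k _ s1.2⟩, -⟨_, x_mul_spanW k _ s2.2⟩⟩,
          ⟨-⟨_, x_mul_spanW k _ s3.2⟩, ⟨_, x_mul_spanW k _ s4.2⟩⟩⟩, ?_⟩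
        rw [spanMap_apply, spanMap_apply]
        simp only [mul_add, Submodule.coe_neg, mul_assoc, gx', hx', mul_neg, neg_neg]
      · refine ⟨⟨⟨⟨_, y_mul_spanW k _ s1.2⟩, ⟨_, y_mul_spanW k _ s2.2⟩⟩,
          ⟨-⟨_, y_mul_spanW k _ s3.2⟩, -⟨_, y_mul_spanW k _ s4.2⟩⟩⟩, ?_⟩
        rw [spanMap_apply, spanMap_apply]
        simp only [mul_add, Submodule.coe_neg, mul_assoc, gy', hy', mul_neg]
    | hmul a b ha hb =>
      intro v hv
      rw [mul_assoc]
      exact ha _ (hb _ hv)
    | hadd a b ha hb =>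
      intro v hv
      rw [add_mul]
      exact Submodule.add_mem _ (ha _ hv) (hb _ hv)
  intro a
  have h1 : (1 : H32 k) ∈ LinearMap.range (spanMap k) := by
    refine ⟨⟨⟨⟨1, Submodule.subset_span ?_⟩, 0⟩, 0⟩, ?_⟩
    · change (1 : H32 k) ∈ wordsH k
      rw [mem_wordsH]; tauto
    · rw [spanMap_apply]; simp
  have h2 := key a 1 h1
  rwa [mul_one] at h2

instance : FiniteDimensional k (H32 k) :=
  Module.Finite.of_surjective (spanMap k) (spanMap_surjective k)

end Pool.Agent.Lib.MP_868e2f_al
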