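import Mathlib

/-! Splitting lemma and Gram matrices. -/

namespace Pool.Agent.Lib.MP_868e2f_al

variable {k V : Type*} [Field k] [AddCommGroup V] [Module k V]

/-- If vectors `v i` and functionals `φ i` span invariant subspaces and have an injective Gram
matrix, then in an indecomposable situation the `v i` form a basis. -/
theorem split_basis {ι : Type*} [Finite ι] [Nonempty ι] (v : ι → V) (φ : ι → Module.Dual k V)
    (hG : ∀ c : ι →₀ k, (∀ i, φ i (Finsupp.linearCombination k v c) = 0) → c = 0)
    {T : Type*} (t : T → Module.End k V)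
    (hv : ∀ a i, t a (v i) ∈ Submodule.span k (Set.range v))
    (hφ : ∀ a i, φ i ∘ₗ t a ∈ Submodule.span k (Set.range φ))
    (hind : ∀ A B : Submodule k V, (∀ a, ∀ x ∈ A, t a x ∈ A) → (∀ a, ∀ x ∈ B, t a x ∈ B) →
      IsCompl A B → A = ⊥ ∨ B = ⊥) :
    LinearIndependent k v ∧ Submodule.span k (Set.range v) = ⊤ := by
  have hli : LinearIndependent k v := by
    rw [linearIndependent_iff]
    intro c hc
    apply hG
    intro i
    rw [hc, map_zero]
  refine ⟨hli, ?_⟩
  -- the annihilator of the functionals
  let B : Submodule k V := ⨅ i, LinearMap.ker (φ i)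
  have hB : ∀ x, x ∈ B ↔ ∀ i, φ i x = 0 := by
    intro x
    simp [B, Submodule.mem_iInf]
  have hBspan : ∀ x ∈ B, ∀ ψ ∈ Submodule.span k (Set.range φ), ψ x = 0 := by
    intro x hx ψ hψ
    induction hψ using Submodule.span_induction with
    | mem y hy =>
      obtain ⟨i, rfl⟩ := hy
      exact (hB x).mp hx i
    | zero => rfl
    | add y z _ _ h1 h2 => rw [LinearMap.add_apply, h1, h2, add_zero]
    | smul a y _ h1 => rw [LinearMap.smul_apply, h1, smul_zero]
  have hAinv : ∀ a, ∀ x ∈ Submodule.span k (Set.range v),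
      t a x ∈ Submodule.span k (Set.range v) := by
    intro a x hx
    induction hx using Submodule.span_induction with
    | mem y hy =>
      obtain ⟨i, rfl⟩ := hy
      exact hv a i
    | zero => rw [map_zero]; exact Submodule.zero_mem _
    | add y z _ _ h1 h2 => rw [map_add]; exact Submodule.add_mem _ h1 h2
    | smul c y _ h1 => rw [map_smul]; exact Submodule.smul_mem _ _ h1
  have hBinv : ∀ a, ∀ x ∈ B, t a x ∈ B := by
    intro a x hx
    rw [hB]
    intro i
    exact hBspan x hx _ (hφ a i)
  have hcompl : IsCompl (Submodule.span k (Set.range v)) B := by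
    refine ⟨?_, ?_⟩
    · rw [Submodule.disjoint_def]
      intro x hx hxB
      rw [Finsupp.mem_span_range_iff_exists_finsupp] at hx
      obtain ⟨c, rfl⟩ := hx
      have h1 := hG c (fun i => (hB _).mp hxB i)
      rw [h1]
      simp
    · rw [codisjoint_iff, eq_top_iff]
      intro w _
      -- the Gram map
      have := Fintype.ofFinite ι
      let Γ : (ι →₀ k) →ₗ[k] (ι →₀ k) :=
        (Finsupp.linearEquivFunOnFinite k k ι).symm.toLinearMap ∘ₗ
          (LinearMap.pi φ) ∘ₗ (Finsupp.linearCombination k v)
      have hΓ : ∀ c i, Γ c i = φ i (Finsupp.linearCombination k v c) := by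
        intro c i
        simp [Γ]
      have hinj : Function.Injective Γ := by
        rw [← LinearMap.ker_eq_bot, LinearMap.ker_eq_bot']
        intro c hc
        apply hG
        intro i
        rw [← hΓ, hc]
        rfl
      have hsurj : Function.Surjective Γ := LinearMap.injective_iff_surjective.mp hinj
      obtain ⟨c, hc⟩ := hsurj ((Finsupp.linearEquivFunOnFinite k k ι).symm (fun i => φ i w))
      have h1 : w - Finsupp.linearCombination k v c ∈ B := by
        rw [hB]
        intro i
        rw [map_sub, ← hΓ, hc]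
        simp
      have h2 : Finsupp.linearCombination k v c ∈ Submodule.span k (Set.range v) := by
        rw [Finsupp.mem_span_range_iff_exists_finsupp]
        exact ⟨c, rfl⟩
      have h3 : w = Finsupp.linearCombination k v c + (w - Finsupp.linearCombination k v c) := by
        abel
      rw [h3]
      exact Submodule.add_mem_sup h2 h1
  rcases hind _ _ hAinv hBinv hcompl with h | h
  · exfalso
    obtain ⟨i⟩ := ‹Nonempty ι›
    have h1 : v i ∈ Submodule.span k (Set.range v) := Submodule.subset_span ⟨i, rfl⟩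
    rw [h, Submodule.mem_bot] at h1
    exact hli.ne_zero i h1
  · have h1 := hcompl.sup_eq_top
    rw [h, sup_bot_eq] at h1
    exact h1

/-- Gram matrices which are triangular in blocks with antitriangular blocks are injective. -/
theorem gram_inj {N e : ℕ} (v : Fin N × Fin e → V) (φ : Fin N × Fin e → Module.Dual k V)
    (r : Fin N → ℕ) (h1 : ∀ m n i j, m ≠ n → φ (m, i) (v (n, j)) ≠ 0 → r m < r n)
    (h2 : ∀ m (i j : Fin e), e ≤ (i : ℕ) + j → φ (m, i) (v (m, j)) = 0)
    (h3 : ∀ m (i j : Fin e), (i : ℕ) + j + 1 = e → φ (m, i) (v (m, j)) ≠ 0) :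
    ∀ c : (Fin N × Fin e) →₀ k, (∀ i, φ i (Finsupp.linearCombination k v c) = 0) → c = 0 := by
  classical
  intro c hc
  by_contra hne
  obtain ⟨x0, hx0⟩ : ∃ x, c x ≠ 0 := by
    by_contra hcon
    push Not at hcon
    exact hne (Finsupp.ext hcon)
  -- choose a block of maximal rank
  let s : Finset (Fin N) := Finset.univ.filter (fun n => ∃ j, c (n, j) ≠ 0)
  have hs : s.Nonempty := ⟨x0.1, by simp only [s, Finset.mem_filter]; exact ⟨Finset.mem_univ _, x0.2, hx0⟩⟩
  obtain ⟨m, hm, hmax⟩ := Finset.exists_max_image s r hs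
  simp only [s, Finset.mem_filter, Finset.mem_univ, true_and] at hm hmax
  -- least `j` in this block
  obtain ⟨j0, hj0, hmin⟩ : ∃ j0, c (m, j0) ≠ 0 ∧ ∀ j, c (m, j) ≠ 0 → j0 ≤ j := by
    let s' : Finset (Fin e) := Finset.univ.filter (fun j => c (m, j) ≠ 0)
    obtain ⟨j1, hj1⟩ := hm
    have hs' : s'.Nonempty := ⟨j1, by simp only [s', Finset.mem_filter]; exact ⟨Finset.mem_univ _, hj1⟩⟩
    refine ⟨s'.min' hs', ?_, ?_⟩
    · have := s'.min'_mem hs'
      simp only [s', Finset.mem_filter] at this
      exact this.2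
    · intro j hj
      exact s'.min'_le j (by simp only [s', Finset.mem_filter]; exact ⟨Finset.mem_univ _, hj⟩)
  have hlt : e - 1 - (j0 : ℕ) < e := by
    have := j0.2
    omega
  have h4 := hc (m, ⟨e - 1 - (j0 : ℕ), hlt⟩)
  rw [Finsupp.linearCombination_apply, map_finsuppSum, Finsupp.sum_fintype _ _ (by simp),
    Finset.sum_eq_single (m, j0)] at h4
  · rw [map_smul, smul_eq_mul, mul_eq_zero] at h4
    rcases h4 with h4 | h4
    · exact hj0 h4
    · refine h3 m ⟨e - 1 - (j0 : ℕ), hlt⟩ j0 ?_ h4
      change e - 1 - (j0 : ℕ) + j0 + 1 = e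
      have := j0.2
      omega
  · rintro ⟨n, j⟩ _ hnj
    rw [map_smul, smul_eq_mul, mul_eq_zero]
    by_cases hcn : c (n, j) = 0
    · exact Or.inl hcn
    · right
      by_cases hn : m = n
      · subst hn
        apply h2
        have h5 := hmin j hcn
        have h6 : j0 ≠ j := by
          rintro rfl
          exact hnj rfl
        have h7 : (j0 : ℕ) < j := lt_of_le_of_ne h5 (fun h => h6 (Fin.ext h))
        change e ≤ e - 1 - (j0 : ℕ) + j
        omega
      · by_contra hcon
        have h5 := h1 m n _ j hn hcon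
        have h6 := hmax n ⟨j, hcn⟩
        omega
  · intro h
    exact absurd (Finset.mem_univ _) h

end Pool.Agent.Lib.MP_868e2f_al
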