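import Pool.Agent.Lib.MP_868e2f_al.ZSeq
import Pool.Agent.Lib.MP_868e2f_al.Split

/-! Assembling a basis from compatible sequences of vectors and functionals. -/

namespace Pool.Agent.Lib.MP_868e2f_al

set_option linter.unusedSectionVars false

namespace Sys

variable {k V κ : Type*} [Field k] [AddCommGroup V] [Module k V] [Fintype κ]

/-- all operators -/
def t (S : Sys k V κ) : Bool ⊕ κ → Module.End k V
  | Sum.inl b => S.op b
  | Sum.inr c => S.e c

/-- indecomposability -/
def Indec (S : Sys k V κ) : Prop :=
  ∀ A B : Submodule k V, (∀ a, ∀ x ∈ A, S.t a x ∈ A) → (∀ a, ∀ x ∈ B, S.t a x ∈ B) →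
    IsCompl A B → A = ⊥ ∨ B = ⊥

/-- There is a basis on which the operators act through `0`, `1` and one parameter. -/
def HasNice (S : Sys k V κ) : Prop :=
  ∃ (N e : ℕ) (v : Fin N × Fin e → V) (c : k) (col : Fin N × Fin e → κ),
    LinearIndependent k v ∧ Submodule.span k (Set.range v) = ⊤ ∧
    (∀ i, S.e (col i) (v i) = v i) ∧
    ∀ b i, S.op b (v i) = 0 ∨ (∃ j, S.op b (v i) = v j) ∨ (∃ j, S.op b (v i) = c • v j) ∨
      ∃ j j', j ≠ j' ∧ S.op b (v i) = c • v j + v j'

variable {S : Sys k V κ} [FiniteDimensional k V]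

theorem assemble (hind : S.Indec) {W : ℤ → S.P × Bool} (hW : IsWalk W) (M e : ℕ) (he : 0 < e)
    (c : k) (z : ℕ → ℤ → V) (hz : ∀ j, z j ∈ ZS W) (Φ : ℕ → ℤ → Module.Dual k V)
    (hΦ : ∀ i, Φ i ∈ ZD W)
    (hdist : ∀ m n : ℕ, m ≤ M → n ≤ M → (W m).1 = (W n).1 → m = n)
    (hadj : ∀ n : ℕ, n < M → Adj (W n).2 (W n).1 (W (n + 1)).1)
    (hB0 : ∀ i j, e ≤ i + j → Φ i 0 (z j 0) = 0)
    (hB1 : ∀ i j, i + j + 1 = e → Φ i 0 (z j 0) ≠ 0)
    (hze : z e = 0)
    (hE1 : ∀ j, S.op (!(W 0).2) (z j 0) = 0)
    (hE2 : ∀ j, S.op (W M).2 (z j M) = 0 ∨ S.op (W M).2 (z j M) = c • z j 0 + z (j + 1) 0)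
    (hE3 : ∀ i, i < e → Φ i 0 ∘ₗ S.op (!(W 0).2) ∈ Submodule.span k
      (Set.range (fun x : Fin (M + 1) × Fin e => Φ x.2 x.1)))
    (hE4 : ∀ i, Φ i M ∘ₗ S.op (W M).2 = 0) : S.HasNice := by
  set v : Fin (M + 1) × Fin e → V := fun x => z x.2 x.1 with hvdef
  set φ : Fin (M + 1) × Fin e → Module.Dual k V := fun x => Φ x.2 x.1 with hφdef
  let col : Fin (M + 1) × Fin e → κ := fun x => (W (x.1 : ℕ)).1.1.c
  have hcol : ∀ i, S.e (col i) (v i) = v i := fun i => (mem_U.mp (hz i.2 (i.1 : ℕ)).1).2
  have hpair : ∀ (i j : ℕ) (n : ℕ), n ≤ M → Φ i n (z j n) = Φ i 0 (z j 0) := by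
    intro i j n hn
    induction n with
    | zero => rfl
    | succ n ih =>
      rw [← ih (by omega)]
      push_cast
      exact ZS_pairing (hz j) (hΦ i) (hadj n (by omega))
  -- action of the letters on the vectors
  have hop : ∀ b i, S.op b (v i) = 0 ∨ (∃ j, S.op b (v i) = v j) ∨
      (∃ j, S.op b (v i) = c • v j) ∨ ∃ j j', j ≠ j' ∧ S.op b (v i) = c • v j + v j' := by
    rintro b ⟨⟨n, hn⟩, ⟨j, hj⟩⟩
    change S.op b (z j n) = 0 ∨ (∃ j', S.op b (z j n) = v j') ∨
      (∃ j', S.op b (z j n) = c • v j') ∨ ∃ j' j'', j' ≠ j'' ∧ S.op b (z j n) = c • v j' + v j''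
    by_cases hb : b = (W n).2
    · subst hb
      rcases Nat.lt_or_ge n M with hnM | hnM
      · rcases hadj n hnM with h | h
        · right; left
          refine ⟨(⟨n + 1, by omega⟩, ⟨j, hj⟩), ?_⟩
          rw [((hz j) n).2.1 h]
          simp [hvdef]
        · left
          rw [← ((hz j) n).2.2 h]
          exact S.sq _ _
      · have hnM' : n = M := by omega
        subst hnM'
        rcases hE2 j with h | h
        · exact Or.inl h
        · right; right
          rcases Nat.lt_or_ge (j + 1) e with hje | hje
          · right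
            refine ⟨(⟨0, by omega⟩, ⟨j, hj⟩), (⟨0, by omega⟩, ⟨j + 1, hje⟩), ?_, ?_⟩
            · intro heq
              have := congrArg (fun x => (x.2 : ℕ)) heq
              simp at this
            · rw [h]
              simp [hvdef]
          · left
            have hje' : j + 1 = e := by omega
            refine ⟨(⟨0, by omega⟩, ⟨j, hj⟩), ?_⟩
            rw [h, hje', hze]
            simp [hvdef]
    · have hb' : b = !(W n).2 := by
        revert hb
        cases b <;> cases (W n).2 <;> simp
      subst hb'
      cases n with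
      | zero =>
        left
        exact hE1 j
      | succ n =>
        have hlet : (!(W ((n + 1 : ℕ) : ℤ)).2) = (W n).2 := by
          push_cast
          rw [hW.letter, Bool.not_not]
        rw [hlet]
        rcases hadj n (by omega) with h | h
        · left
          have := ((hz j) n).2.1 h
          push_cast
          rw [← this]
          exact S.sq _ _
        · right; left
          refine ⟨(⟨n, by omega⟩, ⟨j, hj⟩), ?_⟩
          have := ((hz j) n).2.2 h
          push_cast
          rw [this]
  have hv : ∀ a i, S.t a (v i) ∈ Submodule.span k (Set.range v) := by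
    have hmem : ∀ i, v i ∈ Submodule.span k (Set.range v) := fun i =>
      Submodule.subset_span ⟨i, rfl⟩
    rintro (b | c') i
    · change S.op b (v i) ∈ _
      rcases hop b i with h | ⟨j, h⟩ | ⟨j, h⟩ | ⟨j, j', _, h⟩
      · rw [h]; exact Submodule.zero_mem _
      · rw [h]; exact hmem j
      · rw [h]; exact Submodule.smul_mem _ _ (hmem j)
      · rw [h]; exact Submodule.add_mem _ (Submodule.smul_mem _ _ (hmem j)) (hmem j')
    · change S.e c' (v i) ∈ _
      by_cases hc : c' = col i
      · rw [hc, hcol]; exact hmem i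
      · rw [← hcol i, S.e_orth _ _ _ hc]; exact Submodule.zero_mem _
  have hφ : ∀ a i, φ i ∘ₗ S.t a ∈ Submodule.span k (Set.range φ) := by
    have hmem : ∀ i, φ i ∈ Submodule.span k (Set.range φ) := fun i =>
      Submodule.subset_span ⟨i, rfl⟩
    rintro (b | c') ⟨⟨n, hn⟩, ⟨j, hj⟩⟩
    · change Φ j n ∘ₗ S.op b ∈ _
      by_cases hb : b = (W n).2
      · subst hb
        rcases Nat.lt_or_ge n M with hnM | hnM
        · rcases hadj n hnM with h | h
          · have h0 : Φ j n ∘ₗ S.op (W n).2 = 0 := by
              apply LinearMap.ext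
              intro w
              rw [LinearMap.comp_apply, ← ((hΦ j) n).2.1 h, S.sq, map_zero]
              rfl
            rw [h0]
            exact Submodule.zero_mem _
          · have h0 : Φ j n ∘ₗ S.op (W n).2 = φ (⟨n + 1, by omega⟩, ⟨j, hj⟩) := by
              apply LinearMap.ext
              intro w
              rw [LinearMap.comp_apply, ((hΦ j) n).2.2 h]
              simp [hφdef]
            rw [h0]
            exact hmem _
        · have hnM' : n = M := by omega
          subst hnM'
          rw [hE4]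
          exact Submodule.zero_mem _
      · have hb' : b = !(W n).2 := by
          revert hb
          cases b <;> cases (W n).2 <;> simp
        subst hb'
        cases n with
        | zero => exact hE3 j hj
        | succ n =>
          have hlet : (!(W ((n + 1 : ℕ) : ℤ)).2) = (W n).2 := by
            push_cast
            rw [hW.letter, Bool.not_not]
          rw [hlet]
          rcases hadj n (by omega) with h | h
          · have h0 : Φ j ((n + 1 : ℕ) : ℤ) ∘ₗ S.op (W n).2 = φ (⟨n, by omega⟩, ⟨j, hj⟩) := by
              apply LinearMap.ext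
              intro w
              have := ((hΦ j) n).2.1 h w
              rw [LinearMap.comp_apply]
              push_cast
              exact this
            rw [h0]
            exact hmem _
          · have h0 : Φ j ((n + 1 : ℕ) : ℤ) ∘ₗ S.op (W n).2 = 0 := by
              apply LinearMap.ext
              intro w
              have := ((hΦ j) n).2.2 h (S.op (W n).2 w)
              rw [S.sq, map_zero] at this
              rw [LinearMap.comp_apply]
              push_cast
              exact this.symm
            rw [h0]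
            exact Submodule.zero_mem _
    · change Φ j n ∘ₗ S.e c' ∈ _
      have hD := ((hΦ j) n).1
      by_cases hc : (W n).1.1.c = c'
      · have h0 : Φ j n ∘ₗ S.e c' = φ (⟨n, hn⟩, ⟨j, hj⟩) := by
          apply LinearMap.ext
          intro w
          rw [LinearMap.comp_apply, ← hc, hD.2]
        rw [h0]
        exact hmem _
      · have h0 : Φ j n ∘ₗ S.e c' = 0 := by
          apply LinearMap.ext
          intro w
          rw [LinearMap.comp_apply, ← hD.2, S.e_orth _ _ _ hc, map_zero]
          rfl
        rw [h0]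
        exact Submodule.zero_mem _
  have hG := gram_inj v φ
    (fun n => Module.finrank k ((W (n : ℕ)).1.1.Z true) +
      Module.finrank k ((W (n : ℕ)).1.1.Z false))
    (by
      rintro ⟨m, hm⟩ ⟨n, hn⟩ ⟨i, hi⟩ ⟨j, hj⟩ hmn hne
      obtain ⟨hc, hle⟩ := D_U_ne (W m).1.2.1 (W n).1.2.1 ((hΦ i) m).1 ((hz j) n).1 hne
      have h1 := Submodule.finrank_mono (hle true)
      have h2 := Submodule.finrank_mono (hle false)
      by_contra hcon
      change ¬ (Module.finrank k ((W m).1.1.Z true) + Module.finrank k ((W m).1.1.Z false) <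
        Module.finrank k ((W n).1.1.Z true) + Module.finrank k ((W n).1.1.Z false)) at hcon
      have h3 := Submodule.eq_of_le_of_finrank_eq (hle true) (by omega)
      have h4 := Submodule.eq_of_le_of_finrank_eq (hle false) (by omega)
      have h5 : (W m).1 = (W n).1 := by
        apply Subtype.ext
        ext1
        · funext b
          cases b
          · exact h4
          · exact h3
        · exact hc
      have h6 := hdist m n (by omega) (by omega) h5
      exact hmn (Fin.ext h6))
    (by
      rintro ⟨m, hm⟩ ⟨i, hi⟩ ⟨j, hj⟩ hij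
      change Φ i m (z j m) = 0
      rw [hpair i j m (by omega)]
      exact hB0 i j hij)
    (by
      rintro ⟨m, hm⟩ ⟨i, hi⟩ ⟨j, hj⟩ hij
      change Φ i m (z j m) ≠ 0
      rw [hpair i j m (by omega)]
      exact hB1 i j hij)
  have : Nonempty (Fin (M + 1) × Fin e) := ⟨(0, ⟨0, he⟩)⟩
  obtain ⟨h1, h2⟩ := split_basis v φ hG S.t hv hφ hind
  exact ⟨M + 1, e, v, c, col, h1, h2, hcol, hop⟩

end Sys

end Pool.Agent.Lib.MP_868e2f_al
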