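import Pool.Agent.Lib.MP_868e2f_al.Pencil

/-! Abstract pencil lemma. -/

namespace Pool.Agent.Lib.MP_868e2f_al

theorem dual_pow {k G : Type*} [Field k] [AddCommGroup G] [Module k G] (T : Module.End k G)
    (c : k) (n : ℕ) : ∀ (ξ : Module.Dual k G) (g : G),
      (((T.dualMap : Module.End k (Module.Dual k G)) - c • 1) ^ n) ξ g =
        ξ (((T - c • (1 : Module.End k G)) ^ n) g) := by
  induction n with
  | zero => intro ξ g; rfl
  | succ n ih =>
    intro ξ g
    rw [pow_succ, Module.End.mul_apply, ih, pow_succ', Module.End.mul_apply]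
    simp only [LinearMap.sub_apply, LinearMap.smul_apply, Module.End.one_apply,
      LinearMap.dualMap_apply, map_sub, map_smul]

theorem pencil_abstract {k R U G R' U' : Type*} [Field k] [IsAlgClosed k]
    [AddCommGroup R] [Module k R] [AddCommGroup U] [Module k U] [AddCommGroup G] [Module k G]
    [AddCommGroup R'] [Module k R'] [AddCommGroup U'] [Module k U']
    [FiniteDimensional k G] [Nontrivial G]
    (s t : R →ₗ[k] U) (π : U →ₗ[k] G) (hπs : Function.Surjective π) (hs : Function.Surjective s)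
    (hst : ∀ r, π (s r) = 0 ↔ π (t r) = 0)
    (hK : ∀ c : k, c ≠ 0 → ∀ u, π u = 0 → ∃ r, π (s r) = 0 ∧ t r - c • s r = u)
    (s' t' : R' →ₗ[k] U') (π' : U' →ₗ[k] Module.Dual k G) (hπs' : Function.Surjective π')
    (hs' : Function.Surjective s')
    (hK' : ∀ c : k, c ≠ 0 → ∀ u, π' u = 0 → ∃ r, π' (s' r) = 0 ∧ t' r - c • s' r = u)
    (hpair : ∀ r r', π' (s' r') (π (t r)) = π' (t' r') (π (s r))) :
    ∃ (c : k) (e : ℕ) (Z : ℕ → R) (Y : ℕ → R'),
      (∀ j, t (Z j) - c • s (Z j) = s (Z (j + 1))) ∧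
      (∀ i, t' (Y i) - c • s' (Y i) = s' (Y (i + 1))) ∧
      (∀ j, e + 1 ≤ j → Z j = 0) ∧ (∀ i, e + 1 ≤ i → Y i = 0) ∧
      (∀ i j, e + 1 ≤ i + j → π' (t' (Y i)) (π (s (Z j))) = 0) ∧
      (∀ i j, i + j + 1 = e + 1 → π' (t' (Y i)) (π (s (Z j))) ≠ 0) := by
  obtain ⟨T, hT⟩ := exists_factor (π ∘ₗ s) (π ∘ₗ t) (hπs.comp hs) (fun z hz => by
    rw [LinearMap.comp_apply] at hz ⊢
    exact (hst z).mp hz)
  have hT' : ∀ z, T (π (s z)) = π (t z) := hT
  have hTinj : ∀ g, T g = 0 → g = 0 := by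
    intro g hg
    obtain ⟨u, rfl⟩ := hπs g
    obtain ⟨z, rfl⟩ := hs u
    rw [hT'] at hg
    exact (hst z).mpr hg
  obtain ⟨c, hc⟩ := Module.End.exists_eigenvalue T
  obtain ⟨q, hq⟩ := hc.exists_hasEigenvector
  have hq0 : q ≠ 0 := hq.2
  have hqT : T q = c • q := hq.apply_eq_smul
  have hc0 : c ≠ 0 := by
    rintro rfl
    rw [zero_smul] at hqT
    exact hq0 (hTinj q hqT)
  set N := T - c • (1 : Module.End k G) with hN
  have hNapp : ∀ g, N g = T g - c • g := fun g => rfl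
  obtain ⟨e, q1, ψ, hq1, hψ1, hψ2⟩ := exists_jordan N q hq0 (by rw [hNapp, hqT, sub_self])
  -- vectors
  obtain ⟨u1, hu1⟩ := hπs q1
  obtain ⟨Z, hZ1, hZ2, hZ3⟩ := lift_chain s t π T c hs hT' (hK c hc0) (e + 1) u1
    (by rw [hu1]; exact hq1)
  rw [hu1] at hZ3
  -- functionals
  have hTd : ∀ r, (T.dualMap : Module.End k (Module.Dual k G)) (π' (s' r)) = π' (t' r) := by
    intro r
    apply LinearMap.ext
    intro g
    obtain ⟨u, rfl⟩ := hπs g
    obtain ⟨z, rfl⟩ := hs u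
    rw [LinearMap.dualMap_apply, hT']
    exact hpair z r
  obtain ⟨φ0, hφ0⟩ := hπs' ψ
  have hψN : (((T.dualMap : Module.End k (Module.Dual k G)) - c • 1) ^ (e + 1)) (π' φ0) = 0 := by
    rw [hφ0]
    apply LinearMap.ext
    intro g
    rw [dual_pow]
    exact hψ2 g
  obtain ⟨Y, hY1, hY2, hY3⟩ := lift_chain s' t' π'
    (T.dualMap : Module.End k (Module.Dual k G)) c hs' hTd (hK' c hc0) (e + 1) φ0 hψN
  rw [hφ0] at hY3
  have hZc : ∀ j, π (s (Z j)) = (N ^ j) q1 := by
    intro j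
    induction j with
    | zero => rw [hZ3, pow_zero]; rfl
    | succ j ih =>
      rw [← hZ1, map_sub, map_smul, ← hT', ih, pow_succ', Module.End.mul_apply, hNapp]
  have hYc : ∀ i g, π' (s' (Y i)) g = ψ ((N ^ i) g) := by
    intro i
    induction i with
    | zero => intro g; rw [hY3, pow_zero]; rfl
    | succ i ih =>
      intro g
      rw [← hY1, map_sub, map_smul, ← hTd, LinearMap.sub_apply, LinearMap.smul_apply,
        LinearMap.dualMap_apply, ih, ih, pow_succ, Module.End.mul_apply, hNapp, map_sub, map_smul,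
        map_sub, map_smul]
  have hB : ∀ i j, π' (t' (Y i)) (π (s (Z j))) = ψ ((N ^ (i + j + 1)) q1) +
      c * ψ ((N ^ (i + j)) q1) := by
    intro i j
    rw [← hpair, hYc, ← hT', hZc]
    have h2 : T ((N ^ j) q1) = (N ^ (j + 1)) q1 + c • (N ^ j) q1 := by
      rw [pow_succ', Module.End.mul_apply, hNapp]
      abel
    rw [h2, map_add, map_smul, map_add, map_smul, smul_eq_mul, ← Module.End.mul_apply,
      ← Module.End.mul_apply, ← pow_add, ← pow_add, add_assoc]
  have hNz : ∀ n, e + 1 ≤ n → (N ^ n) q1 = 0 := by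
    intro n hn
    obtain ⟨m, rfl⟩ := Nat.exists_eq_add_of_le hn
    rw [add_comm, pow_add, Module.End.mul_apply, hq1, map_zero]
  refine ⟨c, e, Z, Y, hZ1, hY1, hZ2, hY2, ?_, ?_⟩
  · intro i j hij
    rw [hB, hNz _ (by omega), hNz _ (by omega), map_zero, mul_zero, add_zero]
  · intro i j hij
    have h1 : i + j = e := by omega
    rw [hB, h1, hNz _ (by omega), map_zero, zero_add, hψ1, mul_one]
    exact hc0

end Pool.Agent.Lib.MP_868e2f_al
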