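import Pool.Agent.Lib.MP_868e2f_al.CaseB
import Pool.Agent.Lib.MP_868e2f_al.Pencil2

/-! Band case: the Jordan chains and the final basis. -/

namespace Pool.Agent.Lib.MP_868e2f_al

set_option linter.unusedSectionVars false

namespace Sys

variable {k V κ : Type*} [Field k] [AddCommGroup V] [Module k V] [Fintype κ]
variable {S : Sys k V κ} [FiniteDimensional k V]

section Maps

variable {W : ℤ → S.P × Bool}

/-- evaluation at `0` -/
def vecS : ZS W →ₗ[k] S.U (W 0).1.1 := LinearMap.codRestrict _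
    ((LinearMap.proj (0 : ℤ)).comp (ZS W).subtype) (fun z => (z.2 0).1)

/-- evaluation at `L` -/
def vecT {L : ℕ} (hWL : W (L : ℤ) = W 0) : ZS W →ₗ[k] S.U (W 0).1.1 := LinearMap.codRestrict _
    ((LinearMap.proj (L : ℤ)).comp (ZS W).subtype) (fun z => by
      have := (z.2 L).1
      rw [hWL] at this
      exact this)

/-- evaluation at `0` -/
def funS : ZD W →ₗ[k] S.D (W 0).1.1 := LinearMap.codRestrict _
    ((LinearMap.proj (0 : ℤ)).comp (ZD W).subtype) (fun z => (z.2 0).1)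

/-- evaluation at `L` -/
def funT {L : ℕ} (hWL : W (L : ℤ) = W 0) : ZD W →ₗ[k] S.D (W 0).1.1 := LinearMap.codRestrict _
    ((LinearMap.proj (L : ℤ)).comp (ZD W).subtype) (fun z => by
      have := (z.2 L).1
      rw [hWL] at this
      exact this)

/-- the radical part as a subspace of `U p` -/
noncomputable def radU (p : S.P) : Submodule k (S.U p.1) := (S.M p.1).comap (S.U p.1).subtype

/-- the quotient map -/
noncomputable def vecQ (p : S.P) : S.U p.1 →ₗ[k] (S.U p.1 ⧸ radU p) := (radU p).mkQ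

theorem vecQ_eq_zero (p : S.P) (u : S.U p.1) : vecQ p u = 0 ↔ (u : V) ∈ S.M p.1 :=
  Submodule.Quotient.mk_eq_zero _

/-- functionals on the quotient -/
noncomputable def funQ (p : S.P) : S.D p.1 →ₗ[k] Module.Dual k (S.U p.1 ⧸ radU p) where
  toFun φ := (radU p).liftQ (φ.1 ∘ₗ (S.U p.1).subtype) (fun u hu => φ.2.1 _ hu)
  map_add' φ ψ := by
    apply Submodule.linearMap_qext
    rfl
  map_smul' a φ := by
    apply Submodule.linearMap_qext
    rfl

theorem funQ_apply {p : S.P} (φ : S.D p.1) (u : S.U p.1) :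
    funQ p φ ((radU p).mkQ u) = φ.1 u.1 := rfl

theorem funQ_surj (p : S.P) : Function.Surjective (funQ p) := by
  intro ψ
  obtain ⟨φ0, hφ0, hφ0'⟩ := exists_D_extend p.1 (ψ ∘ₗ vecQ p) (fun u hu => by
    rw [LinearMap.comp_apply, (vecQ_eq_zero p u).mpr hu, map_zero])
  refine ⟨⟨φ0, hφ0⟩, ?_⟩
  apply LinearMap.ext
  intro g
  obtain ⟨u, rfl⟩ := Submodule.mkQ_surjective _ g
  rw [funQ_apply]
  exact hφ0' u

theorem vecS_surj (hW : IsWalk W) : Function.Surjective (vecS (W := W)) := by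
  intro u
  obtain ⟨z, hz, hz0⟩ := exists_ZS hW u.2
  exact ⟨⟨z, hz⟩, Subtype.ext hz0⟩

theorem funT_surj (hW : IsWalk W) {L : ℕ} (hWL : W (L : ℤ) = W 0) (hper : ∀ n, W (n + L) = W n) :
    Function.Surjective (funT (W := W) hWL) := by
  intro φ
  obtain ⟨z, hz, hz0⟩ := exists_ZD hW φ.2
  refine ⟨⟨fun n => z (n + -L), ZD_shift (per_neg hper) hz⟩, Subtype.ext ?_⟩
  change z ((L : ℤ) + -L) = φ.1
  rw [add_neg_cancel, hz0]

instance (p : S.P) : Nontrivial (S.U p.1 ⧸ radU p) := by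
  obtain ⟨u, hu, hM⟩ := p.2.2
  refine ⟨⟨vecQ p ⟨u, hu⟩, 0, fun h => hM ?_⟩⟩
  exact (vecQ_eq_zero p _).mp h

end Maps

section Pencil

variable {W : ℤ → S.P × Bool} (hW : IsWalk W) {L : ℕ} (hL : 0 < L)
  (hper : ∀ n, W (n + L) = W n) (hB : ∀ (b : Bool) (p : S.P), ∃ q, Adj b p q)

include hW hL hper hB

theorem band_pencil [IsAlgClosed k] : ∃ (c : k) (e : ℕ) (z : ℕ → ℤ → V)
    (Φ : ℕ → ℤ → Module.Dual k V), (∀ j, z j ∈ ZS W) ∧ (∀ i, Φ i ∈ ZD W) ∧
      (∀ j, z j L - c • z j 0 = z (j + 1) 0) ∧ (∀ i, Φ i 0 - c • Φ i L = Φ (i + 1) L) ∧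
      (∀ j, e + 1 ≤ j → z j = 0) ∧ (∀ i, e + 1 ≤ i → Φ i = 0) ∧
      (∀ i j, e + 1 ≤ i + j → Φ i 0 (z j 0) = 0) ∧ (∀ i j, i + j + 1 = e + 1 →
        Φ i 0 (z j 0) ≠ 0) := by
  have hadj := all_adj hW hL hper hB
  have hWL := W_L hW hL hper hB
  have hst : ∀ r : ZS W, vecQ (W 0).1 (vecS r) = 0 ↔ vecQ (W 0).1 (vecT hWL r) = 0 := by
    intro r
    rw [vecQ_eq_zero, vecQ_eq_zero]
    have := ZS_M_nat hadj r.2 0 L
    rwa [zero_add, hWL] at this
  have hK : ∀ c : k, c ≠ 0 → ∀ u : S.U (W 0).1.1, vecQ (W 0).1 u = 0 →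
      ∃ r : ZS W, vecQ (W 0).1 (vecS r) = 0 ∧ vecT hWL r - c • vecS r = u := by
    intro c hc u hu
    rw [vecQ_eq_zero] at hu
    obtain ⟨r, hr, hr0, hrL⟩ := solve_vec hW hL hper hB hc u.2 hu
    exact ⟨⟨r, hr⟩, (vecQ_eq_zero _ _).mpr hr0, Subtype.ext hrL⟩
  have hK' : ∀ c : k, c ≠ 0 → ∀ φ : S.D (W 0).1.1, funQ (W 0).1 φ = 0 →
      ∃ r : ZD W, funQ (W 0).1 (funT hWL r) = 0 ∧ funS r - c • funT hWL r = φ := by
    intro c hc φ hφ
    obtain ⟨r, hr, hr0, hrL⟩ := solve_dual hW hL hper hB hc φ.2 (fun u hu => by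
      have := funQ_apply φ ⟨u, hu⟩
      rw [hφ] at this
      exact this.symm)
    refine ⟨⟨r, hr⟩, ?_, Subtype.ext hrL⟩
    apply LinearMap.ext
    intro g
    obtain ⟨u, rfl⟩ := Submodule.mkQ_surjective _ g
    exact (funQ_apply _ u).trans (hr0 u.1 u.2)
  have hpair : ∀ (r : ZS W) (r' : ZD W),
      funQ (W 0).1 (funT hWL r') (vecQ (W 0).1 (vecT hWL r)) =
        funQ (W 0).1 (funS r') (vecQ (W 0).1 (vecS r)) := by
    intro r r'
    exact ZS_pairing_nat hadj r.2 r'.2 L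
  obtain ⟨c, e, Z, Y, h1, h2, h3, h4, h5, h6⟩ := pencil_abstract (k := k) (R := ZS W)
    (U := S.U (W 0).1.1) (G := S.U (W 0).1.1 ⧸ radU (W 0).1) (R' := ZD W) (U' := S.D (W 0).1.1)
    (vecS (W := W)) (vecT (W := W) hWL) (vecQ (W 0).1) (Submodule.mkQ_surjective _)
    (vecS_surj hW) hst hK (funT (W := W) hWL) (funS (W := W)) (funQ (W 0).1) (funQ_surj _)
    (funT_surj hW hWL hper) hK' hpair
  refine ⟨c, e, fun j => (Z j).1, fun i => (Y i).1, fun j => (Z j).2, fun i => (Y i).2,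
    fun j => congrArg Subtype.val (h1 j), fun i => congrArg Subtype.val (h2 i), ?_, ?_, h5, h6⟩
  · intro j hj
    change (Z j).1 = 0
    rw [h3 j hj]
    rfl
  · intro i hi
    change (Y i).1 = 0
    rw [h4 i hi]
    rfl

end Pencil

theorem caseB [IsAlgClosed k] [Nontrivial V] (hind : S.Indec)
    (hB : ∀ (b : Bool) (p : S.P), ∃ q, Adj b p q) : S.HasNice := by
  -- a `true`-edge
  obtain ⟨p', p'', hE⟩ : ∃ p' p'' : S.P, S.Edge true p'.1 p''.1 := by
    obtain ⟨p, hp⟩ := exists_valid (S := S)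
    rcases sg_adj (hB true ⟨p, hp⟩) with h | h
    · exact ⟨_, _, h⟩
    · exact ⟨_, _, h⟩
  set W := walkOf (S := S) (p'', false) with hWdef
  have hW : IsWalk W := walkOf_isWalk _
  have hW0 : W 0 = (p'', false) := walkOf_zero _
  have hWm : W (-1) = (p', true) := by
    have h1 := hW.letter (-1)
    have h2 := hW.vert' (-1)
    have e : (-1 : ℤ) + 1 = 0 := by norm_num
    rw [e, hW0] at h1 h2
    have h3 : (W (-1)).2 = true := by
      change false = !(W (-1)).2 at h1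
      revert h1
      cases (W (-1)).2 <;> simp
    rw [h3] at h2
    have h4 : Adj true p'' p' := Or.inr hE
    rw [h4.sg_eq] at h2
    exact Prod.ext h2 h3
  have hex : ∃ N : ℕ, 0 < N ∧ W N = W 0 := by
    obtain ⟨N, hN, hN'⟩ := exists_period (S := S) (p'', false)
    exact ⟨N, hN, by rw [hW0]; exact hN'⟩
  classical
  obtain ⟨L, ⟨hL, hWL⟩, hmin⟩ : ∃ L : ℕ, (0 < L ∧ W L = W 0) ∧
      ∀ n : ℕ, n < L → ¬ (0 < n ∧ W n = W 0) :=
    ⟨Nat.find hex, Nat.find_spec hex, fun n hn => Nat.find_min hex hn⟩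
  have hper : ∀ n, W (n + L) = W n := walkOf_per (by rw [← hWdef, hWL, hW0])
  obtain ⟨M, rfl⟩ : ∃ m, L = m + 1 := ⟨L - 1, by omega⟩
  have hadj := all_adj hW hL hper hB
  have hdist := walk_distinct hW M (fun n _ => (hadj n).ne.symm) (fun r hr hrM heq =>
    hmin r (by omega) ⟨hr, heq⟩)
  obtain ⟨c, e, z, Φ, hz, hΦ, hz1, hΦ1, hz2, hΦ2, hp0, hp1⟩ := band_pencil hW hL hper hB
  -- the last edge
  have hWM : W M = (p', true) := by
    have := hper (-1)
    have e1 : (-1 : ℤ) + ((M + 1 : ℕ) : ℤ) = M := by push_cast; ring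
    rw [e1, hWm] at this
    exact this
  have hWM1 : W (M + 1) = (p'', false) := by
    push_cast at hWL
    rw [hWL, hW0]
  have hEM : S.Edge (W M).2 (W M).1.1 (W (M + 1)).1.1 := by
    rw [hWM, hWM1]
    exact hE
  have hzM : ∀ j, S.op (W M).2 (z j M) = z j ((M + 1 : ℕ) : ℤ) := by
    intro j
    push_cast
    exact ((hz j) M).2.1 hEM
  have hΦM : ∀ i v, Φ i ((M + 1 : ℕ) : ℤ) (S.op (W M).2 v) = Φ i M v := by
    intro i v
    push_cast
    exact ((hΦ i) M).2.1 hEM v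
  refine assemble hind hW M (e + 1) (Nat.succ_pos e) c z hz Φ hΦ hdist
    (fun n _ => hadj n) hp0 hp1 (hz2 _ (le_refl _)) ?_ ?_ ?_ ?_
  · intro j
    have h1 := ((hz j) (-1)).2.1
    have e1 : (-1 : ℤ) + 1 = 0 := by norm_num
    rw [e1, hWm, hW0] at h1
    have h2 := h1 hE
    rw [hW0, ← h2]
    exact S.sq _ _
  · intro j
    right
    rw [hzM, ← hz1]
    abel
  · intro i hi
    have hΦ0 : Φ i 0 = c • Φ i ((M + 1 : ℕ) : ℤ) + Φ (i + 1) ((M + 1 : ℕ) : ℤ) := by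
      rw [← hΦ1]
      abel
    have h1 : Φ i 0 ∘ₗ S.op (!(W 0).2) = c • Φ i M + Φ (i + 1) M := by
      apply LinearMap.ext
      intro v
      have h2 := hΦM i v
      have h3 := hΦM (i + 1) v
      rw [hWM] at h2 h3
      rw [LinearMap.comp_apply, hΦ0, hW0]
      simp only [Bool.not_false, LinearMap.add_apply, LinearMap.smul_apply]
      rw [h2, h3]
    rw [h1]
    apply Submodule.add_mem
    · apply Submodule.smul_mem
      apply Submodule.subset_span
      exact ⟨(⟨M, Nat.lt_succ_self M⟩, ⟨i, hi⟩), rfl⟩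
    · rcases Nat.lt_or_ge (i + 1) (e + 1) with h | h
      · apply Submodule.subset_span
        exact ⟨(⟨M, Nat.lt_succ_self M⟩, ⟨i + 1, h⟩), rfl⟩
      · rw [hΦ2 _ h]
        exact Submodule.zero_mem _
  · intro i
    apply LinearMap.ext
    intro v
    rw [LinearMap.comp_apply, ← hΦM, S.sq, map_zero]
    rfl

/-- Classification theorem: an indecomposable system has a nice basis. -/
theorem hasNice [IsAlgClosed k] [Nontrivial V] (hind : S.Indec) : S.HasNice := by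
  by_cases hB : ∀ (b : Bool) (p : S.P), ∃ q, Adj b p q
  · exact caseB hind hB
  · push Not at hB
    obtain ⟨b, p, hno⟩ := hB
    exact caseA hind b p (fun ⟨q, hq⟩ => hno q hq)

end Sys

end Pool.Agent.Lib.MP_868e2f_al
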