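import Pool.Agent.Lib.MP_868e2f_al.Assemble

/-! String case: some vertex has a missing edge. -/

namespace Pool.Agent.Lib.MP_868e2f_al

set_option linter.unusedSectionVars false

namespace Sys

variable {k V κ : Type*} [Field k] [AddCommGroup V] [Module k V] [Fintype κ]
variable {S : Sys k V κ} [FiniteDimensional k V]

theorem IsWalk.letter_even {W : ℤ → S.P × Bool} (h : IsWalk W) (i : ℤ) (m : ℕ) :
    (W (i + 2 * m)).2 = (W i).2 := by
  induction m with
  | zero =>
    have e : i + 2 * ((0 : ℕ) : ℤ) = i := by push_cast; ring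
    rw [e]
  | succ m ihm =>
    have e1 : i + 2 * ((m + 1 : ℕ) : ℤ) = (i + 2 * (m : ℤ)) + 1 + 1 := by push_cast; ring
    rw [e1, h.letter, h.letter, Bool.not_not, ihm]

theorem walk_distinct {W : ℤ → S.P × Bool} (hW : IsWalk W) (M : ℕ)
    (hnb : ∀ n : ℕ, n < M → (W (n + 1)).1 ≠ (W n).1) (hev : ∀ r : ℕ, 0 < r → r ≤ M → W r ≠ W 0) :
    ∀ m n : ℕ, m ≤ M → n ≤ M → (W m).1 = (W n).1 → m = n := by
  have key : ∀ m n : ℕ, m < n → n ≤ M → (W m).1 ≠ (W n).1 := by
    intro m n hmn hn heq
    rcases Nat.even_or_odd' (n - m) with ⟨d, hd | hd⟩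
    · have e1 : (n : ℤ) = (m : ℤ) + 2 * (d : ℤ) := by omega
      have h1 : W n = W m := by
        apply Prod.ext
        · exact heq.symm
        · rw [e1]; exact hW.letter_even _ _
      rw [← hW.iterate, ← hW.iterate] at h1
      have h2 : n = m + (n - m) := by omega
      rw [h2, Function.iterate_add_apply] at h1
      have h3 := ((step S).injective.iterate m) h1
      rw [hW.iterate] at h3
      exact hev (n - m) (by omega) (by omega) h3
    · have e1 : (n : ℤ) = (m : ℤ) + 2 * (d : ℤ) + 1 := by omega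
      apply hW.ne_of_odd d m _ (by rw [← e1]; exact heq)
      intro i hi1 hi2
      obtain ⟨j, rfl⟩ := Int.eq_ofNat_of_zero_le (show (0 : ℤ) ≤ i by omega)
      exact hnb j (by omega)
  intro m n hm hn heq
  rcases lt_trichotomy m n with h | h | h
  · exact absurd heq (key m n h hn)
  · exact h
  · exact absurd heq.symm (key n m h hm)

/-- the walk through a point -/
noncomputable def walkOf (x : S.P × Bool) : ℤ → S.P × Bool :=
  fun n => ((step S) ^ n : Equiv.Perm (S.P × Bool)) x

theorem walkOf_isWalk (x : S.P × Bool) : IsWalk (walkOf x) := by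
  intro n
  unfold walkOf
  rw [add_comm, zpow_one_add]
  rfl

theorem walkOf_zero (x : S.P × Bool) : walkOf x 0 = x := by
  unfold walkOf
  rw [zpow_zero]
  rfl

theorem exists_period (x : S.P × Bool) : ∃ N : ℕ, 0 < N ∧ walkOf x N = x := by
  refine ⟨orderOf (step S), orderOf_pos _, ?_⟩
  unfold walkOf
  rw [zpow_natCast, pow_orderOf_eq_one]
  rfl

/-- missing edge: vectors -/
theorem noedge_U {b : Bool} {p : S.P} (h : ¬ ∃ q, Adj b p q) {u : V} (hu : u ∈ S.U p.1) :
    S.op b u = 0 := by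
  have h1 : p.1.Z b ≤ LinearMap.ker (S.op b) := by
    have hk : S.Ch b (LinearMap.ker (S.op b)) := by
      have := Ch.comap b ⊥ (Ch.bot (S := S) (!b))
      rwa [Submodule.comap_bot] at this
    rcases (p.2.1 b).total _ hk with h2 | h2
    · exact h2
    · by_contra hcon
      obtain ⟨q, hq, hE⟩ := exists_target (b := b) p.2
        (lt_of_le_of_ne h2 (fun he => hcon (he ▸ le_refl _)))
      exact h ⟨⟨q, hq⟩, Or.inl hE⟩
  exact h1 ((mem_U.mp hu).1 b)

/-- missing edge: functionals -/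
theorem noedge_D {b : Bool} {p : S.P} (h : ¬ ∃ q, Adj b p q) {φ : Module.Dual k V}
    (hφ : φ ∈ S.D p.1) : φ ∘ₗ S.op b = 0 := by
  have h1 : LinearMap.range (S.op b) < p.1.Z b := by
    have hk : S.Ch b (LinearMap.range (S.op b)) := by
      have := Ch.map b ⊤ (Ch.top (S := S) (!b))
      rwa [Submodule.map_top] at this
    have h3 : ¬ p.1.Z b ≤ LinearMap.range (S.op b) := by
      intro hle
      obtain ⟨q, hq, hE⟩ := exists_source (b := b) p.2 hle
      exact h ⟨⟨q, hq⟩, Or.inr hE⟩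
    rcases (p.2.1 b).total _ hk with h2 | h2
    · exact absurd h2 h3
    · exact lt_of_le_of_ne h2 (fun he => h3 (he ▸ le_refl _))
  have hk : S.Ch b (LinearMap.range (S.op b)) := by
    have := Ch.map b ⊤ (Ch.top (S := S) (!b))
    rwa [Submodule.map_top] at this
  apply LinearMap.ext
  intro w
  rw [LinearMap.comp_apply]
  apply hφ.1
  rw [M_eq p.1 b]
  exact Submodule.mem_sup_left (le_pd hk h1 ⟨w, rfl⟩)

theorem exists_func_one (p : S.P) : ∃ u ∈ S.U p.1, ∃ φ ∈ S.D p.1, φ u = 1 := by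
  obtain ⟨u, hu, hM⟩ := p.2.2
  obtain ⟨ψ, hψ1, hψ2⟩ := exists_dual_one (S.M p.1) u hM
  refine ⟨u, hu, ψ ∘ₗ S.e p.1.c, ⟨fun m hm => hψ2 _ (M_stable _ _ hm), fun v => ?_⟩, ?_⟩
  · rw [LinearMap.comp_apply, LinearMap.comp_apply, S.e_idem]
  · rw [LinearMap.comp_apply, (mem_U.mp hu).2, hψ1]

theorem caseA (hind : S.Indec) (b : Bool) (p : S.P) (hno : ¬ ∃ q, Adj b p q) : S.HasNice := by
  set W := walkOf (S := S) (p, !b) with hWdef
  have hW : IsWalk W := walkOf_isWalk _
  have hW0 : W 0 = (p, !b) := walkOf_zero _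
  have hback : ∀ r : ℤ, W (r + 1) = (p, !b) → (W r).1 = p := by
    intro r hr
    have h1 := hW.vert' r
    have h2 := hW.letter r
    rw [hr] at h1 h2
    have h3 : (W r).2 = b := by
      change (!b) = !(W r).2 at h2
      revert h2
      cases b <;> cases (W r).2 <;> simp
    rw [h3] at h1
    rw [h1]
    exact sg_none hno
  have hex : ∃ n : ℕ, (W (n + 1)).1 = (W n).1 := by
    obtain ⟨N, hN, hN'⟩ := exists_period (S := S) (p, !b)
    obtain ⟨N, rfl⟩ : ∃ m, N = m + 1 := ⟨N - 1, by omega⟩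
    refine ⟨N, ?_⟩
    push_cast at hN'
    rw [← hWdef] at hN'
    rw [hback N hN', hN']
  classical
  obtain ⟨M, hM, hmin⟩ : ∃ M : ℕ, (W (M + 1)).1 = (W M).1 ∧
      ∀ n : ℕ, n < M → (W (n + 1)).1 ≠ (W n).1 :=
    ⟨Nat.find hex, Nat.find_spec hex, fun n hn => Nat.find_min hex hn⟩
  have hdist := walk_distinct hW M hmin (by
    intro r hr hrM heq
    obtain ⟨s, rfl⟩ : ∃ s, r = s + 1 := ⟨r - 1, by omega⟩
    push_cast at heq
    rw [hW0] at heq
    apply hmin s (by omega)
    rw [hback s heq, heq])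
  obtain ⟨u, hu, φ, hφ, hφu⟩ := exists_func_one p
  obtain ⟨z, hz, hz0⟩ := exists_ZS hW (u := u) (by rw [hW0]; exact hu)
  obtain ⟨Φ, hΦ, hΦ0⟩ := exists_ZD hW (u := φ) (by rw [hW0]; exact hφ)
  have hnoM : ¬ ∃ q, Adj (W M).2 (W M).1 q := by
    apply sg_self
    rw [← hW.vert]
    exact hM
  refine assemble hind hW M 1 one_pos 0 (fun j => if j = 0 then z else 0) (fun j => ?_)
    (fun i => if i = 0 then Φ else 0) (fun i => ?_) hdist ?_ ?_ ?_ rfl ?_ ?_ ?_ ?_
  · by_cases h : j = 0
    · rw [if_pos h]; exact hz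
    · rw [if_neg h]; exact Submodule.zero_mem _
  · by_cases h : i = 0
    · rw [if_pos h]; exact hΦ
    · rw [if_neg h]; exact Submodule.zero_mem _
  · intro n hn
    have h1 := hmin n hn
    rw [hW.vert] at h1 ⊢
    exact adj_of_sg_ne h1
  · intro i j hij
    by_cases hi : i = 0
    · have hj : j ≠ 0 := by omega
      rw [if_neg hj]
      simp
    · rw [if_neg hi]
      simp
  · intro i j hij
    have hi : i = 0 := by omega
    have hj : j = 0 := by omega
    rw [if_pos hi, if_pos hj, hz0, hΦ0, hφu]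
    exact one_ne_zero
  · intro j
    by_cases hj : j = 0
    · rw [if_pos hj, hz0, hW0]
      simp only [Bool.not_not]
      exact noedge_U hno hu
    · rw [if_neg hj]
      simp
  · intro j
    left
    by_cases hj : j = 0
    · rw [if_pos hj]
      exact noedge_U hnoM (hz M).1
    · rw [if_neg hj]
      simp
  · intro i hi
    have hi0 : i = 0 := by omega
    rw [if_pos hi0, hΦ0, hW0]
    simp only [Bool.not_not]
    rw [noedge_D hno hφ]
    exact Submodule.zero_mem _
  · intro i
    by_cases hi : i = 0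
    · rw [if_pos hi]
      exact noedge_D hnoM (hΦ M).1
    · rw [if_neg hi]
      simp

end Sys

end Pool.Agent.Lib.MP_868e2f_al
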