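import Pool.Agent.Lib.MP_868e2f_al.CaseA

/-! Band case: all vertices have both edges. -/

namespace Pool.Agent.Lib.MP_868e2f_al

set_option linter.unusedSectionVars false

namespace Sys

variable {k V κ : Type*} [Field k] [AddCommGroup V] [Module k V] [Fintype κ]
variable {S : Sys k V κ} [FiniteDimensional k V]

theorem walkOf_per {x : S.P × Bool} {L : ℕ} (h : walkOf x L = x) :
    ∀ n, walkOf x (n + L) = walkOf x n := by
  intro n
  unfold walkOf at h ⊢
  rw [zpow_add, Equiv.Perm.mul_apply, h]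

section Solve

variable {W : ℤ → S.P × Bool} (hW : IsWalk W) {L : ℕ} (hL : 0 < L)
  (hper : ∀ n, W (n + L) = W n) (hB : ∀ (b : Bool) (p : S.P), ∃ q, Adj b p q)

include hW hL hper hB

theorem all_adj : ∀ n, Adj (W n).2 (W n).1 (W (n + 1)).1 := by
  intro n
  rw [hW.vert]
  exact sg_adj (hB _ _)

theorem W_L : W (L : ℤ) = W 0 := by
  have := hper 0
  rwa [zero_add] at this

theorem W_negL : W (-(L : ℤ)) = W 0 := by
  have := hper (-(L : ℤ))
  rw [neg_add_cancel] at this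
  exact this.symm

theorem solve_vec {c : k} (hc : c ≠ 0) {u : V} (hu : u ∈ S.U (W 0).1.1)
    (hM : u ∈ S.M (W 0).1.1) :
    ∃ r ∈ ZS W, r 0 ∈ S.M (W 0).1.1 ∧ r L - c • r 0 = u := by
  have hadj := all_adj hW hL hper hB
  have hWL := W_L hW hL hper hB
  have hWnL := W_negL hW hL hper hB
  have hs : ∀ z ∈ ZS W, (fun n => z (n + L)) ∈ ZS W := fun z hz => ZS_shift hper hz
  have hs' : ∀ z ∈ ZS W, (fun n => z (n - L)) ∈ ZS W := fun z hz => by
    have := ZS_shift (per_neg hper) hz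
    simpa only [sub_eq_add_neg] using this
  have hA : ∀ z ∈ ZS W, z 0 ∈ S.M (W 0).1.1 → z L ∈ S.M (W 0).1.1 := by
    intro z hz h0
    have := (ZS_M_nat hadj hz 0 L).mp h0
    rwa [zero_add, hWL] at this
  have hA' : ∀ z ∈ ZS W, z 0 ∈ S.M (W 0).1.1 → z (-(L : ℤ)) ∈ S.M (W 0).1.1 := by
    intro z hz h0
    have := (ZS_M_nat hadj hz (-(L : ℤ)) L).mpr (by rw [neg_add_cancel]; exact h0)
    rwa [hWnL] at this
  have hle : ∀ N : ℕ, N ≤ N * L := fun N => Nat.le_mul_of_pos_right N hL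
  obtain ⟨u1, hu1, u2, hu2, h1, h2, h12⟩ := U_split (W 0).1.2.1 hu hM (W 0).2
  -- forward part
  obtain ⟨r1, hr1, hr1', hr1''⟩ : ∃ r ∈ ZS W, r 0 ∈ S.M (W 0).1.1 ∧ r L - c • r 0 = u1 := by
    obtain ⟨a, ha0, ha, N, hN⟩ := exists_dying hB (pd_ch _) (W 0) rfl
      (pd_spec (S := S) (b := (W 0).2) ((W 0).1.2.ne_bot _)).2 u1 hu1 h1
    obtain ⟨z, hz, hz'⟩ := exists_ZS_of_seq hW ha
    have hz0 : z 0 = u1 := by
      have := hz' 0
      rw [ha0] at this
      exact this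
    have := shift_solve_pos (ZS W) L hs _ hA c hc N z hz
      (by rw [hz0, M_eq _ (W 0).2]; exact Submodule.mem_sup_left h1)
      (by
        have := hz' (N * L)
        rw [hN _ (hle N)] at this
        push_cast at this
        exact this)
    rwa [hz0] at this
  -- backward part
  obtain ⟨r2, hr2, hr2', hr2''⟩ : ∃ r ∈ ZS W, r 0 ∈ S.M (W 0).1.1 ∧ r L - c • r 0 = u2 := by
    have hrev : rev W 0 = ((W 0).1, !(W 0).2) := by
      unfold rev
      rw [neg_zero]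
    obtain ⟨a, ha0, ha, N, hN⟩ := exists_dying hB (pd_ch _) (rev W 0) (by rw [hrev])
      (b := !(W 0).2) (A := S.pd (!(W 0).2) ((W 0).1.1.Z (!(W 0).2)))
      (by
        rw [hrev]
        exact (pd_spec (S := S) (b := !(W 0).2) ((W 0).1.2.ne_bot _)).2) u2
      (by rw [hrev]; exact hu2) h2
    obtain ⟨z, hz, hz'⟩ := exists_ZS_of_rev hW ha
    have hz0 : z 0 = u2 := by
      have := hz' 0
      rw [ha0] at this
      simpa using this
    have := shift_solve_neg (ZS W) L hs' _ hA' c N z hz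
      (by rw [hz0, M_eq _ (W 0).2]; exact Submodule.mem_sup_right h2)
      (by
        have := hz' (N * L)
        rw [hN _ (hle N)] at this
        push_cast at this
        exact this)
    rwa [hz0] at this
  refine ⟨r1 + r2, Submodule.add_mem _ hr1 hr2, Submodule.add_mem _ hr1' hr2', ?_⟩
  rw [Pi.add_apply, Pi.add_apply, ← h12, ← hr1'', ← hr2'', smul_add]
  abel

theorem solve_dual {c : k} (hc : c ≠ 0) {φ : Module.Dual k V} (hφ : φ ∈ S.D (W 0).1.1)
    (h0 : ∀ u ∈ S.U (W 0).1.1, φ u = 0) :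
    ∃ r ∈ ZD W, (∀ u ∈ S.U (W 0).1.1, r L u = 0) ∧ r 0 - c • r L = φ := by
  have hadj := all_adj hW hL hper hB
  have hWL := W_L hW hL hper hB
  have hWnL := W_negL hW hL hper hB
  have hs : ∀ z ∈ ZD W, (fun n => z (n + L)) ∈ ZD W := fun z hz => ZD_shift hper hz
  have hs' : ∀ z ∈ ZD W, (fun n => z (n - L)) ∈ ZD W := fun z hz => by
    have := ZD_shift (per_neg hper) hz
    simpa only [sub_eq_add_neg] using this
  have hK : ∀ φ : Module.Dual k V, φ ∈ (S.U (W 0).1.1).dualAnnihilator ↔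
      ∀ u ∈ S.U (W 0).1.1, φ u = 0 := fun φ => Submodule.mem_dualAnnihilator φ
  have hA : ∀ z ∈ ZD W, z 0 ∈ (S.U (W 0).1.1).dualAnnihilator →
      z L ∈ (S.U (W 0).1.1).dualAnnihilator := by
    intro z hz h0
    rw [hK] at h0 ⊢
    have := (ZD_kill_nat hadj hz 0 L).mp h0
    rwa [zero_add, hWL] at this
  have hA' : ∀ z ∈ ZD W, z 0 ∈ (S.U (W 0).1.1).dualAnnihilator →
      z (-(L : ℤ)) ∈ (S.U (W 0).1.1).dualAnnihilator := by
    intro z hz h0
    rw [hK] at h0 ⊢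
    have := (ZD_kill_nat hadj hz (-(L : ℤ)) L).mpr (by rw [neg_add_cancel]; exact h0)
    rwa [hWnL] at this
  have hle : ∀ N : ℕ, N ≤ N * L := fun N => Nat.le_mul_of_pos_right N hL
  have hci : c⁻¹ ≠ 0 := inv_ne_zero hc
  -- conversion
  have conv : ∀ (r : ℤ → Module.Dual k V) (ξ : Module.Dual k V),
      r L - c⁻¹ • r 0 = -(c⁻¹) • ξ → r 0 - c • r L = ξ := by
    intro r ξ h
    have h1 := congrArg (fun y => -(c • y)) h
    simp only [smul_sub, smul_smul, mul_inv_cancel₀ hc, one_smul, neg_smul, mul_neg, neg_neg,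
      neg_sub] at h1
    exact h1
  obtain ⟨φ1, hφ1, φ2, hφ2, h1, h2, h12⟩ := D_split (W 0).1.2.1 hφ h0 (W 0).2
  obtain ⟨r1, hr1, hr1', hr1''⟩ : ∃ r ∈ ZD W, (∀ u ∈ S.U (W 0).1.1, r L u = 0) ∧
      r 0 - c • r L = φ1 := by
    obtain ⟨a, ha0, ha, N, hN⟩ := exists_dyingD hB ((W 0).1.2.1 (W 0).2) (W 0) rfl (le_refl _)
      φ1 hφ1 h1
    obtain ⟨z, hz, hz'⟩ := exists_ZD_of_seq hW ha
    have hz0 : z 0 = φ1 := by
      have := hz' 0
      rw [ha0] at this
      exact this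
    have hzK : z 0 ∈ (S.U (W 0).1.1).dualAnnihilator := by
      rw [hK, hz0]
      intro u hu
      exact h1 u ((mem_U.mp hu).1 _)
    obtain ⟨r, hr, hr0, hrL⟩ := shift_solve_pos (ZD W) L hs _ hA c⁻¹ hci N (-(c⁻¹) • z)
      (Submodule.smul_mem _ _ hz) (Submodule.smul_mem _ _ hzK)
      (by
        have := hz' (N * L)
        rw [hN _ (hle N)] at this
        push_cast at this
        rw [Pi.smul_apply, this, smul_zero])
    refine ⟨r, hr, (hK _).mp (hA r hr hr0), conv r φ1 ?_⟩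
    rw [hrL, Pi.smul_apply, hz0]
  obtain ⟨r2, hr2, hr2', hr2''⟩ : ∃ r ∈ ZD W, (∀ u ∈ S.U (W 0).1.1, r L u = 0) ∧
      r 0 - c • r L = φ2 := by
    have hrev : rev W 0 = ((W 0).1, !(W 0).2) := by
      unfold rev
      rw [neg_zero]
    obtain ⟨a, ha0, ha, N, hN⟩ := exists_dyingD hB ((W 0).1.2.1 (!(W 0).2)) (rev W 0)
      (by rw [hrev]) (by rw [hrev]) φ2 (by rw [hrev]; exact hφ2) h2
    obtain ⟨z, hz, hz'⟩ := exists_ZD_of_rev hW ha
    have hz0 : z 0 = φ2 := by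
      have := hz' 0
      rw [ha0] at this
      simpa using this
    have hzK : z 0 ∈ (S.U (W 0).1.1).dualAnnihilator := by
      rw [hK, hz0]
      intro u hu
      exact h2 u ((mem_U.mp hu).1 _)
    obtain ⟨r, hr, hr0, hrL⟩ := shift_solve_neg (ZD W) L hs' _ hA' c⁻¹ N (-(c⁻¹) • z)
      (Submodule.smul_mem _ _ hz) (Submodule.smul_mem _ _ hzK)
      (by
        have := hz' (N * L)
        rw [hN _ (hle N)] at this
        push_cast at this
        rw [Pi.smul_apply, this, smul_zero])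
    refine ⟨r, hr, (hK _).mp (hA r hr hr0), conv r φ2 ?_⟩
    rw [hrL, Pi.smul_apply, hz0]
  refine ⟨r1 + r2, Submodule.add_mem _ hr1 hr2, fun u hu => ?_, ?_⟩
  · rw [Pi.add_apply, LinearMap.add_apply, hr1' u hu, hr2' u hu, add_zero]
  · rw [Pi.add_apply, Pi.add_apply, ← h12, ← hr1'', ← hr2'', smul_add]
    abel

end Solve

end Sys

end Pool.Agent.Lib.MP_868e2f_al
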