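import Pool.Agent.Lib.MP_868e2f_al.Walk

/-! Compatible sequences along walks; sequences which die out. -/

namespace Pool.Agent.Lib.MP_868e2f_al

set_option linter.unusedSectionVars false

/-- prepend an element to a sequence -/
def consSeq {E : Type*} (u : E) (a : ℕ → E) : ℕ → E
  | 0 => u
  | n + 1 => a n

namespace Sys

variable {k V κ : Type*} [Field k] [AddCommGroup V] [Module k V] [Fintype κ] {S : Sys k V κ}
variable [FiniteDimensional k V]

/-- a compatible sequence of vectors along the forward walk starting at `x` -/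
def Seq (x : S.P × Bool) (a : ℕ → V) : Prop :=
  ∀ n : ℕ, a n ∈ S.U ((step S)^[n] x).1.1 ∧
    Cmp ((step S)^[n] x).2 ((step S)^[n] x).1 ((step S)^[n + 1] x).1 (a n) (a (n + 1))

/-- a compatible sequence of functionals along the forward walk starting at `x` -/
def SeqD (x : S.P × Bool) (a : ℕ → Module.Dual k V) : Prop :=
  ∀ n : ℕ, a n ∈ S.D ((step S)^[n] x).1.1 ∧
    CmpD ((step S)^[n] x).2 ((step S)^[n] x).1 ((step S)^[n + 1] x).1 (a n) (a (n + 1))

theorem Seq.cons {x : S.P × Bool} {u : V} {a : ℕ → V} (ha : Seq (step S x) a)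
    (hu : u ∈ S.U x.1.1) (hc : Cmp x.2 x.1 (step S x).1 u (a 0)) : Seq x (consSeq u a) := by
  intro n
  cases n with
  | zero => exact ⟨hu, hc⟩
  | succ n => exact ha n

theorem SeqD.cons {x : S.P × Bool} {u : Module.Dual k V} {a : ℕ → Module.Dual k V}
    (ha : SeqD (step S x) a)
    (hu : u ∈ S.D x.1.1) (hc : CmpD x.2 x.1 (step S x).1 u (a 0)) : SeqD x (consSeq u a) := by
  intro n
  cases n with
  | zero => exact ⟨hu, hc⟩
  | succ n => exact ha n

theorem Seq.zero (x : S.P × Bool) : Seq x (fun _ => (0 : V)) :=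
  fun _ => ⟨Submodule.zero_mem _, fun _ => map_zero _, fun _ => map_zero _⟩

theorem SeqD.zero (x : S.P × Bool) : SeqD x (fun _ => (0 : Module.Dual k V)) :=
  fun _ => ⟨Submodule.zero_mem _, fun _ _ => rfl, fun _ _ => rfl⟩

/-- Vectors in a smaller member of the chain die out along the walk. -/
theorem exists_dying (hB : ∀ (b : Bool) (p : S.P), ∃ q, Adj b p q) {b : Bool}
    {A : Submodule k V} (hA : S.Ch b A) : ∀ (x : S.P × Bool), x.2 = b → A < x.1.1.Z b →
      ∀ u ∈ S.U x.1.1, u ∈ A → ∃ a : ℕ → V, a 0 = u ∧ Seq x a ∧ ∃ N, ∀ n ≥ N, a n = 0 := by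
  induction hA with
  | bot b =>
    intro x _ _ u _ hu
    rw [Submodule.mem_bot] at hu
    exact ⟨fun _ => 0, hu.symm, Seq.zero x, 0, fun _ _ => rfl⟩
  | top b => intro x _ h; exact absurd h (not_lt_of_ge le_top)
  | map b A' hA' ih =>
    rintro ⟨p, b'⟩ hb' hlt u hu huA
    change b' = b at hb'
    subst hb'
    have hadj := sg_adj (hB b' p)
    rcases hadj with h1 | h1
    · -- source: `op u = 0`
      have h0 : S.op b' u = 0 := by
        obtain ⟨w, _, rfl⟩ := huA
        exact S.sq _ _
      refine ⟨consSeq u (fun _ => 0), rfl, Seq.cons (Seq.zero _) hu ?_, 1, ?_⟩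
      · exact ⟨fun _ => h0, fun h2 => (h1.not_both p.2 h2).elim⟩
      · intro n hn
        cases n with
        | zero => omega
        | succ n => rfl
    · -- target
      obtain ⟨v, hv, hvu⟩ := h1.exists_preimage (sg b' p).2.1 hu
      obtain ⟨w, hw, hwu⟩ := huA
      -- replace `v` by the colour component of `w`
      have hcw : S.op b' (S.e (sg b' p).1.c w) = u := by
        rw [S.op_e, hwu, ← h1.cc, (mem_U.mp hu).2]
      have hA'lt : A' < (sg b' p).1.Z (!b') := by
        rcases hA'.total _ ((sg b' p).2.1 (!b')) with h3 | h3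
        · refine lt_of_le_of_ne h3 ?_
          rintro rfl
          rw [h1.zq] at hlt
          exact lt_irrefl _ hlt
        · exfalso
          rw [h1.zq] at hlt
          exact lt_irrefl _ (lt_of_lt_of_le hlt (Submodule.map_mono h3))
      have hmem : S.e (sg b' p).1.c w ∈ S.U (sg b' p).1 := by
        rw [mem_U]
        refine ⟨fun b'' => ?_, S.e_idem _ _⟩
        by_cases hb : b'' = b'
        · subst hb
          rw [h1.zp, Submodule.mem_comap, hcw]
          exact (mem_U.mp hu).1 _
        · have hb' : b'' = !b' := by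
            cases b' <;> cases b'' <;> simp_all
          subst hb'
          exact hA'lt.le (hA'.stable _ _ hw)
      obtain ⟨a, ha0, ha, N, hN⟩ := ih (step S (p, b')) rfl hA'lt _ hmem (hA'.stable _ _ hw)
      refine ⟨consSeq u a, rfl, ha.cons hu ?_, N + 1, ?_⟩
      · rw [ha0]
        exact ⟨fun h2 => (h2.not_both p.2 h1).elim, fun _ => hcw⟩
      · intro n hn
        cases n with
        | zero => omega
        | succ n => exact hN n (by omega)
  | comap b A' hA' ih =>
    rintro ⟨p, b'⟩ hb' hlt u hu huA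
    change b' = b at hb'
    subst hb'
    have hadj := sg_adj (hB b' p)
    rcases hadj with h1 | h1
    · have hA'lt : A' < (sg b' p).1.Z (!b') := by
        rcases hA'.total _ ((sg b' p).2.1 (!b')) with h3 | h3
        · refine lt_of_le_of_ne h3 ?_
          rintro rfl
          rw [h1.zp] at hlt
          exact lt_irrefl _ hlt
        · exfalso
          rw [h1.zp] at hlt
          exact lt_irrefl _ (lt_of_lt_of_le hlt (Submodule.comap_mono h3))
      obtain ⟨a, ha0, ha, N, hN⟩ := ih (step S (p, b')) rfl hA'lt _ (h1.op_mem hu) huA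
      refine ⟨consSeq u a, rfl, ha.cons hu ?_, N + 1, ?_⟩
      · rw [ha0]
        exact ⟨fun _ => rfl, fun h2 => (h1.not_both p.2 h2).elim⟩
      · intro n hn
        cases n with
        | zero => omega
        | succ n => exact hN n (by omega)
    · exfalso
      have h2 : p.1.Z b' ≤ A'.comap (S.op b') :=
        h1.le_range.trans ((S.range_le_ker b').trans (S.ker_le_comap b' A'))
      exact lt_irrefl _ (lt_of_lt_of_le hlt h2)

/-- Functionals killing a larger member of the chain die out along the walk. -/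
theorem exists_dyingD (hB : ∀ (b : Bool) (p : S.P), ∃ q, Adj b p q) {b : Bool}
    {A : Submodule k V} (hA : S.Ch b A) : ∀ (x : S.P × Bool), x.2 = b → x.1.1.Z b ≤ A →
      ∀ φ ∈ S.D x.1.1, (∀ z ∈ A, φ z = 0) →
        ∃ a : ℕ → Module.Dual k V, a 0 = φ ∧ SeqD x a ∧ ∃ N, ∀ n ≥ N, a n = 0 := by
  induction hA with
  | bot b =>
    intro x _ h
    exact absurd (le_bot_iff.mp h) (x.1.2.ne_bot b)
  | top b =>
    intro x _ _ φ _ hφ
    have h0 : φ = 0 := LinearMap.ext fun v => hφ v trivial
    exact ⟨fun _ => 0, h0.symm, SeqD.zero x, 0, fun _ _ => rfl⟩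
  | map b A' hA' ih =>
    rintro ⟨p, b'⟩ hb' hle φ hφ hφA
    change b' = b at hb'
    subst hb'
    change p.1.Z b' ≤ A'.map (S.op b') at hle
    have hadj := sg_adj (hB b' p)
    rcases hadj with h1 | h1
    · exfalso
      have h2 := h1.ker_lt p.2
      exact lt_irrefl _ (lt_of_lt_of_le h2 (hle.trans ((S.map_le_range b' A').trans
        (S.range_le_ker b'))))
    · have hle' : (sg b' p).1.Z (!b') ≤ A' := by
        rcases hA'.total _ ((sg b' p).2.1 (!b')) with h3 | h3
        · by_contra hcon
          have h4 : A' < (sg b' p).1.Z (!b') := lt_of_le_of_ne h3 (fun he => hcon (he ▸ le_refl _))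
          have h5 : p.1.Z b' ≤ S.pd b' (p.1.Z b') := by
            rw [h1.pq]
            exact hle.trans (Submodule.map_mono (le_pd hA' h4))
          exact lt_irrefl _ (lt_of_le_of_lt h5 (pd_spec (S := S) (b := b') (p.2.ne_bot b')).2)
        · exact h3
      obtain ⟨a, ha0, ha, N, hN⟩ := ih (step S (p, b')) rfl hle' _ (h1.comp_mem_D hφ)
        (fun z hz => hφA _ ⟨z, hz, rfl⟩)
      refine ⟨consSeq φ a, rfl, ha.cons hφ ?_, N + 1, ?_⟩
      · rw [ha0]
        exact ⟨fun h2 => (h2.not_both p.2 h1).elim, fun _ _ => rfl⟩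
      · intro n hn
        cases n with
        | zero => omega
        | succ n => exact hN n (by omega)
  | comap b A' hA' ih =>
    rintro ⟨p, b'⟩ hb' hle φ hφ hφA
    change b' = b at hb'
    subst hb'
    change p.1.Z b' ≤ A'.comap (S.op b') at hle
    have hadj := sg_adj (hB b' p)
    rcases hadj with h1 | h1
    · have hle' : (sg b' p).1.Z (!b') ≤ A' := by
        rcases hA'.total _ ((sg b' p).2.1 (!b')) with h3 | h3
        · by_contra hcon
          have h4 : A' < (sg b' p).1.Z (!b') := lt_of_le_of_ne h3 (fun he => hcon (he ▸ le_refl _))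
          have h5 : p.1.Z b' ≤ S.pd b' (p.1.Z b') := by
            rw [h1.pp]
            exact hle.trans (Submodule.comap_mono (le_pd hA' h4))
          exact lt_irrefl _ (lt_of_le_of_lt h5 (pd_spec (S := S) (b := b') (p.2.ne_bot b')).2)
        · exact h3
      obtain ⟨ψ, hψ1, hψ2, hψ3⟩ := h1.exists_func hφ.2 (S.pd b' ((sg b' p).1.Z b') ⊔ A')
        (fun v hv => by
          rw [Submodule.mem_sup] at hv
          obtain ⟨y, hy, z, hz, rfl⟩ := hv
          rw [map_add]
          exact Submodule.add_mem_sup ((pd_ch _).stable _ _ hy) (hA'.stable _ _ hz))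
        (fun v hv => by
          rw [Submodule.mem_sup] at hv
          obtain ⟨y, hy, z, hz, hyz⟩ := hv
          rw [h1.pq] at hy
          obtain ⟨y0, hy0, rfl⟩ := hy
          have h6 : v - y0 ∈ A'.comap (S.op b') := by
            rw [Submodule.mem_comap, map_sub, ← hyz, add_sub_cancel_left]
            exact hz
          have h7 := hφA _ h6
          have h8 : φ y0 = 0 := hφ.1 _ (by
            rw [M_eq p.1 b']; exact Submodule.mem_sup_right hy0)
          rw [map_sub, h8, sub_zero] at h7
          exact h7)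
      have hψD : ψ ∈ S.D (sg b' p).1 := by
        refine ⟨fun m hm => ?_, hψ3⟩
        rw [M_eq _ b', Submodule.mem_sup] at hm
        obtain ⟨y, hy, z, hz, rfl⟩ := hm
        apply hψ2
        exact Submodule.add_mem_sup hy (hle' (pd_le _ _ hz))
      obtain ⟨a, ha0, ha, N, hN⟩ := ih (step S (p, b')) rfl hle' _ hψD
        (fun z hz => hψ2 _ (Submodule.mem_sup_right hz))
      refine ⟨consSeq φ a, rfl, ha.cons hφ ?_, N + 1, ?_⟩
      · rw [ha0]
        exact ⟨fun _ => hψ1, fun h2 => (h1.not_both p.2 h2).elim⟩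
      · intro n hn
        cases n with
        | zero => omega
        | succ n => exact hN n (by omega)
    · -- target: `φ ∘ op = 0`
      refine ⟨consSeq φ (fun _ => 0), rfl, SeqD.cons (SeqD.zero _) hφ ?_, 1, ?_⟩
      · refine ⟨fun h2 => (h2.not_both p.2 h1).elim, fun _ v => ?_⟩
        apply hφA
        rw [Submodule.mem_comap, S.sq]
        exact Submodule.zero_mem _
      · intro n hn
        cases n with
        | zero => omega
        | succ n => rfl

end Sys

end Pool.Agent.Lib.MP_868e2f_al
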