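import Mathlib

/-!
Definitions used in the statement for MP_868e2f_al: finite-dimensional modules over a Hopf
algebra (as representations), their tensor product, thick tensor ideals of the stable module
category, the spectrum of prime ideals, and representation type.
-/

namespace Pool.Agent.Lib.MP_868e2f_al

universe u

open scoped TensorProduct

/-- A finite-dimensional left `H`-module, given as a finite-dimensional `k`-vector space `V`
together with a `k`-algebra homomorphism `act : H → End_k V`. -/
structure FinRep (k H : Type u) [Field k] [Ring H] [Algebra k H] where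
  V : Type u
  [grp : AddCommGroup V]
  [mod : Module k V]
  [fin : FiniteDimensional k V]
  act : H →ₐ[k] Module.End k V

attribute [instance] FinRep.grp FinRep.mod FinRep.fin

namespace FinRep

variable {k H : Type u} [Field k] [Ring H]

section Basic

variable [Algebra k H]

/-- A `k`-linear map which commutes with the action of `H`. -/
def IsHom (M N : FinRep k H) (f : M.V →ₗ[k] N.V) : Prop :=
  ∀ (a : H) (m : M.V), f (M.act a m) = N.act a (f m)

/-- Isomorphism of modules. -/
def Iso (M N : FinRep k H) : Prop :=
  ∃ f : M.V →ₗ[k] N.V, IsHom M N f ∧ Function.Bijective f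

/-- `M` is (isomorphic to) a direct summand of `N`. -/
def IsSummand (M N : FinRep k H) : Prop :=
  ∃ (i : M.V →ₗ[k] N.V) (r : N.V →ₗ[k] M.V), IsHom M N i ∧ IsHom N M r ∧ r ∘ₗ i = LinearMap.id

/-- There is a short exact sequence `0 → A → B → C → 0` of modules. -/
def ShortExact (A B C : FinRep k H) : Prop :=
  ∃ (i : A.V →ₗ[k] B.V) (p : B.V →ₗ[k] C.V), IsHom A B i ∧ IsHom B C p ∧
    Function.Injective i ∧ Function.Surjective p ∧ LinearMap.range i = LinearMap.ker p

/-- Projective objects in the category of finite-dimensional modules. -/
def IsProjective (P : FinRep k H) : Prop :=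
  ∀ (M N : FinRep k H) (p : M.V →ₗ[k] N.V) (f : P.V →ₗ[k] N.V), IsHom M N p →
    Function.Surjective p → IsHom P N f → ∃ g : P.V →ₗ[k] M.V, IsHom P M g ∧ p ∘ₗ g = f

/-- A submodule (as a subspace stable under `H`). -/
def IsStable (M : FinRep k H) (W : Submodule k M.V) : Prop :=
  ∀ (a : H), ∀ m ∈ W, M.act a m ∈ W

/-- Indecomposable modules: nonzero, and not the direct sum of two nonzero submodules. -/
def IsIndecomposable (M : FinRep k H) : Prop :=
  Nontrivial M.V ∧ ∀ A B : Submodule k M.V, M.IsStable A → M.IsStable B → IsCompl A B →
    A = ⊥ ∨ B = ⊥

end Basic

section Bialg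

variable [Bialgebra k H]

/-- The tensor product over `k` with `H` acting through the comultiplication. -/
noncomputable abbrev tensor (M N : FinRep k H) : FinRep k H where
  V := M.V ⊗[k] N.V
  act := ((Module.endTensorEndAlgHom (R := k) (S := k) (A := k) (M := M.V) (N := N.V)).comp
    (Algebra.TensorProduct.map M.act N.act)).comp (Bialgebra.comulAlgHom k H)

/-- The trivial module `k`, with `H` acting through the counit. -/
noncomputable abbrev unit (k H : Type u) [Field k] [Ring H] [Bialgebra k H] : FinRep k H where
  V := k
  act := (Algebra.lmul k k).comp (Bialgebra.counitAlgHom k H)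

end Bialg

end FinRep

open FinRep

section Spectrum

variable {k H : Type u} [Field k] [Ring H] [Bialgebra k H]

/-- Thick two-sided tensor ideals of the stable module category `stmod H`, described by
their classes of objects: classes of finite-dimensional modules which contain the projective
modules, and are closed under direct summands, two-out-of-three in short exact
sequences, and tensoring on both sides with arbitrary modules. -/
structure IsThickIdeal (I : FinRep k H → Prop) : Prop where
  proj : ∀ P, IsProjective P → I P
  summand : ∀ M N : FinRep k H, IsSummand M N → I N → I M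
  quot : ∀ A B C : FinRep k H, ShortExact A B C → I A → I B → I C
  ext : ∀ A B C : FinRep k H, ShortExact A B C → I A → I C → I B
  sub : ∀ A B C : FinRep k H, ShortExact A B C → I B → I C → I A
  tensor_left : ∀ M N : FinRep k H, I N → I (M.tensor N)
  tensor_right : ∀ M N : FinRep k H, I M → I (M.tensor N)

/-- Prime ideals of the stable module category. -/
structure IsPrimeIdeal (P : FinRep k H → Prop) : Prop where
  ideal : IsThickIdeal P
  proper : ∃ M, ¬ P M
  prime : ∀ A B : FinRep k H, (∀ C : FinRep k H, P ((A.tensor C).tensor B)) → P A ∨ P B

/-- The Balmer spectrum of the stable module category `stmod H`. -/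
def Spc (k H : Type u) [Field k] [Ring H] [Bialgebra k H] : Type (u + 1) :=
  {P : FinRep k H → Prop // IsPrimeIdeal P}

/-- The support of a module: the set of primes which do not contain it. -/
def supp (a : FinRep k H) : Set (Spc k H) := {P | ¬ P.1 a}

/-- The topology on the spectrum: the supports are a basis of closed sets. -/
instance : TopologicalSpace (Spc k H) :=
  TopologicalSpace.generateFrom {U | ∃ a : FinRep k H, U = (supp a)ᶜ}

end Spectrum

section RepType

variable (k H : Type u) [Field k] [Ring H] [Algebra k H]

/-- Finite representation type. -/
def IsRepFinite : Prop :=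
  ∃ L : List (FinRep k H), ∀ M : FinRep k H, M.IsIndecomposable → ∃ E ∈ L, Iso M E

variable {k H}

/-- The member at `c` of a one-parameter family of `d`-dimensional modules; a family is an
`H`-`k[X]`-bimodule which is free of rank `d` over `k[X]`, i.e. an algebra homomorphism from `H`
to the `d × d` matrices over `k[X]`. -/
noncomputable abbrev member {d : ℕ} (F : H →ₐ[k] Matrix (Fin d) (Fin d) (Polynomial k)) (c : k) :
    FinRep k H where
  V := Fin d → k
  act := ((Matrix.toLinAlgEquiv' (R := k) (n := Fin d)).toAlgHom.comp
    (AlgHom.mapMatrix (Polynomial.aeval c))).comp F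

variable (k H)

/-- Tame representation type: not representation-finite, and in each dimension `d`,
all but finitely many isoclasses of indecomposable modules fall into finitely many
one-parameter families. -/
def IsTame : Prop :=
  ¬ IsRepFinite k H ∧ ∀ d : ℕ,
    ∃ (fam : List (H →ₐ[k] Matrix (Fin d) (Fin d) (Polynomial k))) (exc : List (FinRep k H)),
      ∀ M : FinRep k H, M.IsIndecomposable → Module.finrank k M.V = d →
        (∃ E ∈ exc, Iso M E) ∨ ∃ F ∈ fam, ∃ c : k, Iso M (member F c)

end RepType

section ProjLine

attribute [local instance] MvPolynomial.gradedAlgebra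

/-- The projective line over `k`, generic point included: the homogeneous prime ideals of
`k[X₀, X₁]` not containing the irrelevant ideal (with the Zariski topology). -/
abbrev ProjLine (k : Type u) [Field k] : Type u :=
  ProjectiveSpectrum (MvPolynomial.homogeneousSubmodule (Fin 2) k)

end ProjLine

end Pool.Agent.Lib.MP_868e2f_al
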