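import Pool.Agent.Lib.MP_868e2f_al.Graph

/-! Functionals attached to vertices. -/

namespace Pool.Agent.Lib.MP_868e2f_al

section LinAlg

variable {k V W : Type*} [Field k] [AddCommGroup V] [Module k V] [AddCommGroup W] [Module k W]

theorem exists_dual_comp (f : V →ₗ[k] W) (φ : Module.Dual k V) (h : ∀ v, f v = 0 → φ v = 0) :
    ∃ ψ : Module.Dual k W, ∀ v, ψ (f v) = φ v := by
  have h1 : φ ∈ (LinearMap.ker f).dualAnnihilator := by
    rw [Submodule.mem_dualAnnihilator]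
    intro v hv
    exact h v hv
  rw [← LinearMap.range_dualMap_eq_dualAnnihilator_ker] at h1
  obtain ⟨ψ, hψ⟩ := h1
  exact ⟨ψ, fun v => LinearMap.congr_fun hψ v⟩

theorem exists_dual_kill (f : V →ₗ[k] W) (B : Submodule k W) (φ : Module.Dual k V)
    (h : ∀ v, f v ∈ B → φ v = 0) :
    ∃ ψ : Module.Dual k W, (∀ v, ψ (f v) = φ v) ∧ ∀ m ∈ B, ψ m = 0 := by
  obtain ⟨ψ, hψ⟩ := exists_dual_comp (B.mkQ ∘ₗ f) φ (fun v hv => h v (by
    rw [LinearMap.comp_apply] at hv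
    exact (Submodule.Quotient.mk_eq_zero B).mp hv))
  refine ⟨ψ ∘ₗ B.mkQ, fun v => hψ v, fun m hm => ?_⟩
  rw [LinearMap.comp_apply]
  have : B.mkQ m = 0 := (Submodule.Quotient.mk_eq_zero B).mpr hm
  rw [this, map_zero]

end LinAlg

namespace Sys

variable {k V κ : Type*} [Field k] [AddCommGroup V] [Module k V] [Fintype κ] (S : Sys k V κ)

/-- functionals attached to a vertex -/
def D (p : Vx k V κ) : Submodule k (Module.Dual k V) where
  carrier := {φ | (∀ m ∈ S.M p, φ m = 0) ∧ ∀ v, φ (S.e p.c v) = φ v}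
  zero_mem' := ⟨fun _ _ => rfl, fun _ => rfl⟩
  add_mem' := by
    rintro φ ψ ⟨h1, h2⟩ ⟨h3, h4⟩
    refine ⟨fun m hm => ?_, fun v => ?_⟩
    · rw [LinearMap.add_apply, h1 m hm, h3 m hm, add_zero]
    · rw [LinearMap.add_apply, LinearMap.add_apply, h2, h4]
  smul_mem' := by
    rintro a φ ⟨h1, h2⟩
    refine ⟨fun m hm => ?_, fun v => ?_⟩
    · rw [LinearMap.smul_apply, h1 m hm, smul_zero]
    · rw [LinearMap.smul_apply, LinearMap.smul_apply, h2]

variable {S} {b : Bool} {p q r : Vx k V κ}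

theorem mem_D {φ : Module.Dual k V} :
    φ ∈ S.D p ↔ (∀ m ∈ S.M p, φ m = 0) ∧ ∀ v, φ (S.e p.c v) = φ v := Iff.rfl

theorem Edge.comp_mem_D (h : S.Edge b p q) {ψ : Module.Dual k V} (hψ : ψ ∈ S.D q) :
    ψ ∘ₗ S.op b ∈ S.D p := by
  refine ⟨fun m hm => ?_, fun v => ?_⟩
  · exact hψ.1 _ (h.op_M hm)
  · rw [LinearMap.comp_apply, LinearMap.comp_apply, S.op_e, ← h.cc, hψ.2]

section Fin

variable [FiniteDimensional k V]

theorem M_stable (p : Vx k V κ) (c : κ) {m : V} (hm : m ∈ S.M p) : S.e c m ∈ S.M p := by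
  unfold M at hm ⊢
  rw [Submodule.mem_sup] at hm
  obtain ⟨x, hx, y, hy, rfl⟩ := hm
  rw [map_add]
  exact Submodule.add_mem_sup ((pd_ch _).stable _ _ hx) ((pd_ch _).stable _ _ hy)

/-- Extend a functional along an operator, with prescribed vanishing. -/
theorem Edge.exists_func (h : S.Edge b p q) {φ : Module.Dual k V}
    (hφ : ∀ v, φ (S.e p.c v) = φ v) (B : Submodule k V) (hB : ∀ v, v ∈ B → S.e q.c v ∈ B)
    (hv : ∀ v, S.op b v ∈ B → φ v = 0) :
    ∃ ψ : Module.Dual k V, (∀ v, ψ (S.op b v) = φ v) ∧ (∀ m ∈ B, ψ m = 0) ∧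
      ∀ v, ψ (S.e q.c v) = ψ v := by
  obtain ⟨ψ, h1, h2⟩ := exists_dual_kill (S.op b) B φ hv
  refine ⟨ψ ∘ₗ S.e q.c, fun v => ?_, fun m hm => h2 _ (hB m hm), fun v => ?_⟩
  · rw [LinearMap.comp_apply, h.cc, ← S.op_e, h1, hφ]
  · rw [LinearMap.comp_apply, LinearMap.comp_apply, S.e_idem]

theorem Edge.exists_D (h : S.Edge b p q) {φ : Module.Dual k V} (hφ : φ ∈ S.D p) :
    ∃ ψ ∈ S.D q, ∀ v, ψ (S.op b v) = φ v := by
  obtain ⟨ψ, h1, h2, h3⟩ := h.exists_func hφ.2 (S.M q) (fun v hv => M_stable q _ hv)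
    (fun v hv => hφ.1 _ (h.mem_M hv))
  exact ⟨ψ, ⟨h2, h3⟩, h1⟩

/-- Extension of functionals from `U p`. -/
theorem exists_D_extend (p : Vx k V κ) (ψ : Module.Dual k (S.U p))
    (hψ : ∀ u : S.U p, (u : V) ∈ S.M p → ψ u = 0) :
    ∃ φ ∈ S.D p, ∀ u : S.U p, φ (u : V) = ψ u := by
  obtain ⟨φ, h1, h2⟩ := exists_dual_kill (S.U p).subtype (S.M p) ψ (fun u hu => hψ u hu)
  refine ⟨φ ∘ₗ S.e p.c, ⟨fun m hm => h2 _ (M_stable p _ hm), fun v => ?_⟩, fun u => ?_⟩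
  · rw [LinearMap.comp_apply, LinearMap.comp_apply, S.e_idem]
  · rw [LinearMap.comp_apply, (mem_U.mp u.2).2]
    exact h1 u

/-- A functional of `D p` vanishing on `U p` splits. -/
theorem D_split (hp : ∀ b, S.Ch b (p.Z b)) {φ : Module.Dual k V} (hφ : φ ∈ S.D p)
    (h0 : ∀ u ∈ S.U p, φ u = 0) (b : Bool) :
    ∃ φ₁ ∈ S.D p, ∃ φ₂ ∈ S.D p, (∀ z ∈ p.Z b, φ₁ z = 0) ∧ (∀ z ∈ p.Z (!b), φ₂ z = 0) ∧
      φ₁ + φ₂ = φ := by
  set S1 := p.Z b ⊔ S.pd (!b) (p.Z (!b)) with hS1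
  set S2 := p.Z (!b) ⊔ S.pd b (p.Z b) with hS2
  have hst1 : ∀ v ∈ S1, S.e p.c v ∈ S1 := by
    intro v hv
    rw [hS1, Submodule.mem_sup] at hv
    obtain ⟨x, hx, y, hy, rfl⟩ := hv
    rw [map_add]
    exact Submodule.add_mem_sup ((hp b).stable _ _ hx) ((pd_ch _).stable _ _ hy)
  have hst2 : ∀ v ∈ S2, S.e p.c v ∈ S2 := by
    intro v hv
    rw [hS2, Submodule.mem_sup] at hv
    obtain ⟨x, hx, y, hy, rfl⟩ := hv
    rw [map_add]
    exact Submodule.add_mem_sup ((hp (!b)).stable _ _ hx) ((pd_ch _).stable _ _ hy)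
  have hM1 : S.M p ≤ S1 := by
    rw [M_eq p b, hS1]
    exact sup_le_sup_right (pd_le _ _) _
  have hM2 : S.M p ≤ S2 := by
    rw [M_eq p b, hS2, sup_comm]
    exact sup_le_sup_right (pd_le _ _) _
  have h1 : φ ∈ (S1 ⊓ S2).dualAnnihilator := by
    rw [Submodule.mem_dualAnnihilator]
    rintro x ⟨hx1, hx2⟩
    rw [hS1] at hx1
    rw [hS2] at hx2
    rw [SetLike.mem_coe, Submodule.mem_sup] at hx1 hx2
    obtain ⟨z1, hz1, p1, hp1, e1⟩ := hx1
    obtain ⟨z2, hz2, p2, hp2, e2⟩ := hx2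
    -- `y = z1 - p2 = z2 - p1`
    have hy : z1 - p2 = z2 - p1 := by
      rw [sub_eq_sub_iff_add_eq_add, e1, e2]
    have hyU : S.e p.c (z1 - p2) ∈ S.U p := by
      rw [mem_U]
      refine ⟨fun b' => ?_, S.e_idem _ _⟩
      by_cases hb : b' = b
      · subst hb
        exact (hp _).stable _ _ (Submodule.sub_mem _ hz1 (pd_le _ _ hp2))
      · have hb' : b' = !b := by
          cases b <;> cases b' <;> simp_all
        subst hb'
        rw [hy]
        exact (hp _).stable _ _ (Submodule.sub_mem _ hz2 (pd_le _ _ hp1))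
    have h3 : φ (z1 - p2) = 0 := by rw [← hφ.2]; exact h0 _ hyU
    have h4 : φ p1 = 0 := hφ.1 _ (by rw [M_eq p b]; exact Submodule.mem_sup_right hp1)
    have h5 : φ p2 = 0 := hφ.1 _ (by rw [M_eq p b]; exact Submodule.mem_sup_left hp2)
    rw [← e1, map_add, h4, add_zero]
    rw [map_sub, h5, sub_zero] at h3
    exact h3
  rw [Subspace.dualAnnihilator_inf_eq, Submodule.mem_sup] at h1
  obtain ⟨α, hα, β, hβ, hαβ⟩ := h1
  rw [Submodule.mem_dualAnnihilator] at hα hβ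
  refine ⟨α ∘ₗ S.e p.c, ⟨fun m hm => hα _ (hst1 _ (hM1 hm)), fun v => ?_⟩,
    β ∘ₗ S.e p.c, ⟨fun m hm => hβ _ (hst2 _ (hM2 hm)), fun v => ?_⟩, fun z hz => ?_,
    fun z hz => ?_, ?_⟩
  · rw [LinearMap.comp_apply, LinearMap.comp_apply, S.e_idem]
  · rw [LinearMap.comp_apply, LinearMap.comp_apply, S.e_idem]
  · exact hα _ (hst1 _ (Submodule.mem_sup_left hz))
  · exact hβ _ (hst2 _ (Submodule.mem_sup_left hz))
  · ext v
    rw [LinearMap.add_apply, LinearMap.comp_apply, LinearMap.comp_apply, ← LinearMap.add_apply,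
      hαβ, hφ.2]

/-- A vector of `U p` in `M p` splits. -/
theorem U_split (hp : ∀ b, S.Ch b (p.Z b)) {u : V} (hu : u ∈ S.U p) (hM : u ∈ S.M p)
    (b : Bool) : ∃ u₁ ∈ S.U p, ∃ u₂ ∈ S.U p, u₁ ∈ S.pd b (p.Z b) ∧
      u₂ ∈ S.pd (!b) (p.Z (!b)) ∧ u₁ + u₂ = u := by
  rw [M_eq p b, Submodule.mem_sup] at hM
  obtain ⟨x, hx, y, hy, hxy⟩ := hM
  have hu' := mem_U.mp hu
  have hx' : x ∈ p.Z (!b) := by
    have : x = u - y := by rw [← hxy]; abel
    rw [this]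
    exact Submodule.sub_mem _ (hu'.1 _) (pd_le _ _ hy)
  have hy' : y ∈ p.Z b := by
    have : y = u - x := by rw [← hxy]; abel
    rw [this]
    exact Submodule.sub_mem _ (hu'.1 _) (pd_le _ _ hx)
  refine ⟨S.e p.c x, ?_, S.e p.c y, ?_, (pd_ch _).stable _ _ hx, (pd_ch _).stable _ _ hy, ?_⟩
  · rw [mem_U]
    refine ⟨fun b' => ?_, S.e_idem _ _⟩
    by_cases hb : b' = b
    · subst hb
      exact (hp _).stable _ _ (pd_le _ _ hx)
    · have hb' : b' = !b := by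
        cases b <;> cases b' <;> simp_all
      subst hb'
      exact (hp _).stable _ _ hx'
  · rw [mem_U]
    refine ⟨fun b' => ?_, S.e_idem _ _⟩
    by_cases hb : b' = b
    · subst hb
      exact (hp _).stable _ _ hy'
    · have hb' : b' = !b := by
        cases b <;> cases b' <;> simp_all
      subst hb'
      exact (hp _).stable _ _ (pd_le _ _ hy)
  · rw [← map_add, hxy, hu'.2]

/-- Orthogonality of functionals and vectors of different vertices. -/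
theorem D_U_ne (hp : ∀ b, S.Ch b (p.Z b)) (hq : ∀ b, S.Ch b (q.Z b)) {φ : Module.Dual k V}
    (hφ : φ ∈ S.D p) {u : V} (hu : u ∈ S.U q) (hne : φ u ≠ 0) :
    p.c = q.c ∧ ∀ b, p.Z b ≤ q.Z b := by
  constructor
  · by_contra hc
    apply hne
    rw [← hφ.2, ← (mem_U.mp hu).2, S.e_orth _ _ _ hc, map_zero]
  · intro b
    by_contra hle
    apply hne
    have h1 : q.Z b < p.Z b := by
      rcases (hp b).total _ (hq b) with h | h
      · exact absurd h hle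
      · exact lt_of_le_of_ne h (fun he => hle (he ▸ le_refl _))
    apply hφ.1
    rw [M_eq p b]
    exact Submodule.mem_sup_left (le_pd (hq b) h1 ((mem_U.mp hu).1 b))

end Fin

end Sys

end Pool.Agent.Lib.MP_868e2f_al
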