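import Mathlib

/-! Functorial filtrations for pairs of square-zero operators on a graded space. -/

namespace Pool.Agent.Lib.MP_868e2f_al

/-- Two square-zero operators on a finite-dimensional graded space. -/
structure Sys (k V κ : Type*) [Field k] [AddCommGroup V] [Module k V] [Fintype κ] where
  op : Bool → Module.End k V
  sq : ∀ b v, op b (op b v) = 0
  e : κ → Module.End k V
  sh : Bool → κ → κ
  sh_sh : ∀ b c, sh b (sh b c) = c
  e_idem : ∀ c v, e c (e c v) = e c v
  e_orth : ∀ c c' v, c ≠ c' → e c (e c' v) = 0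
  e_sum : ∀ v, ∑ c, e c v = v
  op_e : ∀ b c v, op b (e c v) = e (sh b c) (op b v)

namespace Sys

variable {k V κ : Type*} [Field k] [AddCommGroup V] [Module k V] [Fintype κ]

/-- The chain of functorial submodules attached to the letter `b`. -/
inductive Ch (S : Sys k V κ) : Bool → Submodule k V → Prop
  | bot (b : Bool) : Ch S b ⊥
  | top (b : Bool) : Ch S b ⊤
  | map (b : Bool) (Z : Submodule k V) : Ch S (!b) Z → Ch S b (Z.map (S.op b))
  | comap (b : Bool) (Z : Submodule k V) : Ch S (!b) Z → Ch S b (Z.comap (S.op b))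

variable (S : Sys k V κ)

theorem map_le_comap (b : Bool) (Z Z' : Submodule k V) :
    Z.map (S.op b) ≤ Z'.comap (S.op b) := by
  rintro _ ⟨z, -, rfl⟩
  rw [Submodule.mem_comap, S.sq]
  exact Submodule.zero_mem _

variable {S}

theorem Ch.total {b : Bool} {A : Submodule k V} (hA : S.Ch b A) :
    ∀ B : Submodule k V, S.Ch b B → A ≤ B ∨ B ≤ A := by
  induction hA with
  | bot b => intro B _; exact Or.inl bot_le
  | top b => intro B _; exact Or.inr le_top
  | map b Z hZ ih =>
    intro B hB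
    cases hB with
    | bot => exact Or.inr bot_le
    | top => exact Or.inl le_top
    | map _ Z' hZ' =>
      rcases ih Z' hZ' with h | h
      · exact Or.inl (Submodule.map_mono h)
      · exact Or.inr (Submodule.map_mono h)
    | comap _ Z' hZ' => exact Or.inl (S.map_le_comap b Z Z')
  | comap b Z hZ ih =>
    intro B hB
    cases hB with
    | bot => exact Or.inr bot_le
    | top => exact Or.inl le_top
    | map _ Z' hZ' => exact Or.inr (S.map_le_comap b Z' Z)
    | comap _ Z' hZ' =>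
      rcases ih Z' hZ' with h | h
      · exact Or.inl (Submodule.comap_mono h)
      · exact Or.inr (Submodule.comap_mono h)

theorem op_e' (b : Bool) (c : κ) (v : V) : S.op b (S.e (S.sh b c) v) = S.e c (S.op b v) := by
  rw [S.op_e, S.sh_sh]

theorem Ch.stable {b : Bool} {A : Submodule k V} (hA : S.Ch b A) :
    ∀ (c : κ) (v : V), v ∈ A → S.e c v ∈ A := by
  induction hA with
  | bot b =>
    intro c v hv
    rw [Submodule.mem_bot] at hv ⊢
    rw [hv, map_zero]
  | top b => intro c v _; trivial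
  | map b Z hZ ih =>
    rintro c _ ⟨z, hz, rfl⟩
    rw [← op_e']
    exact ⟨_, ih _ z hz, rfl⟩
  | comap b Z hZ ih =>
    intro c v hv
    rw [Submodule.mem_comap] at hv ⊢
    rw [S.op_e]
    exact ih _ _ hv

variable (S)

/-- The largest member of the chain strictly below `Z`. -/
noncomputable def pd (b : Bool) (Z : Submodule k V) : Submodule k V :=
  sSup {W | S.Ch b W ∧ W < Z}

variable {S}

theorem le_pd {b : Bool} {W Z : Submodule k V} (hW : S.Ch b W) (h : W < Z) : W ≤ S.pd b Z :=
  le_sSup ⟨hW, h⟩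

theorem pd_le (b : Bool) (Z : Submodule k V) : S.pd b Z ≤ Z :=
  sSup_le fun _ hW => hW.2.le

variable [FiniteDimensional k V]

theorem pd_spec {b : Bool} {Z : Submodule k V} (hZ : Z ≠ ⊥) :
    S.Ch b (S.pd b Z) ∧ S.pd b Z < Z := by
  have hne : {W | S.Ch b W ∧ W < Z}.Nonempty := ⟨⊥, Ch.bot b, bot_lt_iff_ne_bot.mpr hZ⟩
  obtain ⟨m, hm, hmax⟩ := WellFounded.has_min (wellFounded_gt (α := Submodule k V)) _ hne
  have h1 : S.pd b Z = m := by
    apply le_antisymm
    · apply sSup_le
      intro W hW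
      rcases hW.1.total m hm.1 with h | h
      · exact h
      · by_contra hcon
        exact hmax W hW (lt_of_le_of_ne h (fun he => hcon (he ▸ le_refl _)))
    · exact le_sSup hm
  rw [h1]
  exact hm

theorem pd_ch {b : Bool} (Z : Submodule k V) : S.Ch b (S.pd b Z) := by
  by_cases hZ : Z = ⊥
  · have : S.pd b Z = ⊥ := by rw [eq_bot_iff]; exact hZ ▸ pd_le b Z
    rw [this]; exact Ch.bot b
  · exact (pd_spec hZ).1

/-- least element of a nonempty subset of the chain -/
theorem Ch.exists_least {b : Bool} (s : Set (Submodule k V)) (hs : ∀ W ∈ s, S.Ch b W)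
    (hne : s.Nonempty) : ∃ m ∈ s, ∀ W ∈ s, m ≤ W := by
  obtain ⟨m, hm, hmin⟩ := WellFounded.has_min (wellFounded_lt (α := Submodule k V)) s hne
  refine ⟨m, hm, fun W hW => ?_⟩
  rcases (hs m hm).total W (hs W hW) with h | h
  · exact h
  · by_contra hcon
    exact hmin W hW (lt_of_le_of_ne h (fun he => hcon (he ▸ le_refl _)))

theorem pd_comap {b : Bool} {Y : Submodule k V} (hY : S.Ch (!b) Y)
    (h : (S.pd (!b) Y).comap (S.op b) < Y.comap (S.op b)) :
    S.pd b (Y.comap (S.op b)) = (S.pd (!b) Y).comap (S.op b) := by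
  have hne : Y.comap (S.op b) ≠ ⊥ := ne_bot_of_gt h
  obtain ⟨h1, h2⟩ := pd_spec (S := S) (b := b) hne
  apply le_antisymm
  · generalize S.pd b (Y.comap (S.op b)) = W at h1 h2
    cases h1 with
    | bot => exact bot_le
    | top => exact absurd h2 (not_lt_of_ge le_top)
    | map _ W0 hW0 => exact S.map_le_comap b _ _
    | comap _ W0 hW0 =>
      apply Submodule.comap_mono
      rcases hW0.total Y hY with h3 | h3
      · apply le_pd hW0
        refine lt_of_le_of_ne h3 ?_
        rintro rfl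
        exact lt_irrefl _ h2
      · exact absurd (lt_of_le_of_lt (Submodule.comap_mono h3) h2) (lt_irrefl _)
  · exact le_pd (Ch.comap b _ (pd_ch Y)) h

theorem pd_map {b : Bool} {Y : Submodule k V} (hY : S.Ch (!b) Y)
    (h : (S.pd (!b) Y).map (S.op b) < Y.map (S.op b)) :
    S.pd b (Y.map (S.op b)) = (S.pd (!b) Y).map (S.op b) := by
  have hne : Y.map (S.op b) ≠ ⊥ := ne_bot_of_gt h
  obtain ⟨h1, h2⟩ := pd_spec (S := S) (b := b) hne
  apply le_antisymm
  · generalize S.pd b (Y.map (S.op b)) = W at h1 h2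
    cases h1 with
    | bot => exact bot_le
    | top => exact absurd h2 (not_lt_of_ge le_top)
    | map _ W0 hW0 =>
      apply Submodule.map_mono
      rcases hW0.total Y hY with h3 | h3
      · apply le_pd hW0
        refine lt_of_le_of_ne h3 ?_
        rintro rfl
        exact lt_irrefl _ h2
      · exact absurd (lt_of_le_of_lt (Submodule.map_mono h3) h2) (lt_irrefl _)
    | comap _ W0 hW0 => exact absurd h2 (not_lt_of_ge (S.map_le_comap b _ _))
  · exact le_pd (Ch.map b _ (pd_ch Y)) h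

end Sys

/-- A vertex: a pair of members of the two chains and a colour. -/
@[ext]
structure Vx (k V κ : Type*) [Field k] [AddCommGroup V] [Module k V] where
  Z : Bool → Submodule k V
  c : κ

namespace Sys

variable {k V κ : Type*} [Field k] [AddCommGroup V] [Module k V] [Fintype κ] (S : Sys k V κ)

/-- colour subspace -/
def col (c : κ) : Submodule k V := LinearMap.eqLocus (S.e c) LinearMap.id

theorem mem_col {c : κ} {v : V} : v ∈ S.col c ↔ S.e c v = v := Iff.rfl

/-- the subspace of a vertex -/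
def U (p : Vx k V κ) : Submodule k V := (p.Z true ⊓ p.Z false) ⊓ S.col p.c

/-- the radical part -/
noncomputable def M (p : Vx k V κ) : Submodule k V :=
  S.pd true (p.Z true) ⊔ S.pd false (p.Z false)

variable {S}

theorem mem_U {p : Vx k V κ} {v : V} : v ∈ S.U p ↔ (∀ b, v ∈ p.Z b) ∧ S.e p.c v = v := by
  unfold U
  rw [Submodule.mem_inf, Submodule.mem_inf, mem_col]
  constructor
  · rintro ⟨⟨h1, h2⟩, h3⟩
    exact ⟨fun b => by cases b <;> assumption, h3⟩
  · rintro ⟨h1, h2⟩
    exact ⟨⟨h1 _, h1 _⟩, h2⟩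

theorem M_eq (p : Vx k V κ) (b : Bool) :
    S.M p = S.pd b (p.Z b) ⊔ S.pd (!b) (p.Z (!b)) := by
  cases b
  · unfold M; rw [sup_comm]; rfl
  · rfl

variable (S)

/-- Valid vertices. -/
def Valid (p : Vx k V κ) : Prop := (∀ b, S.Ch b (p.Z b)) ∧ ∃ u ∈ S.U p, u ∉ S.M p

/-- `b`-edge from `p` to `q`. -/
structure Edge (b : Bool) (p q : Vx k V κ) : Prop where
  zp : p.Z b = (q.Z (!b)).comap (S.op b)
  zq : q.Z b = (p.Z (!b)).map (S.op b)
  pp : S.pd b (p.Z b) = (S.pd (!b) (q.Z (!b))).comap (S.op b)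
  pq : S.pd b (q.Z b) = (S.pd (!b) (p.Z (!b))).map (S.op b)
  cc : q.c = S.sh b p.c

variable {S} {b : Bool} {p q r : Vx k V κ}

theorem Valid.ne_bot (h : S.Valid p) (b : Bool) : p.Z b ≠ ⊥ := by
  intro hb
  obtain ⟨u, hu, hM⟩ := h.2
  have := (mem_U.mp hu).1 b
  rw [hb, Submodule.mem_bot] at this
  rw [this] at hM
  exact hM (Submodule.zero_mem _)

theorem Edge.op_mem (h : S.Edge b p q) {u : V} (hu : u ∈ S.U p) : S.op b u ∈ S.U q := by
  rw [mem_U] at hu ⊢
  refine ⟨fun b' => ?_, ?_⟩
  · by_cases hb : b' = b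
    · subst hb
      rw [h.zq]
      exact ⟨u, hu.1 _, rfl⟩
    · have hb' : b' = !b := by
        cases b <;> cases b' <;> simp_all
      subst hb'
      have := hu.1 b
      rw [h.zp, Submodule.mem_comap] at this
      exact this
  · rw [h.cc, ← S.op_e, hu.2]

theorem Edge.exists_preimage (h : S.Edge b p q) (hp : ∀ b, S.Ch b (p.Z b)) {w : V}
    (hw : w ∈ S.U q) : ∃ u ∈ S.U p, S.op b u = w := by
  rw [mem_U] at hw
  have h1 := hw.1 b
  rw [h.zq] at h1
  obtain ⟨y, hy, rfl⟩ := h1
  have h2 : S.op b (S.e p.c y) = S.op b y := by rw [S.op_e, ← h.cc, hw.2]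
  refine ⟨S.e p.c y, ?_, h2⟩
  rw [mem_U]
  refine ⟨fun b' => ?_, S.e_idem _ _⟩
  by_cases hb : b' = b
  · subst hb
    rw [h.zp, Submodule.mem_comap, h2]
    exact hw.1 _
  · have hb' : b' = !b := by
      cases b <;> cases b' <;> simp_all
    subst hb'
    exact (hp _).stable _ _ hy

theorem Edge.op_M (h : S.Edge b p q) {u : V} (hu : u ∈ S.M p) : S.op b u ∈ S.M q := by
  rw [M_eq p b, Submodule.mem_sup] at hu
  obtain ⟨x, hx, y, hy, rfl⟩ := hu
  rw [M_eq q b, map_add, add_comm]
  apply Submodule.add_mem_sup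
  · rw [h.pq]; exact ⟨y, hy, rfl⟩
  · rw [h.pp, Submodule.mem_comap] at hx; exact hx

theorem Edge.mem_M (h : S.Edge b p q) {u : V} (hu : S.op b u ∈ S.M q) : u ∈ S.M p := by
  rw [M_eq q b, Submodule.mem_sup] at hu
  obtain ⟨x, hx, y, hy, hxy⟩ := hu
  rw [h.pq] at hx
  obtain ⟨x0, hx0, rfl⟩ := hx
  have h1 : u - x0 ∈ S.pd b (p.Z b) := by
    rw [h.pp, Submodule.mem_comap, map_sub, ← hxy]
    rw [add_sub_cancel_left]
    exact hy
  rw [M_eq p b]
  have h2 : u = (u - x0) + x0 := by abel
  rw [h2]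
  exact Submodule.add_mem_sup h1 hx0

end Sys

end Pool.Agent.Lib.MP_868e2f_al
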