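import Pool.Agent.Lib.MP_868e2f_al.Filt

/-! The graph of vertices. -/

namespace Pool.Agent.Lib.MP_868e2f_al

namespace Sys

variable {k V κ : Type*} [Field k] [AddCommGroup V] [Module k V] [Fintype κ] {S : Sys k V κ}
variable {b : Bool} {p q r : Vx k V κ}

theorem range_le_ker (S : Sys k V κ) (b : Bool) :
    LinearMap.range (S.op b) ≤ LinearMap.ker (S.op b) := by
  rintro _ ⟨v, rfl⟩
  exact S.sq b v

theorem ker_le_comap (S : Sys k V κ) (b : Bool) (Y : Submodule k V) :
    LinearMap.ker (S.op b) ≤ Y.comap (S.op b) := by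
  intro v hv
  rw [Submodule.mem_comap, LinearMap.mem_ker.mp hv]
  exact Submodule.zero_mem _

theorem map_le_range (S : Sys k V κ) (b : Bool) (Y : Submodule k V) :
    Y.map (S.op b) ≤ LinearMap.range (S.op b) := by
  rintro _ ⟨v, -, rfl⟩
  exact ⟨v, rfl⟩

section Finite

variable [FiniteDimensional k V]

theorem Edge.ker_lt (h : S.Edge b p q) (hp : S.Valid p) : LinearMap.ker (S.op b) < p.Z b := by
  refine lt_of_le_of_lt ?_ (pd_spec (S := S) (b := b) (hp.ne_bot b)).2
  rw [h.pp]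
  exact S.ker_le_comap b _

theorem Edge.le_range (h : S.Edge b p q) : q.Z b ≤ LinearMap.range (S.op b) := by
  rw [h.zq]
  exact S.map_le_range b _

theorem Edge.not_both (h : S.Edge b p q) (hp : S.Valid p) (h' : S.Edge b r p) : False := by
  have h1 := h.ker_lt hp
  have h2 := h'.le_range
  exact lt_irrefl _ (lt_of_lt_of_le h1 (h2.trans (S.range_le_ker b)))

theorem Edge.target_unique {q' : Vx k V κ} (h : S.Edge b p q) (h' : S.Edge b p q')
    (hp : S.Valid p) (hq : S.Valid q) (hq' : S.Valid q') : q = q' := by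
  have key : ∀ {q q' : Vx k V κ}, S.Edge b p q → S.Edge b p q' → S.Valid q → S.Valid q' →
      ¬ q.Z (!b) < q'.Z (!b) := by
    intro q q' h h' hq hq' hlt
    have h1 : q.Z (!b) ≤ S.pd (!b) (q'.Z (!b)) := le_pd (hq.1 _) hlt
    have h2 : p.Z b ≤ S.pd b (p.Z b) := by
      rw [h'.pp, h.zp]
      exact Submodule.comap_mono h1
    exact lt_irrefl _ (lt_of_le_of_lt h2 (pd_spec (S := S) (b := b) (hp.ne_bot b)).2)
  have e1 : q.Z b = q'.Z b := by rw [h.zq, h'.zq]
  have e2 : q.Z (!b) = q'.Z (!b) := by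
    rcases (hq.1 (!b)).total _ (hq'.1 (!b)) with h1 | h1
    · by_contra hne
      exact key h h' hq hq' (lt_of_le_of_ne h1 hne)
    · by_contra hne
      exact key h' h hq' hq (lt_of_le_of_ne h1 (Ne.symm hne))
  ext1
  · funext b'
    by_cases hb : b' = b
    · subst hb; exact e1
    · have hb' : b' = !b := by
        cases b <;> cases b' <;> simp_all
      subst hb'
      exact e2
  · rw [h.cc, h'.cc]

theorem Edge.source_unique {p' : Vx k V κ} (h : S.Edge b p q) (h' : S.Edge b p' q)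
    (hp : S.Valid p) (hp' : S.Valid p') (hq : S.Valid q) : p = p' := by
  have key : ∀ {p p' : Vx k V κ}, S.Edge b p q → S.Edge b p' q → S.Valid p → S.Valid p' →
      ¬ p.Z (!b) < p'.Z (!b) := by
    intro p p' h h' hp hp' hlt
    have h1 : p.Z (!b) ≤ S.pd (!b) (p'.Z (!b)) := le_pd (hp.1 _) hlt
    have h2 : q.Z b ≤ S.pd b (q.Z b) := by
      rw [h'.pq, h.zq]
      exact Submodule.map_mono h1
    exact lt_irrefl _ (lt_of_le_of_lt h2 (pd_spec (S := S) (b := b) (hq.ne_bot b)).2)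
  have e1 : p.Z b = p'.Z b := by rw [h.zp, h'.zp]
  have e2 : p.Z (!b) = p'.Z (!b) := by
    rcases (hp.1 (!b)).total _ (hp'.1 (!b)) with h1 | h1
    · by_contra hne
      exact key h h' hp hp' (lt_of_le_of_ne h1 hne)
    · by_contra hne
      exact key h' h hp' hp (lt_of_le_of_ne h1 (Ne.symm hne))
  ext1
  · funext b'
    by_cases hb : b' = b
    · subst hb; exact e1
    · have hb' : b' = !b := by
        cases b <;> cases b' <;> simp_all
      subst hb'
      exact e2
  · have := congrArg (S.sh b) (h.cc.symm.trans h'.cc)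
    rwa [S.sh_sh, S.sh_sh] at this

theorem exists_target (hp : S.Valid p) (h : LinearMap.ker (S.op b) < p.Z b) :
    ∃ q, S.Valid q ∧ S.Edge b p q := by
  obtain ⟨Y', ⟨hY'c, hY'⟩, hmin⟩ := Ch.exists_least (S := S) (b := !b)
    {Y | S.Ch (!b) Y ∧ p.Z b ≤ Y.comap (S.op b)} (fun W hW => hW.1)
    ⟨⊤, Ch.top _, by rw [Submodule.comap_top]; exact le_top⟩
  have e1 : p.Z b = Y'.comap (S.op b) := by
    apply le_antisymm hY'
    have h1 := hp.1 b
    generalize p.Z b = Z0 at h1 h hY' hmin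
    cases h1 with
    | bot => exact absurd h (not_lt_of_ge bot_le)
    | top => exact le_top
    | map _ W0 hW0 =>
      exact absurd (lt_of_lt_of_le h ((S.map_le_range b W0).trans (S.range_le_ker b)))
        (lt_irrefl _)
    | comap _ W0 hW0 => exact Submodule.comap_mono (hmin W0 ⟨hW0, le_refl _⟩)
  have hYb : Y' ≠ ⊥ := by
    rintro rfl
    rw [Submodule.comap_bot] at e1
    rw [e1] at h
    exact lt_irrefl _ h
  have hlt : (S.pd (!b) Y').comap (S.op b) < Y'.comap (S.op b) := by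
    refine lt_of_le_of_ne (Submodule.comap_mono (pd_le _ _)) ?_
    intro he
    have h1 := hmin (S.pd (!b) Y') ⟨pd_ch _, by rw [he]; exact hY'⟩
    exact lt_irrefl _ (lt_of_le_of_lt h1 (pd_spec (S := S) (b := !b) hYb).2)
  have epp := pd_comap hY'c hlt
  -- the target
  let q : Vx k V κ := ⟨fun b' => if b' = b then (p.Z (!b)).map (S.op b) else Y', S.sh b p.c⟩
  have q1 : q.Z b = (p.Z (!b)).map (S.op b) := if_pos rfl
  have q2 : q.Z (!b) = Y' := if_neg (by cases b <;> simp)
  obtain ⟨u, hu, hM⟩ := hp.2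
  have hlt2 : (S.pd (!b) (p.Z (!b))).map (S.op b) < (p.Z (!b)).map (S.op b) := by
    refine lt_of_le_of_ne (Submodule.map_mono (pd_le _ _)) ?_
    intro he
    have h1 : S.op b u ∈ (p.Z (!b)).map (S.op b) := ⟨u, (mem_U.mp hu).1 _, rfl⟩
    rw [← he] at h1
    obtain ⟨y, hy, hyu⟩ := h1
    apply hM
    rw [M_eq p b]
    have h2 : u = (u - y) + y := by abel
    rw [h2]
    refine Submodule.add_mem_sup ?_ hy
    rw [e1, epp]
    apply S.ker_le_comap
    rw [LinearMap.mem_ker, map_sub, hyu, sub_self]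
  have epq := pd_map (hp.1 (!b)) hlt2
  have hE : S.Edge b p q := by
    refine ⟨?_, q1, ?_, ?_, rfl⟩
    · rw [q2]; exact e1
    · rw [q2, ← epp, ← e1]
    · rw [q1]; exact epq
  refine ⟨q, ⟨?_, S.op b u, hE.op_mem hu, fun h1 => hM (hE.mem_M h1)⟩, hE⟩
  intro b'
  by_cases hb : b' = b
  · subst hb
    rw [q1]
    exact Ch.map _ _ (hp.1 _)
  · have hb' : b' = !b := by
      cases b <;> cases b' <;> simp_all
    subst hb'
    rw [q2]
    exact hY'c

theorem exists_source (hq : S.Valid q) (h : q.Z b ≤ LinearMap.range (S.op b)) :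
    ∃ p, S.Valid p ∧ S.Edge b p q := by
  obtain ⟨Y, ⟨hYc, hY⟩, hmin⟩ := Ch.exists_least (S := S) (b := !b)
    {Y | S.Ch (!b) Y ∧ q.Z b ≤ Y.map (S.op b)} (fun W hW => hW.1)
    ⟨⊤, Ch.top _, by rw [Submodule.map_top]; exact h⟩
  have e1 : q.Z b = Y.map (S.op b) := by
    apply le_antisymm hY
    have h1 := hq.1 b
    have h2 := hq.ne_bot b
    generalize q.Z b = Z0 at h1 h2 h hY hmin
    cases h1 with
    | bot => exact absurd rfl h2
    | top => exact le_top
    | map _ W0 hW0 => exact Submodule.map_mono (hmin W0 ⟨hW0, le_refl _⟩)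
    | comap _ W0 hW0 => exact S.map_le_comap b _ _
  have hYb : Y ≠ ⊥ := by
    rintro rfl
    rw [Submodule.map_bot] at e1
    exact hq.ne_bot b e1
  have hlt : (S.pd (!b) Y).map (S.op b) < Y.map (S.op b) := by
    refine lt_of_le_of_ne (Submodule.map_mono (pd_le _ _)) ?_
    intro he
    have h1 := hmin (S.pd (!b) Y) ⟨pd_ch _, by rw [he]; exact hY⟩
    exact lt_irrefl _ (lt_of_le_of_lt h1 (pd_spec (S := S) (b := !b) hYb).2)
  have epq := pd_map hYc hlt
  let p : Vx k V κ := ⟨fun b' => if b' = b then (q.Z (!b)).comap (S.op b) else Y, S.sh b q.c⟩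
  have p1 : p.Z b = (q.Z (!b)).comap (S.op b) := if_pos rfl
  have p2 : p.Z (!b) = Y := if_neg (by cases b <;> simp)
  obtain ⟨w, hw, hM⟩ := hq.2
  have hw' := (mem_U.mp hw).1
  have hlt2 : (S.pd (!b) (q.Z (!b))).comap (S.op b) < (q.Z (!b)).comap (S.op b) := by
    refine lt_of_le_of_ne (Submodule.comap_mono (pd_le _ _)) ?_
    intro he
    have h1 := hw' b
    rw [e1] at h1
    obtain ⟨y, hy, hyw⟩ := h1
    have h2 : y ∈ (q.Z (!b)).comap (S.op b) := by
      rw [Submodule.mem_comap, hyw]; exact hw' _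
    rw [← he, Submodule.mem_comap, hyw] at h2
    apply hM
    rw [M_eq q b]
    exact Submodule.mem_sup_right h2
  have epp := pd_comap (hq.1 (!b)) hlt2
  have hE : S.Edge b p q := by
    refine ⟨p1, ?_, ?_, ?_, ?_⟩
    · rw [p2]; exact e1
    · rw [p1]; exact epp
    · rw [p2, ← epq, ← e1]
    · change q.c = S.sh b (S.sh b q.c)
      rw [S.sh_sh]
  have hch : ∀ b', S.Ch b' (p.Z b') := by
    intro b'
    by_cases hb : b' = b
    · subst hb
      rw [p1]
      exact Ch.comap _ _ (hq.1 _)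
    · have hb' : b' = !b := by
        cases b <;> cases b' <;> simp_all
      subst hb'
      rw [p2]
      exact hYc
  obtain ⟨u, hu, huw⟩ := hE.exists_preimage hch hw
  refine ⟨p, ⟨hch, u, hu, fun h1 => hM ?_⟩, hE⟩
  rw [← huw]
  exact hE.op_M h1

/-- There is a valid vertex if `V` is nonzero. -/
theorem exists_valid [Nontrivial V] : ∃ p : Vx k V κ, S.Valid p := by
  obtain ⟨v, hv⟩ := exists_ne (0 : V)
  obtain ⟨c, hc⟩ : ∃ c, S.e c v ≠ 0 := by
    by_contra hcon
    push Not at hcon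
    apply hv
    rw [← S.e_sum v]
    exact Finset.sum_eq_zero fun c _ => hcon c
  obtain ⟨A, ⟨hA, hA0⟩, hAmin⟩ := Ch.exists_least (S := S) (b := true)
    {Y | S.Ch true Y ∧ Y ⊓ S.col c ≠ ⊥} (fun W hW => hW.1)
    ⟨⊤, Ch.top _, by
      rw [top_inf_eq]
      intro h
      have : S.e c v ∈ S.col c := S.e_idem _ _
      rw [h, Submodule.mem_bot] at this
      exact hc this⟩
  obtain ⟨B, ⟨hB, hB0⟩, hBmin⟩ := Ch.exists_least (S := S) (b := false)
    {Y | S.Ch false Y ∧ (A ⊓ Y) ⊓ S.col c ≠ ⊥} (fun W hW => hW.1)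
    ⟨⊤, Ch.top _, by rw [inf_top_eq]; exact hA0⟩
  refine ⟨⟨fun b => if b = true then A else B, c⟩, ?_, ?_⟩
  · intro b
    cases b
    · exact hB
    · exact hA
  · obtain ⟨u, hu, hu0⟩ := Submodule.exists_mem_ne_zero_of_ne_bot hB0
    refine ⟨u, hu, ?_⟩
    intro hM
    have hM' : u ∈ S.pd true A ⊔ S.pd false B := hM
    rw [Submodule.mem_sup] at hM'
    obtain ⟨x, hx, y, hy, hxy⟩ := hM'
    have huc : S.e c u = u := hu.2
    have hA' : A ≠ ⊥ := by
      rintro rfl; exact hA0 (by rw [bot_inf_eq])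
    have hB' : B ≠ ⊥ := by
      rintro rfl; exact hB0 (by rw [inf_bot_eq, bot_inf_eq])
    have hx1 : S.e c x ∈ S.pd true A := (pd_ch (S := S) (b := true) A).stable _ _ hx
    have hy1 : S.e c y ∈ S.pd false B := (pd_ch (S := S) (b := false) B).stable _ _ hy
    have hx2 : S.e c x = 0 := by
      by_contra hne
      have h1 := hAmin (S.pd true A) ⟨pd_ch _, by
        intro h
        have : S.e c x ∈ S.pd true A ⊓ S.col c := ⟨hx1, S.e_idem _ _⟩
        rw [h, Submodule.mem_bot] at this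
        exact hne this⟩
      exact lt_irrefl _ (lt_of_le_of_lt h1 (pd_spec (S := S) (b := true) hA').2)
    have hy2 : S.e c y = u := by
      rw [← hxy, map_add, hx2, zero_add] at huc
      rw [← hxy]; exact huc
    have h1 := hBmin (S.pd false B) ⟨pd_ch _, by
      intro h
      have : u ∈ (A ⊓ S.pd false B) ⊓ S.col c := ⟨⟨hu.1.1, hy2 ▸ hy1⟩, hu.2⟩
      rw [h, Submodule.mem_bot] at this
      exact hu0 this⟩
    exact lt_irrefl _ (lt_of_le_of_lt h1 (pd_spec (S := S) (b := false) hB').2)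

end Finite

end Sys

end Pool.Agent.Lib.MP_868e2f_al
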