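import Pool.Agent.Lib.MP_868e2f_al.Defs

/-! General facts on tensor products and thick tensor ideals; existence of prime ideals. -/

namespace Pool.Agent.Lib.MP_868e2f_al

universe u

open scoped TensorProduct
open FinRep

variable {k H : Type u} [Field k] [Ring H]

section Basic

variable [Algebra k H]

namespace FinRep

theorem isHom_id (M : FinRep k H) : IsHom M M LinearMap.id := fun _ _ => rfl

theorem IsHom.comp {A B C : FinRep k H} {f : A.V →ₗ[k] B.V} {g : B.V →ₗ[k] C.V}
    (hf : IsHom A B f) (hg : IsHom B C g) : IsHom A C (g ∘ₗ f) := fun a m => by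
  simp only [LinearMap.comp_apply]
  rw [hf a m, hg a (f m)]

theorem IsHom.inv {A B : FinRep k H} {f : A.V →ₗ[k] B.V} {g : B.V →ₗ[k] A.V}
    (hf : IsHom A B f) (hgf : ∀ x, g (f x) = x) (hfg : ∀ x, f (g x) = x) : IsHom B A g :=
  fun a m => by
    have h1 : f (g (B.act a m)) = f (A.act a (g m)) := by
      rw [hfg, hf a (g m), hfg]
    have h2 := congrArg g h1
    rwa [hgf, hgf] at h2

theorem isSummand_of_equiv {A B : FinRep k H} (e : A.V ≃ₗ[k] B.V)
    (he : IsHom A B e.toLinearMap) : IsSummand A B ∧ IsSummand B A := by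
  have he' : IsHom B A e.symm.toLinearMap :=
    IsHom.inv (f := e.toLinearMap) (g := e.symm.toLinearMap) he (fun x => e.symm_apply_apply x)
      (fun x => e.apply_symm_apply x)
  refine ⟨⟨e.toLinearMap, e.symm.toLinearMap, he, he', ?_⟩,
    ⟨e.symm.toLinearMap, e.toLinearMap, he', he, ?_⟩⟩
  · ext x; simp
  · ext x; simp

end FinRep

end Basic

section Tensor

variable [Bialgebra k H]

namespace FinRep

/-- action of `H ⊗ H` on `M ⊗ N`. -/
noncomputable def act₂ (M N : FinRep k H) : H ⊗[k] H →ₐ[k] Module.End k (M.V ⊗[k] N.V) :=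
  (Module.endTensorEndAlgHom (R := k) (S := k) (A := k) (M := M.V) (N := N.V)).comp
    (Algebra.TensorProduct.map M.act N.act)

theorem act₂_tmul (M N : FinRep k H) (a b : H) :
    act₂ M N (a ⊗ₜ b) = TensorProduct.map (M.act a) (N.act b) := by
  simp only [act₂, AlgHom.comp_apply, Algebra.TensorProduct.map_tmul]
  rfl

theorem tensor_act (M N : FinRep k H) (a : H) :
    (M.tensor N).act a = act₂ M N (Coalgebra.comul a) := rfl

theorem tensor_act_eq (M N : FinRep k H) (a : H) (t : H ⊗[k] H)
    (h : Coalgebra.comul (R := k) a = t) : (M.tensor N).act a = act₂ M N t := by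
  rw [tensor_act, h]

theorem isHom_map {M M' N N' : FinRep k H} {f : M.V →ₗ[k] M'.V} {g : N.V →ₗ[k] N'.V}
    (hf : IsHom M M' f) (hg : IsHom N N' g) :
    IsHom (M.tensor N) (M'.tensor N') (TensorProduct.map f g) := by
  have key : ∀ t : H ⊗[k] H, TensorProduct.map f g ∘ₗ act₂ M N t =
      act₂ M' N' t ∘ₗ TensorProduct.map f g := by
    intro t
    induction t with
    | zero => simp
    | tmul a b =>
      rw [act₂_tmul, act₂_tmul]
      apply TensorProduct.ext'
      intro x y
      simp only [LinearMap.comp_apply, TensorProduct.map_tmul]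
      rw [hf a x, hg b y]
    | add x y hx hy =>
      rw [map_add, map_add, LinearMap.comp_add, LinearMap.add_comp, hx, hy]
  intro a m
  exact LinearMap.congr_fun (key (Coalgebra.comul a)) m

theorem isHom_assoc (M N L : FinRep k H) :
    IsHom ((M.tensor N).tensor L) (M.tensor (N.tensor L))
      (TensorProduct.assoc k M.V N.V L.V).toLinearMap := by
  set e := (TensorProduct.assoc k M.V N.V L.V).toLinearMap with he
  -- left: for `t ∈ H ⊗ H`, `act₂ (M ⊗ N) L t`
  let L3 : (H ⊗[k] H) ⊗[k] H →ₗ[k] Module.End k ((M.V ⊗[k] N.V) ⊗[k] L.V) :=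
    (Module.endTensorEndAlgHom (R := k) (S := k) (A := k) (M := M.V ⊗[k] N.V)
      (N := L.V)).toLinearMap ∘ₗ TensorProduct.map (act₂ M N).toLinearMap L.act.toLinearMap
  let R3 : H ⊗[k] (H ⊗[k] H) →ₗ[k] Module.End k (M.V ⊗[k] (N.V ⊗[k] L.V)) :=
    (Module.endTensorEndAlgHom (R := k) (S := k) (A := k) (M := M.V)
      (N := N.V ⊗[k] L.V)).toLinearMap ∘ₗ TensorProduct.map M.act.toLinearMap
        (act₂ N L).toLinearMap
  have hL : ∀ t : H ⊗[k] H, act₂ (M.tensor N) L t =
      L3 (TensorProduct.map Coalgebra.comul LinearMap.id t) := by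
    intro t
    induction t with
    | zero => simp
    | tmul a b =>
      rw [act₂_tmul]
      rfl
    | add x y hx hy => rw [map_add, map_add, map_add, hx, hy]
  have hR : ∀ t : H ⊗[k] H, act₂ M (N.tensor L) t =
      R3 (TensorProduct.map LinearMap.id Coalgebra.comul t) := by
    intro t
    induction t with
    | zero => simp
    | tmul a b =>
      rw [act₂_tmul]
      rfl
    | add x y hx hy => rw [map_add, map_add, map_add, hx, hy]
  have hLR : ∀ t : (H ⊗[k] H) ⊗[k] H, e ∘ₗ L3 t = R3 (TensorProduct.assoc k H H H t) ∘ₗ e := by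
    intro t
    induction t with
    | zero => simp
    | tmul a b =>
      induction a with
      | zero => simp
      | tmul a c =>
        apply TensorProduct.ext
        apply TensorProduct.ext'
        intro x y
        ext z
        simp only [L3, R3, LinearMap.comp_apply, TensorProduct.map_tmul, AlgHom.toLinearMap_apply,
          TensorProduct.assoc_tmul, act₂_tmul, he]
        rfl
      | add x y hx hy =>
        rw [TensorProduct.add_tmul, map_add, map_add, map_add, LinearMap.comp_add,
          LinearMap.add_comp, hx, hy]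
    | add x y hx hy =>
      rw [map_add, map_add, map_add, LinearMap.comp_add, LinearMap.add_comp, hx, hy]
  intro a m
  have h1 := LinearMap.congr_fun (hLR (TensorProduct.map Coalgebra.comul LinearMap.id
    (Coalgebra.comul a))) m
  have h2 : TensorProduct.assoc k H H H (TensorProduct.map Coalgebra.comul LinearMap.id
    (Coalgebra.comul a)) = TensorProduct.map LinearMap.id Coalgebra.comul (Coalgebra.comul a) :=
    Coalgebra.coassoc_apply a
  rw [h2] at h1
  rw [tensor_act, tensor_act, hL, hR]
  exact h1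

theorem isHom_lid (M : FinRep k H) :
    IsHom ((FinRep.unit k H).tensor M) M (TensorProduct.lid k M.V).toLinearMap := by
  have key : ∀ t : H ⊗[k] H, (TensorProduct.lid k M.V).toLinearMap ∘ₗ
      act₂ (FinRep.unit k H) M t = M.act (TensorProduct.lid k H
        (TensorProduct.map Coalgebra.counit LinearMap.id t)) ∘ₗ
        (TensorProduct.lid k M.V).toLinearMap := by
    intro t
    induction t with
    | zero => simp
    | tmul a b =>
      rw [act₂_tmul]
      apply TensorProduct.ext'
      intro x y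
      simp only [LinearMap.comp_apply, TensorProduct.map_tmul, LinearEquiv.coe_coe,
        TensorProduct.lid_tmul, LinearMap.id_apply, map_smul, LinearMap.smul_apply]
      have : ((FinRep.unit k H).act a x : k) = Coalgebra.counit (R := k) a * x := rfl
      rw [this, mul_smul, smul_comm]
    | add x y hx hy =>
      rw [map_add, map_add, map_add, map_add, LinearMap.comp_add, LinearMap.add_comp, hx, hy]
  intro a m
  have h1 := LinearMap.congr_fun (key (Coalgebra.comul a)) m
  have h2 : TensorProduct.map (Coalgebra.counit (R := k) (A := H)) LinearMap.id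
      (Coalgebra.comul a) = (1 : k) ⊗ₜ[k] a := Coalgebra.rTensor_counit_comul a
  rw [h2, TensorProduct.lid_tmul, one_smul] at h1
  rw [tensor_act]
  exact h1

theorem unit_tensor_iso (M : FinRep k H) :
    IsSummand ((FinRep.unit k H).tensor M) M ∧ IsSummand M ((FinRep.unit k H).tensor M) :=
  isSummand_of_equiv (TensorProduct.lid k M.V) (isHom_lid M)

theorem assoc_iso (M N L : FinRep k H) :
    IsSummand ((M.tensor N).tensor L) (M.tensor (N.tensor L)) ∧
      IsSummand (M.tensor (N.tensor L)) ((M.tensor N).tensor L) :=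
  isSummand_of_equiv (TensorProduct.assoc k M.V N.V L.V) (isHom_assoc M N L)

theorem IsSummand.tensor_right {M M' : FinRep k H} (h : IsSummand M M') (N : FinRep k H) :
    IsSummand (M.tensor N) (M'.tensor N) := by
  obtain ⟨i, r, hi, hr, hri⟩ := h
  refine ⟨TensorProduct.map i LinearMap.id, TensorProduct.map r LinearMap.id,
    isHom_map hi (isHom_id N), isHom_map hr (isHom_id N), ?_⟩
  rw [← TensorProduct.map_comp, hri, LinearMap.comp_id, TensorProduct.map_id]

theorem IsSummand.tensor_left {M M' : FinRep k H} (h : IsSummand M M') (N : FinRep k H) :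
    IsSummand (N.tensor M) (N.tensor M') := by
  obtain ⟨i, r, hi, hr, hri⟩ := h
  refine ⟨TensorProduct.map LinearMap.id i, TensorProduct.map LinearMap.id r,
    isHom_map (isHom_id N) hi, isHom_map (isHom_id N) hr, ?_⟩
  rw [← TensorProduct.map_comp, hri, LinearMap.comp_id, TensorProduct.map_id]

theorem ShortExact.tensor_right {A B C : FinRep k H} (h : ShortExact A B C) (N : FinRep k H) :
    ShortExact (A.tensor N) (B.tensor N) (C.tensor N) := by
  obtain ⟨i, p, hi, hp, hi1, hp1, hip⟩ := h
  refine ⟨TensorProduct.map i LinearMap.id, TensorProduct.map p LinearMap.id,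
    isHom_map hi (isHom_id N), isHom_map hp (isHom_id N), ?_, ?_, ?_⟩
  · exact Module.Flat.rTensor_preserves_injective_linearMap (M := N.V) i hi1
  · exact LinearMap.rTensor_surjective N.V hp1
  · have hex : Function.Exact i p := by
      rw [LinearMap.exact_iff]; exact hip.symm
    have := rTensor_exact N.V hex hp1
    rw [LinearMap.exact_iff] at this
    exact this.symm

theorem ShortExact.tensor_left {A B C : FinRep k H} (h : ShortExact A B C) (N : FinRep k H) :
    ShortExact (N.tensor A) (N.tensor B) (N.tensor C) := by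
  obtain ⟨i, p, hi, hp, hi1, hp1, hip⟩ := h
  refine ⟨TensorProduct.map LinearMap.id i, TensorProduct.map LinearMap.id p,
    isHom_map (isHom_id N) hi, isHom_map (isHom_id N) hp, ?_, ?_, ?_⟩
  · exact Module.Flat.lTensor_preserves_injective_linearMap (M := N.V) i hi1
  · exact LinearMap.lTensor_surjective N.V hp1
  · have hex : Function.Exact i p := by
      rw [LinearMap.exact_iff]; exact hip.symm
    have := lTensor_exact N.V hex hp1
    rw [LinearMap.exact_iff] at this
    exact this.symm

end FinRep

theorem IsThickIdeal.all_of_unit {I : FinRep k H → Prop} (hI : IsThickIdeal I)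
    (h : I (FinRep.unit k H)) (M : FinRep k H) : I M :=
  hI.summand _ _ (unit_tensor_iso M).2 (hI.tensor_right _ _ h)

/-- Every proper thick tensor ideal is contained in a prime one. -/
theorem exists_prime {I : FinRep k H → Prop} (hI : IsThickIdeal I)
    (hu : ¬ I (FinRep.unit k H)) : ∃ P : Spc k H, ∀ M, I M → P.1 M := by
  let S : Set (Set (FinRep k H)) := {J | IsThickIdeal (fun M => M ∈ J) ∧ FinRep.unit k H ∉ J}
  have hz : ∃ m, {M | I M} ⊆ m ∧ Maximal (fun x => x ∈ S) m := by
    apply zorn_subset_nonempty S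
    · intro c hc hchain hne
      obtain ⟨J0, hJ0⟩ := hne
      refine ⟨⋃₀ c, ⟨?_, ?_⟩, fun s hs => Set.subset_sUnion_of_mem hs⟩
      · have two : ∀ A B : FinRep k H, A ∈ ⋃₀ c → B ∈ ⋃₀ c → ∃ J ∈ c, A ∈ J ∧ B ∈ J := by
          rintro A B ⟨J1, hJ1, hA⟩ ⟨J2, hJ2, hB⟩
          rcases hchain.total hJ1 hJ2 with h | h
          · exact ⟨J2, hJ2, h hA, hB⟩
          · exact ⟨J1, hJ1, hA, h hB⟩
        refine ⟨?_, ?_, ?_, ?_, ?_, ?_, ?_⟩
        · intro P hP
          exact ⟨J0, hJ0, (hc hJ0).1.proj P hP⟩
        · rintro M N hMN ⟨J, hJ, hN⟩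
          exact ⟨J, hJ, (hc hJ).1.summand M N hMN hN⟩
        · intro A B C hs hA hB
          obtain ⟨J, hJ, h1, h2⟩ := two A B hA hB
          exact ⟨J, hJ, (hc hJ).1.quot A B C hs h1 h2⟩
        · intro A B C hs hA hB
          obtain ⟨J, hJ, h1, h2⟩ := two A C hA hB
          exact ⟨J, hJ, (hc hJ).1.ext A B C hs h1 h2⟩
        · intro A B C hs hA hB
          obtain ⟨J, hJ, h1, h2⟩ := two B C hA hB
          exact ⟨J, hJ, (hc hJ).1.sub A B C hs h1 h2⟩
        · rintro M N ⟨J, hJ, hN⟩
          exact ⟨J, hJ, (hc hJ).1.tensor_left M N hN⟩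
        · rintro M N ⟨J, hJ, hN⟩
          exact ⟨J, hJ, (hc hJ).1.tensor_right M N hN⟩
      · rintro ⟨J, hJ, h⟩
        exact (hc hJ).2 h
    · exact ⟨hI, hu⟩
  obtain ⟨m, hIm, hm⟩ := hz
  have hmI : IsThickIdeal (fun M => M ∈ m) := hm.prop.1
  have hmu : FinRep.unit k H ∉ m := hm.prop.2
  refine ⟨⟨fun M => M ∈ m, hmI, ⟨_, hmu⟩, ?_⟩, fun M hM => hIm hM⟩
  intro A B hAB
  by_contra hcon
  push Not at hcon
  obtain ⟨hA, hB⟩ := hcon
  -- the ideal of all `X` with `X ⊗ C ⊗ B ∈ m` for all `C`
  let T : Set (FinRep k H) := {X | ∀ C : FinRep k H, (X.tensor C).tensor B ∈ m}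
  have hT : IsThickIdeal (fun M => M ∈ T) := by
    refine ⟨?_, ?_, ?_, ?_, ?_, ?_, ?_⟩
    · intro P hP C
      exact hmI.tensor_right _ _ (hmI.tensor_right _ _ (hmI.proj P hP))
    · intro M N hMN hN C
      exact hmI.summand _ _ ((hMN.tensor_right C).tensor_right B) (hN C)
    · intro X Y Z hs hX hY C
      exact hmI.quot _ _ _ ((hs.tensor_right C).tensor_right B) (hX C) (hY C)
    · intro X Y Z hs hX hY C
      exact hmI.ext _ _ _ ((hs.tensor_right C).tensor_right B) (hX C) (hY C)
    · intro X Y Z hs hX hY C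
      exact hmI.sub _ _ _ ((hs.tensor_right C).tensor_right B) (hX C) (hY C)
    · intro M N hN C
      have h1 : (M.tensor ((N.tensor C).tensor B)) ∈ m := hmI.tensor_left _ _ (hN C)
      have h2 : ((M.tensor (N.tensor C)).tensor B) ∈ m :=
        hmI.summand _ _ (assoc_iso M (N.tensor C) B).1 h1
      exact hmI.summand _ _ ((assoc_iso M N C).1.tensor_right B) h2
    · intro M N hM C
      have h1 : ((M.tensor (N.tensor C)).tensor B) ∈ m := hM (N.tensor C)
      exact hmI.summand _ _ ((assoc_iso M N C).1.tensor_right B) h1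
  have hmT : m ⊆ T := fun X hX C => hmI.tensor_right _ _ (hmI.tensor_right _ _ hX)
  have huT : FinRep.unit k H ∈ T := by
    by_contra hnu
    have := hm.eq_of_subset ⟨hT, hnu⟩ hmT
    exact hA (this ▸ hAB)
  have h1 := huT (FinRep.unit k H)
  have h2 : (FinRep.unit k H).tensor B ∈ m :=
    hmI.summand _ _ ((unit_tensor_iso (FinRep.unit k H)).2.tensor_right B) h1
  exact hB (hmI.summand _ _ (unit_tensor_iso B).2 h2)

end Tensor

end Pool.Agent.Lib.MP_868e2f_al
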