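import Pool.Agent.Lib.MP_868e2f_al.Reducible

/-! The Hopf algebra `H32` is not representation-finite. -/

namespace Pool.Agent.Lib.MP_868e2f_al

universe u

open FinRep

variable {k : Type u} [Field k]

theorem datum_b (c : k) :
    Datum (!![1, 0, 0, 0; 0, -1, 0, 0; 0, 0, -1, 0; 0, 0, 0, 1] : Matrix (Fin 4) (Fin 4) k)
      !![1, 0, 0, 0; 0, 1, 0, 0; 0, 0, -1, 0; 0, 0, 0, -1]
      !![0, 0, 0, 0; 0, 0, 0, 0; 1, 0, 0, 0; 0, 1, 0, 0]
      !![0, 0, 0, 0; 0, 0, 0, 0; 0, 1, 0, 0; c, 0, 0, 0] := by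
  refine ⟨?_, ?_, ?_, ?_, ?_, ?_, ?_, ?_, ?_, ?_⟩ <;>
  · ext i j
    fin_cases i <;> fin_cases j <;> simp [Matrix.mul_apply, Fin.sum_univ_succ]

/-- the band module with parameter `c` -/
noncomputable abbrev bandRep (c : k) : FinRep k (H32 k) := mrep (datum_b c)

theorem toMatrix_of_isHom {n m : ℕ} {G K X Y : Matrix (Fin n) (Fin n) k} (d : Datum G K X Y)
    {G' K' X' Y' : Matrix (Fin m) (Fin m) k} (d' : Datum G' K' X' Y')
    (f : (Fin n → k) →ₗ[k] (Fin m → k)) (hf : IsHom (mrep d) (mrep d') f) (i : Gen) :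
    LinearMap.toMatrix' f * genFun G K X Y i = genFun G' K' X' Y' i * LinearMap.toMatrix' f := by
  apply Matrix.toLin'.injective
  rw [Matrix.toLin'_mul, Matrix.toLin'_mul, Matrix.toLin'_toMatrix']
  apply LinearMap.ext
  intro v
  have := hf (gen k i) v
  rw [mrep_act, mrep_act] at this
  simpa using this

theorem band_hom (h2 : (2 : k) ≠ 0) (c c' : k) (f : (Fin 4 → k) →ₗ[k] (Fin 4 → k))
    (hf : IsHom (bandRep c) (bandRep c') f) :
    ∃ a : k, (∀ v, f v = a • v) ∧ a * c = a * c' := by
  set F := LinearMap.toMatrix' f with hF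
  have hG := toMatrix_of_isHom (datum_b c) (datum_b c') f hf Gen.g
  have hK := toMatrix_of_isHom (datum_b c) (datum_b c') f hf Gen.h
  have hX := toMatrix_of_isHom (datum_b c) (datum_b c') f hf Gen.x
  have hY := toMatrix_of_isHom (datum_b c) (datum_b c') f hf Gen.y
  rw [← hF] at hG hK hX hY
  simp only [genFun] at hG hK hX hY
  have zero_of : ∀ z : k, z = -z → z = 0 := by
    intro z hz
    have h3 : (2 : k) * z = 0 := by rw [two_mul]; nth_rewrite 1 [hz]; ring
    exact (mul_eq_zero.mp h3).resolve_left h2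
  have zero_of' : ∀ z : k, -z = z → z = 0 := fun z hz => zero_of z hz.symm
  have g01 := congrFun (congrFun hG 0) 1
  have g02 := congrFun (congrFun hG 0) 2
  have g10 := congrFun (congrFun hG 1) 0
  have g13 := congrFun (congrFun hG 1) 3
  have g20 := congrFun (congrFun hG 2) 0
  have g23 := congrFun (congrFun hG 2) 3
  have g31 := congrFun (congrFun hG 3) 1
  have g32 := congrFun (congrFun hG 3) 2
  have k03 := congrFun (congrFun hK 0) 3
  have k12 := congrFun (congrFun hK 1) 2
  have k21 := congrFun (congrFun hK 2) 1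
  have k30 := congrFun (congrFun hK 3) 0
  have x20 := congrFun (congrFun hX 2) 0
  have x31 := congrFun (congrFun hX 3) 1
  have y21 := congrFun (congrFun hY 2) 1
  have y30 := congrFun (congrFun hY 3) 0
  simp [Matrix.mul_apply, Fin.sum_univ_succ] at g01 g02 g10 g13 g20 g23 g31 g32 k03 k12 k21 k30
  simp [Matrix.mul_apply, Fin.sum_univ_succ] at x20 x31 y21 y30
  have e01 := zero_of' _ g01
  have e02 := zero_of' _ g02
  have e03 := zero_of' _ k03
  have e10 := zero_of _ g10
  have e12 := zero_of' _ k12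
  have e13 := zero_of _ g13
  have e20 := zero_of _ g20
  have e21 := zero_of _ k21
  have e23 := zero_of _ g23
  have e30 := zero_of _ k30
  have e31 := zero_of' _ g31
  have e32 := zero_of' _ g32
  have e11 : F 1 1 = F 0 0 := by rw [← y21, x20]
  have e33 : F 3 3 = F 0 0 := by rw [x31, e11]
  refine ⟨F 0 0, ?_, ?_⟩
  · intro v
    have hv : f v = F.mulVec v := by
      rw [hF, LinearMap.toMatrix'_mulVec]
    rw [hv]
    ext i
    fin_cases i
    · simp [Matrix.mulVec, dotProduct, Fin.sum_univ_succ, e01, e02, e03]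
    · simp [Matrix.mulVec, dotProduct, Fin.sum_univ_succ, e10, e12, e13, e11]
    · simp [Matrix.mulVec, dotProduct, Fin.sum_univ_succ, e20, e21, e23, x20]
    · simp [Matrix.mulVec, dotProduct, Fin.sum_univ_succ, e30, e31, e32, e33]
  · rw [e33] at y30
    rw [y30, mul_comm]

theorem band_indec (h2 : (2 : k) ≠ 0) (c : k) : (bandRep c).IsIndecomposable := by
  refine ⟨inferInstanceAs (Nontrivial (Fin 4 → k)), ?_⟩
  intro A B hA hB hAB
  have hp : IsHom (bandRep c) (bandRep c) (A.subtype ∘ₗ A.projectionOnto B hAB) := by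
    intro a m
    obtain ⟨x, hx, y, hy, rfl⟩ : ∃ x ∈ A, ∃ y ∈ B, x + y = m := by
      have : m ∈ A ⊔ B := by rw [hAB.sup_eq_top]; trivial
      exact Submodule.mem_sup.mp this
    have e1 : ∀ z ∈ A, (A.subtype ∘ₗ A.projectionOnto B hAB) z = z := by
      intro z hz
      have := Submodule.projectionOnto_apply_left hAB ⟨z, hz⟩
      simp only [LinearMap.comp_apply] at *
      rw [this]
      rfl
    have e2 : ∀ z ∈ B, (A.subtype ∘ₗ A.projectionOnto B hAB) z = 0 := by
      intro z hz
      have := (Submodule.projectionOnto_apply_eq_zero_iff hAB (x := z)).mpr hz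
      simp only [LinearMap.comp_apply]
      rw [this, map_zero]
    rw [map_add, map_add, map_add, map_add, e1 _ hx, e2 _ hy, e1 _ (hA a x hx), e2 _ (hB a y hy),
      map_zero]
  obtain ⟨a, ha, -⟩ := band_hom h2 c c _ hp
  by_cases h0 : a = 0
  · left
    rw [eq_bot_iff]
    intro z hz
    have h1 := ha z
    have h3 := Submodule.projectionOnto_apply_left hAB ⟨z, hz⟩
    simp only [LinearMap.comp_apply] at h1 h3
    rw [h3, h0, zero_smul] at h1
    exact h1
  · right
    rw [eq_bot_iff]
    intro z hz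
    have h1 := ha z
    have h3 := (Submodule.projectionOnto_apply_eq_zero_iff hAB (x := z)).mpr hz
    simp only [LinearMap.comp_apply] at h1
    rw [h3, map_zero] at h1
    rcases smul_eq_zero.mp h1.symm with h4 | h4
    · exact absurd h4 h0
    · exact h4

theorem band_iso (h2 : (2 : k) ≠ 0) (c c' : k) (E : FinRep k (H32 k)) (h : Iso (bandRep c) E)
    (h' : Iso (bandRep c') E) : c = c' := by
  obtain ⟨f, hf, hfb⟩ := h
  obtain ⟨f', hf', hfb'⟩ := h'
  let e' := LinearEquiv.ofBijective f' hfb'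
  have he' : IsHom E (bandRep c') e'.symm.toLinearMap :=
    IsHom.inv (f := f') hf' (fun x => e'.symm_apply_apply x) (fun x => e'.apply_symm_apply x)
  obtain ⟨a, ha, hac⟩ := band_hom h2 c c' _ (hf.comp he')
  have h0 : a ≠ 0 := by
    rintro rfl
    have h1 := ha (Pi.single 0 1)
    rw [zero_smul] at h1
    have h3 : f (Pi.single 0 1) = 0 := by
      have := congrArg e' h1
      simpa using this
    have h4 : (Pi.single 0 1 : Fin 4 → k) = 0 := by
      apply hfb.1
      rw [h3, map_zero]
    have h5 := congrFun h4 0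
    simp at h5
  exact mul_left_cancel₀ h0 hac

theorem not_repFinite (h2 : (2 : k) ≠ 0) [Infinite k] : ¬ IsRepFinite k (H32 k) := by
  rintro ⟨L, hL⟩
  choose E hE hiso using fun c : k => hL (bandRep c) (band_indec h2 c)
  have hfin : Finite {x // x ∈ L} := L.finite_toSet
  obtain ⟨c, c', hne, heq⟩ := Finite.exists_ne_map_eq_of_infinite
    (fun c : k => (⟨E c, hE c⟩ : {x // x ∈ L}))
  have heq' : E c = E c' := congrArg Subtype.val heq
  exact hne (band_iso h2 c c' (E c) (hiso c) (heq' ▸ hiso c'))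

end Pool.Agent.Lib.MP_868e2f_al
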