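import Mathlib

/-! Linear algebra: solving `T r - c r = z` for shift operators, lifting nilpotent chains, and
Jordan chains. -/

namespace Pool.Agent.Lib.MP_868e2f_al

section Shift

variable {k E : Type*} [Field k] [AddCommGroup E] [Module k E]

theorem shift_solve_pos (𝒮 : Submodule k (ℤ → E)) (L : ℤ)
    (hs : ∀ z ∈ 𝒮, (fun n => z (n + L)) ∈ 𝒮) (Am : Submodule k E)
    (hA : ∀ z ∈ 𝒮, z 0 ∈ Am → z L ∈ Am) (c : k) (hc : c ≠ 0) (i : ℕ) :
    ∀ z ∈ 𝒮, z 0 ∈ Am → z (i * L) = 0 → ∃ r ∈ 𝒮, r 0 ∈ Am ∧ r L - c • r 0 = z 0 := by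
  induction i with
  | zero =>
    intro z _ _ h0
    have h1 : z 0 = 0 := by simpa using h0
    exact ⟨0, Submodule.zero_mem _, Submodule.zero_mem _, by simp [h1]⟩
  | succ i ih =>
    intro z hz hz0 h0
    obtain ⟨r, hr, hr0, hrL⟩ := ih (fun n => z (n + L)) (hs z hz)
      (by simpa using hA z hz hz0)
      (by
        have e : (i : ℤ) * L + L = ((i + 1 : ℕ) : ℤ) * L := by push_cast; ring
        change z ((i : ℤ) * L + L) = 0
        rw [e]; exact h0)
    rw [zero_add] at hrL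
    refine ⟨c⁻¹ • (r - z), Submodule.smul_mem _ _ (Submodule.sub_mem _ hr hz),
      Submodule.smul_mem _ _ (Submodule.sub_mem _ hr0 hz0), ?_⟩
    simp only [Pi.smul_apply, Pi.sub_apply]
    have h1 : r L = z L + c • r 0 := by rw [← hrL]; abel
    rw [h1, smul_smul, mul_inv_cancel₀ hc, one_smul, smul_sub, smul_add, smul_smul,
      inv_mul_cancel₀ hc, one_smul]
    abel

theorem shift_solve_neg (𝒮 : Submodule k (ℤ → E)) (L : ℤ)
    (hs : ∀ z ∈ 𝒮, (fun n => z (n - L)) ∈ 𝒮) (Am : Submodule k E)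
    (hA : ∀ z ∈ 𝒮, z 0 ∈ Am → z (-L) ∈ Am) (c : k) (i : ℕ) :
    ∀ z ∈ 𝒮, z 0 ∈ Am → z (-(i * L)) = 0 → ∃ r ∈ 𝒮, r 0 ∈ Am ∧ r L - c • r 0 = z 0 := by
  induction i with
  | zero =>
    intro z _ _ h0
    have h1 : z 0 = 0 := by simpa using h0
    exact ⟨0, Submodule.zero_mem _, Submodule.zero_mem _, by simp [h1]⟩
  | succ i ih =>
    intro z hz hz0 h0
    have hzL : z (-L) ∈ Am := hA z hz hz0
    obtain ⟨r, hr, hr0, hrL⟩ := ih (fun n => z (n - L)) (hs z hz)
      (by simpa using hzL)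
      (by
        have e : -((i : ℤ) * L) - L = -(((i + 1 : ℕ) : ℤ) * L) := by push_cast; ring
        change z (-((i : ℤ) * L) - L) = 0
        rw [e]; exact h0)
    rw [zero_sub] at hrL
    refine ⟨(fun n => z (n - L)) + c • r,
      Submodule.add_mem _ (hs z hz) (Submodule.smul_mem _ _ hr), ?_, ?_⟩
    · simp only [Pi.add_apply, Pi.smul_apply, zero_sub]
      exact Submodule.add_mem _ hzL (Submodule.smul_mem _ _ hr0)
    · simp only [Pi.add_apply, Pi.smul_apply, sub_self, zero_sub]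
      have h1 : r L = z (-L) + c • r 0 := by rw [← hrL]; abel
      rw [h1, smul_add, add_sub_cancel_right]

end Shift

section Lift

variable {k R U G : Type*} [Field k] [AddCommGroup R] [Module k R] [AddCommGroup U] [Module k U]
  [AddCommGroup G] [Module k G]

/-- Lifting of chains. -/
theorem lift_chain (s t : R →ₗ[k] U) (π : U →ₗ[k] G) (T : Module.End k G) (c : k)
    (hs : Function.Surjective s) (hT : ∀ r, T (π (s r)) = π (t r))
    (hK : ∀ u, π u = 0 → ∃ r, π (s r) = 0 ∧ t r - c • s r = u) (e : ℕ) :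
    ∀ u : U, ((T - c • (1 : Module.End k G)) ^ e) (π u) = 0 →
      ∃ r : ℕ → R, (∀ i, t (r i) - c • s (r i) = s (r (i + 1))) ∧ (∀ i, e ≤ i → r i = 0) ∧
        π (s (r 0)) = π u := by
  induction e with
  | zero =>
    intro u hu
    rw [pow_zero, Module.End.one_apply] at hu
    exact ⟨fun _ => 0, fun i => by simp, fun _ _ => rfl, by simp [hu]⟩
  | succ e ih =>
    intro u hu
    obtain ⟨r0, rfl⟩ := hs u
    have h1 : ((T - c • (1 : Module.End k G)) ^ e) (π (t r0 - c • s r0)) = 0 := by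
      have h2 : π (t r0 - c • s r0) = (T - c • (1 : Module.End k G)) (π (s r0)) := by
        rw [LinearMap.sub_apply, LinearMap.smul_apply, Module.End.one_apply, map_sub, map_smul, hT]
      rw [h2, ← Module.End.mul_apply, ← pow_succ]
      exact hu
    obtain ⟨r, hr1, hr2, hr3⟩ := ih _ h1
    obtain ⟨r', hr', hr''⟩ := hK (s (r 0) - (t r0 - c • s r0)) (by
      rw [map_sub, hr3, sub_self])
    refine ⟨fun n => Nat.casesOn n (r0 + r') (fun m => r m), ?_, ?_, ?_⟩
    · intro i
      cases i with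
      | zero =>
        change t (r0 + r') - c • s (r0 + r') = s (r 0)
        rw [map_add, map_add, smul_add]
        have h3 : t r0 + t r' - (c • s r0 + c • s r') =
            (t r' - c • s r') + (t r0 - c • s r0) := by abel
        rw [h3, hr'']
        abel
      | succ i => exact hr1 i
    · intro i hi
      cases i with
      | zero => omega
      | succ i => exact hr2 i (by omega)
    · change π (s (r0 + r')) = π (s r0)
      rw [map_add, map_add, hr', add_zero]

end Lift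

section Jordan

variable {k G : Type*} [Field k] [AddCommGroup G] [Module k G]

theorem exists_dual_one (W : Submodule k G) (x : G) (hx : x ∉ W) :
    ∃ ψ : Module.Dual k G, ψ x = 1 ∧ ∀ w ∈ W, ψ w = 0 := by
  have h1 : W.mkQ x ≠ 0 := fun h => hx ((Submodule.Quotient.mk_eq_zero W).mp h)
  obtain ⟨φ, hφ⟩ : ∃ φ : Module.Dual k (G ⧸ W), φ (W.mkQ x) ≠ 0 := by
    by_contra hcon
    push Not at hcon
    exact h1 ((Module.forall_dual_apply_eq_zero_iff k _).mp hcon)
  refine ⟨(φ (W.mkQ x))⁻¹ • (φ ∘ₗ W.mkQ), ?_, ?_⟩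
  · rw [LinearMap.smul_apply, LinearMap.comp_apply, smul_eq_mul, inv_mul_cancel₀ hφ]
  · intro w hw
    have : W.mkQ w = 0 := (Submodule.Quotient.mk_eq_zero W).mpr hw
    rw [LinearMap.smul_apply, LinearMap.comp_apply, this, map_zero, smul_zero]

/-- A Jordan chain with a dual functional. -/
theorem exists_jordan [FiniteDimensional k G] (N : Module.End k G) (v : G) (hv : v ≠ 0)
    (hN : N v = 0) :
    ∃ (e : ℕ) (q : G) (ψ : Module.Dual k G), (N ^ (e + 1)) q = 0 ∧ ψ ((N ^ e) q) = 1 ∧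
      ∀ g, ψ ((N ^ (e + 1)) g) = 0 := by
  have hex : ∃ n : ℕ, LinearMap.ker (N ^ n) = LinearMap.ker (N ^ (n + 1)) := by
    obtain ⟨n, hn⟩ := Module.End.exists_ker_pow_eq_ker_pow_succ N
    exact ⟨n, hn.2⟩
  classical
  obtain ⟨hspec, hmin⟩ : LinearMap.ker (N ^ (Nat.find hex)) =
      LinearMap.ker (N ^ (Nat.find hex + 1)) ∧
      ∀ m < Nat.find hex, ¬ LinearMap.ker (N ^ m) = LinearMap.ker (N ^ (m + 1)) :=
    ⟨Nat.find_spec hex, fun m hm => Nat.find_min hex hm⟩
  generalize Nat.find hex = n at hspec hmin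
  cases n with
  | zero =>
    exfalso
    rw [pow_zero, zero_add, pow_one] at hspec
    have : v ∈ LinearMap.ker (1 : Module.End k G) := by rw [hspec]; exact hN
    exact hv this
  | succ e =>
    have h1 := hmin e (Nat.lt_succ_self e)
    have hle : LinearMap.ker (N ^ e) ≤ LinearMap.ker (N ^ (e + 1)) := by
      intro x hx
      rw [LinearMap.mem_ker] at hx ⊢
      rw [pow_succ', Module.End.mul_apply, hx, map_zero]
    obtain ⟨q, hq, hq'⟩ := SetLike.exists_of_lt (lt_of_le_of_ne hle h1)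
    rw [LinearMap.mem_ker] at hq hq'
    have hx : (N ^ e) q ∉ LinearMap.range (N ^ (e + 1)) := by
      rintro ⟨g, hg⟩
      have h2 : g ∈ LinearMap.ker (N ^ (e + 1 + 1)) := by
        rw [LinearMap.mem_ker, pow_succ', Module.End.mul_apply, hg, ← Module.End.mul_apply,
          ← pow_succ']
        exact hq
      rw [← hspec, LinearMap.mem_ker, hg] at h2
      exact hq' h2
    obtain ⟨ψ, hψ1, hψ2⟩ := exists_dual_one _ _ hx
    exact ⟨e, q, ψ, hq, hψ1, fun g => hψ2 _ ⟨g, rfl⟩⟩

/-- Factor a map through a surjection. -/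
theorem exists_factor {Z : Type*} [AddCommGroup Z] [Module k Z] (f g : Z →ₗ[k] G)
    (hf : Function.Surjective f) (h : ∀ z, f z = 0 → g z = 0) :
    ∃ T : Module.End k G, ∀ z, T (f z) = g z := by
  refine ⟨(LinearMap.ker f).liftQ g h ∘ₗ (f.quotKerEquivOfSurjective hf).symm.toLinearMap, ?_⟩
  intro z
  have h1 : (f.quotKerEquivOfSurjective hf).symm (f z) = Submodule.Quotient.mk z := by
    rw [LinearEquiv.symm_apply_eq]
    rfl
  rw [LinearMap.comp_apply, LinearEquiv.coe_coe, h1]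
  rfl

end Jordan

end Pool.Agent.Lib.MP_868e2f_al
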