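import Pool.Agent.Lib.MP_868e2f_al.Defs

/-! The projective line is irreducible. -/

namespace Pool.Agent.Lib.MP_868e2f_al

open MvPolynomial

universe u

variable (k : Type u) [Field k]

attribute [local instance] MvPolynomial.gradedAlgebra

/-- The generic point of the projective line. -/
noncomputable def genericPt : ProjLine k where
  asHomogeneousIdeal := ⊥
  isPrime := by
    rw [HomogeneousIdeal.toIdeal_bot]
    exact Ideal.isPrime_bot
  not_irrelevant_le := by
    intro h
    have hX : (X 0 : MvPolynomial (Fin 2) k) ∈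
        (HomogeneousIdeal.irrelevant (MvPolynomial.homogeneousSubmodule (Fin 2) k)) := by
      rw [HomogeneousIdeal.mem_irrelevant_iff]
      rw [GradedRing.proj_apply]
      have h1 : (X 0 : MvPolynomial (Fin 2) k) ∈
          MvPolynomial.homogeneousSubmodule (Fin 2) k 1 := by
        rw [mem_homogeneousSubmodule]
        exact isHomogeneous_X k 0
      rw [DirectSum.decompose_of_mem_ne _ h1 (by norm_num)]
    have h2 := h hX
    have h3 : (X 0 : MvPolynomial (Fin 2) k) = 0 := by
      have h4 : (X 0 : MvPolynomial (Fin 2) k) ∈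
          (⊥ : HomogeneousIdeal (MvPolynomial.homogeneousSubmodule (Fin 2) k)).toIdeal := h2
      rw [HomogeneousIdeal.toIdeal_bot] at h4
      exact h4
    exact X_ne_zero (R := k) (0 : Fin 2) h3

theorem genericPt_mem (U : Set (ProjLine k))
    (hU : IsOpen U) (hne : U.Nonempty) : genericPt k ∈ U := by
  obtain ⟨x, hx⟩ := hne
  have h1 : genericPt k ≤ x := by
    change (⊥ : HomogeneousIdeal (MvPolynomial.homogeneousSubmodule (Fin 2) k)) ≤ _
    exact bot_le
  rw [ProjectiveSpectrum.le_iff_mem_closure] at h1
  rw [mem_closure_iff] at h1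
  obtain ⟨y, hy1, hy2⟩ := h1 U hU hx
  rw [Set.mem_singleton_iff] at hy2
  rwa [hy2] at hy1

/-- Two nonempty open subsets of the projective line meet. -/
theorem projLine_inter (U V : Set (ProjLine k))
    (hU : IsOpen U) (hV : IsOpen V) (hUn : U.Nonempty) (hVn : V.Nonempty) :
    (U ∩ V).Nonempty :=
  ⟨genericPt k, genericPt_mem k U hU hUn, genericPt_mem k V hV hVn⟩

end Pool.Agent.Lib.MP_868e2f_al
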