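import Pool.Agent.Lib.MP_868e2f_al.Acyclic
import Pool.Agent.Lib.MP_868e2f_al.AlgFin
import Pool.Agent.Lib.MP_868e2f_al.ProjLine

/-! The spectrum of the stable category of the Hopf algebra `H32` is not irreducible. -/

namespace Pool.Agent.Lib.MP_868e2f_al

universe u

open scoped TensorProduct
open FinRep

variable {k : Type u} [Field k]

/-- representation given by matrices -/
noncomputable abbrev mrep {n : ℕ} {G K X Y : Matrix (Fin n) (Fin n) k} (d : Datum G K X Y) :
    FinRep k (H32 k) where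
  V := Fin n → k
  act := (Matrix.toLinAlgEquiv' (R := k) (n := Fin n)).toAlgHom.comp d.lift

theorem mrep_act {n : ℕ} {G K X Y : Matrix (Fin n) (Fin n) k} (d : Datum G K X Y) (i : Gen)
    (v : Fin n → k) : (mrep d).act (gen k i) v = (genFun G K X Y i).mulVec v := by
  change (Matrix.toLinAlgEquiv' (R := k) (n := Fin n)) (d.lift (gen k i)) v = _
  rw [Datum.lift_gen]
  rfl

theorem isHom_of_gen {M N : FinRep k (H32 k)} (f : M.V →ₗ[k] N.V)
    (h : ∀ i m, f (M.act (gen k i) m) = N.act (gen k i) (f m)) : IsHom M N f := by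
  intro a
  induction a using H32.induction with
  | hr r => intro m; rw [AlgHom.commutes, AlgHom.commutes]; simp
  | hg i => exact h i
  | hmul a b ha hb =>
    intro m
    rw [map_mul, map_mul, Module.End.mul_apply, Module.End.mul_apply, ha, hb]
  | hadd a b ha hb =>
    intro m
    rw [map_add, map_add, LinearMap.add_apply, LinearMap.add_apply, map_add, ha, hb]

theorem isHom_mrep {n m : ℕ} {G K X Y : Matrix (Fin n) (Fin n) k} (d : Datum G K X Y)
    {G' K' X' Y' : Matrix (Fin m) (Fin m) k} (d' : Datum G' K' X' Y')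
    (F : Matrix (Fin m) (Fin n) k) (h1 : F * G = G' * F) (h2 : F * K = K' * F)
    (h3 : F * X = X' * F) (h4 : F * Y = Y' * F) : IsHom (mrep d) (mrep d') (Matrix.toLin' F) := by
  apply isHom_of_gen
  intro i v
  rw [mrep_act, mrep_act, Matrix.toLin'_apply, Matrix.toLin'_apply, Matrix.mulVec_mulVec,
    Matrix.mulVec_mulVec]
  cases i
  · simp only [genFun]; rw [h1]
  · simp only [genFun]; rw [h2]
  · simp only [genFun]; rw [h3]
  · simp only [genFun]; rw [h4]

/-- The relations for the two-dimensional modules. -/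
theorem datum_x (s : k) (hs : s * s = 1) :
    Datum (!![s, 0; 0, -s] : Matrix (Fin 2) (Fin 2) k) !![s, 0; 0, -s] !![0, 0; 1, 0]
      !![0, 0; 0, 0] := by
  refine ⟨?_, ?_, ?_, ?_, ?_, ?_, ?_, ?_, ?_, ?_⟩ <;>
  · ext i j
    fin_cases i <;> fin_cases j <;> simp [Matrix.mul_apply, Fin.sum_univ_succ, hs]

theorem datum_y :
    Datum (!![1, 0; 0, 1] : Matrix (Fin 2) (Fin 2) k) !![1, 0; 0, -1] !![0, 0; 0, 0]
      !![0, 0; 1, 0] := by
  refine ⟨?_, ?_, ?_, ?_, ?_, ?_, ?_, ?_, ?_, ?_⟩ <;>
  · ext i j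
    fin_cases i <;> fin_cases j <;> simp [Matrix.mul_apply, Fin.sum_univ_succ]

theorem datum_w :
    Datum (!![-1, 0, 0, 0; 0, 1, 0, 0; 0, 0, 1, 0; 0, 0, 0, 1] : Matrix (Fin 4) (Fin 4) k)
      !![-1, 0, 0, 0; 0, 1, 0, 0; 0, 0, -1, 0; 0, 0, 0, 1]
      !![0, 0, 0, 0; 1, 0, 0, 0; 0, 0, 0, 0; 0, 0, 0, 0]
      !![0, 0, 0, 0; 0, 0, 0, 0; 0, 1, 0, 0; 0, 0, 0, 0] := by
  refine ⟨?_, ?_, ?_, ?_, ?_, ?_, ?_, ?_, ?_, ?_⟩ <;>
  · ext i j
    fin_cases i <;> fin_cases j <;> simp [Matrix.mul_apply, Fin.sum_univ_succ]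

/-- The functional used to show that projectives are `x`-acyclic. -/
theorem exists_fx : ∃ f : H32 k →ₗ[k] k, (∀ a, f (gen k Gen.x * a) = counitH k a) ∧
    (∀ a, f (gen k Gen.g * a) = - f a) := by
  have h1 : (1 : k) * 1 = 1 := one_mul 1
  let ρ : H32 k →ₐ[k] Matrix (Fin 2) (Fin 2) k := (datum_x (1 : k) h1).lift
  have hρ : ∀ a, ρ a 0 1 = 0 ∧ ρ a 0 0 = counitH k a := by
    intro a
    induction a using H32.induction with
    | hr r =>
      rw [AlgHom.commutes, AlgHom.commutes]
      simp [Matrix.algebraMap_matrix_apply]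
    | hg i =>
      have : ρ (gen k i) = _ := Datum.lift_gen _ i
      rw [this]
      cases i
      · simp [genFun, counitH_g]
      · simp [genFun, counitH_h]
      · simp [genFun, counitH_x]
      · simp [genFun, counitH_y]
    | hmul a b ha hb =>
      rw [map_mul, map_mul, Matrix.mul_apply, Matrix.mul_apply]
      simp [Fin.sum_univ_succ, ha.1, ha.2, hb.1, hb.2]
    | hadd a b ha hb =>
      rw [map_add, map_add, Matrix.add_apply, Matrix.add_apply]
      simp [ha.1, ha.2, hb.1, hb.2]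
  refine ⟨(Matrix.entryLinearMap k k (1 : Fin 2) (0 : Fin 2)) ∘ₗ ρ.toLinearMap, ?_, ?_⟩
  · intro a
    have hx : ρ (gen k Gen.x) = _ := Datum.lift_gen _ Gen.x
    simp only [LinearMap.comp_apply, AlgHom.toLinearMap_apply, Matrix.entryLinearMap_apply,
      map_mul, hx, Matrix.mul_apply]
    simp [Fin.sum_univ_succ, genFun, (hρ a).2]
  · intro a
    have hx : ρ (gen k Gen.g) = _ := Datum.lift_gen _ Gen.g
    simp only [LinearMap.comp_apply, AlgHom.toLinearMap_apply, Matrix.entryLinearMap_apply,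
      map_mul, hx, Matrix.mul_apply]
    simp [Fin.sum_univ_succ, genFun]

/-- The functional used to show that projectives are `y`-acyclic. -/
theorem exists_fy : ∃ f : H32 k →ₗ[k] k, (∀ a, f (gen k Gen.y * a) = counitH k a) ∧
    (∀ a, f (gen k Gen.h * a) = - f a) := by
  let ρ : H32 k →ₐ[k] Matrix (Fin 2) (Fin 2) k := (datum_y (k := k)).lift
  have hρ : ∀ a, ρ a 0 1 = 0 ∧ ρ a 0 0 = counitH k a := by
    intro a
    induction a using H32.induction with
    | hr r =>
      rw [AlgHom.commutes, AlgHom.commutes]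
      simp [Matrix.algebraMap_matrix_apply]
    | hg i =>
      have : ρ (gen k i) = _ := Datum.lift_gen _ i
      rw [this]
      cases i
      · simp [genFun, counitH_g]
      · simp [genFun, counitH_h]
      · simp [genFun, counitH_x]
      · simp [genFun, counitH_y]
    | hmul a b ha hb =>
      rw [map_mul, map_mul, Matrix.mul_apply, Matrix.mul_apply]
      simp [Fin.sum_univ_succ, ha.1, ha.2, hb.1, hb.2]
    | hadd a b ha hb =>
      rw [map_add, map_add, Matrix.add_apply, Matrix.add_apply]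
      simp [ha.1, ha.2, hb.1, hb.2]
  refine ⟨(Matrix.entryLinearMap k k (1 : Fin 2) (0 : Fin 2)) ∘ₗ ρ.toLinearMap, ?_, ?_⟩
  · intro a
    have hx : ρ (gen k Gen.y) = _ := Datum.lift_gen _ Gen.y
    simp only [LinearMap.comp_apply, AlgHom.toLinearMap_apply, Matrix.entryLinearMap_apply,
      map_mul, hx, Matrix.mul_apply]
    simp [Fin.sum_univ_succ, genFun, (hρ a).2]
  · intro a
    have hx : ρ (gen k Gen.h) = _ := Datum.lift_gen _ Gen.h
    simp only [LinearMap.comp_apply, AlgHom.toLinearMap_apply, Matrix.entryLinearMap_apply,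
      map_mul, hx, Matrix.mul_apply]
    simp [Fin.sum_univ_succ, genFun]

theorem acyX_ideal (h2 : (2 : k) ≠ 0) : IsThickIdeal (Acy (k := k) (gen k Gen.x)) := by
  obtain ⟨f, hf1, hf2⟩ := exists_fx (k := k)
  have d := datum_gen k
  exact acy_ideal h2 f (comulH_x k) hf1 hf2 d.gg d.gx d.xx

theorem acyY_ideal (h2 : (2 : k) ≠ 0) : IsThickIdeal (Acy (k := k) (gen k Gen.y)) := by
  obtain ⟨f, hf1, hf2⟩ := exists_fy (k := k)
  have d := datum_gen k
  exact acy_ideal h2 f (comulH_y k) hf1 hf2 d.hh d.hy d.yy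

/-- the module `A` -/
noncomputable abbrev modA (k : Type u) [Field k] : FinRep k (H32 k) :=
  mrep (datum_x (-1 : k) (by simp))

/-- the module `B` -/
noncomputable abbrev modB (k : Type u) [Field k] : FinRep k (H32 k) := mrep (datum_y (k := k))

/-- the module `W` -/
noncomputable abbrev modW (k : Type u) [Field k] : FinRep k (H32 k) := mrep (datum_w (k := k))

theorem acyX_modA : Acy (gen k Gen.x) (modA k) := by
  refine ⟨Matrix.toLin' !![0, 1; 0, 0], ?_⟩
  intro m
  rw [mrep_act, mrep_act]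
  simp only [genFun, Matrix.toLin'_apply]
  ext i
  fin_cases i <;> simp [dotProduct, Fin.sum_univ_succ]

theorem acyY_modB : Acy (gen k Gen.y) (modB k) := by
  refine ⟨Matrix.toLin' !![0, 1; 0, 0], ?_⟩
  intro m
  rw [mrep_act, mrep_act]
  simp only [genFun, Matrix.toLin'_apply]
  ext i
  fin_cases i <;> simp [dotProduct, Fin.sum_univ_succ]

theorem ses_BWA : ShortExact (modB k) (modW k) (modA k) := by
  refine ⟨Matrix.toLin' !![0, 0; 1, 0; 0, 1; 1, 0], Matrix.toLin' !![1, 0, 0, 0; 0, 1, 0, -1],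
    ?_, ?_, ?_, ?_, ?_⟩
  · apply isHom_mrep
    all_goals
      ext i j
      fin_cases i <;> fin_cases j <;> simp [Matrix.mul_apply, Fin.sum_univ_succ]
  · apply isHom_mrep
    all_goals
      ext i j
      fin_cases i <;> fin_cases j <;> simp [Matrix.mul_apply, Fin.sum_univ_succ]
  · intro v w hvw
    simp only [Matrix.toLin'_apply] at hvw
    have h0 := congrFun hvw 1
    have h1 := congrFun hvw 2
    simp [Matrix.mulVec, dotProduct, Fin.sum_univ_succ] at h0 h1
    ext i
    fin_cases i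
    · exact h0
    · exact h1
  · intro z
    refine ⟨![z 0, z 1, 0, 0], ?_⟩
    simp only [Matrix.toLin'_apply]
    ext i
    fin_cases i <;> simp [Matrix.mulVec, dotProduct, Fin.sum_univ_succ]
  · ext v
    constructor
    · rintro ⟨w, rfl⟩
      rw [LinearMap.mem_ker, Matrix.toLin'_apply, Matrix.toLin'_apply, Matrix.mulVec_mulVec]
      have hz : (!![1, 0, 0, 0; 0, 1, 0, -1] : Matrix (Fin 2) (Fin 4) k) *
          (!![0, 0; 1, 0; 0, 1; 1, 0] : Matrix (Fin 4) (Fin 2) k) = 0 := by
        ext i j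
        fin_cases i <;> fin_cases j <;> simp [Matrix.mul_apply, Fin.sum_univ_succ]
      rw [hz, Matrix.zero_mulVec]
    · intro hv
      rw [LinearMap.mem_ker, Matrix.toLin'_apply] at hv
      have h0 := congrFun hv 0
      have h1 := congrFun hv 1
      simp [Matrix.mulVec, dotProduct, Fin.sum_univ_succ] at h0 h1
      change v 0 = (0 : k) at h0
      change v 1 + - v 3 = (0 : k) at h1
      refine ⟨![v 1, v 2], ?_⟩
      rw [Matrix.toLin'_apply]
      ext i
      fin_cases i
      · simp [Matrix.mulVec, dotProduct, Fin.sum_univ_succ, h0]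
      · simp [Matrix.mulVec, dotProduct, Fin.sum_univ_succ]
      · simp [Matrix.mulVec, dotProduct, Fin.sum_univ_succ]
      · simp [Matrix.mulVec, dotProduct, Fin.sum_univ_succ]
        have h3 : v 1 - v 3 = 0 := by rw [sub_eq_add_neg]; exact h1
        exact sub_eq_zero.mp h3

theorem unit_summand : IsSummand (FinRep.unit k (H32 k)) (modW k) := by
  have hu : ∀ i (m : k), (FinRep.unit k (H32 k)).act (gen k i) m = counitH k (gen k i) * m :=
    fun i m => rfl
  refine ⟨LinearMap.toSpanSingleton k (Fin 4 → k) ![0, 0, 0, 1], LinearMap.proj (3 : Fin 4),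
    ?_, ?_, ?_⟩
  · apply isHom_of_gen
    intro i m
    rw [mrep_act, hu]
    cases i
    · rw [counitH_g]
      ext j
      fin_cases j <;> simp [genFun, Matrix.mulVec, dotProduct, Fin.sum_univ_succ]
    · rw [counitH_h]
      ext j
      fin_cases j <;> simp [genFun, Matrix.mulVec, dotProduct, Fin.sum_univ_succ]
    · rw [counitH_x]
      ext j
      fin_cases j <;> simp [genFun, Matrix.mulVec, dotProduct, Fin.sum_univ_succ]
    · rw [counitH_y]
      ext j
      fin_cases j <;> simp [genFun, Matrix.mulVec, dotProduct, Fin.sum_univ_succ]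
  · apply isHom_of_gen
    intro i m
    rw [mrep_act, hu]
    cases i
    · rw [counitH_g]
      simp [genFun, Matrix.mulVec, dotProduct, Fin.sum_univ_succ]
    · rw [counitH_h]
      simp [genFun, Matrix.mulVec, dotProduct, Fin.sum_univ_succ]
    · rw [counitH_x]
      simp [genFun, Matrix.mulVec, dotProduct, Fin.sum_univ_succ]
    · rw [counitH_y]
      simp [genFun, Matrix.mulVec, dotProduct, Fin.sum_univ_succ]
  · apply LinearMap.ext
    intro (m : k)
    simp

theorem isOpen_compl_supp (a : FinRep k (H32 k)) : IsOpen (supp a)ᶜ :=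
  TopologicalSpace.isOpen_generateFrom_of_mem ⟨a, rfl⟩

theorem not_homeo (h2 : (2 : k) ≠ 0) : ¬ Nonempty (Spc k (H32 k) ≃ₜ ProjLine k) := by
  rintro ⟨e⟩
  obtain ⟨P, hP⟩ := exists_prime (acyX_ideal h2)
    (not_acy_unit (k := k) (c := gen k Gen.x) (counitH_x k))
  obtain ⟨Q, hQ⟩ := exists_prime (acyY_ideal h2)
    (not_acy_unit (k := k) (c := gen k Gen.y) (counitH_y k))
  have hPA : P ∈ (supp (modA k))ᶜ := fun h => h (hP _ acyX_modA)
  have hQB : Q ∈ (supp (modB k))ᶜ := fun h => h (hQ _ acyY_modB)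
  obtain ⟨z, hz1, hz2⟩ := projLine_inter k (e.symm ⁻¹' (supp (modA k))ᶜ)
    (e.symm ⁻¹' (supp (modB k))ᶜ)
    ((isOpen_compl_supp _).preimage e.symm.continuous)
    ((isOpen_compl_supp _).preimage e.symm.continuous)
    ⟨e P, by simpa using hPA⟩ ⟨e Q, by simpa using hQB⟩
  have h3 : (e.symm z).1 (modA k) := by
    by_contra hcon
    exact hz1 hcon
  have h4 : (e.symm z).1 (modB k) := by
    by_contra hcon
    exact hz2 hcon
  have h5 := (e.symm z).2
  have h6 := h5.ideal.ext _ _ _ ses_BWA h4 h3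
  have h7 := h5.ideal.summand _ _ unit_summand h6
  obtain ⟨M, hM⟩ := h5.proper
  exact hM (h5.ideal.all_of_unit h7 M)

end Pool.Agent.Lib.MP_868e2f_al
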