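import Pool.Agent.Lib.MP_868e2f_al.TameFam

/-! The Hopf algebra `H32` is tame. -/

namespace Pool.Agent.Lib.MP_868e2f_al

universe u

open FinRep Polynomial

variable {k : Type u} [Field k]

theorem Datum.map {A B : Type*} [Ring A] [Ring B] (f : A →+* B) {G K X Y : A}
    (d : Datum G K X Y) : Datum (f G) (f K) (f X) (f Y) := by
  refine ⟨?_, ?_, ?_, ?_, ?_, ?_, ?_, ?_, ?_, ?_⟩
  · rw [← map_mul, d.gg, map_one]
  · rw [← map_mul, d.hh, map_one]
  · rw [← map_mul, ← map_mul, d.gh]
  · rw [← map_mul, ← map_mul, d.gx, map_neg]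
  · rw [← map_mul, ← map_mul, d.gy]
  · rw [← map_mul, ← map_mul, d.hx, map_neg]
  · rw [← map_mul, ← map_mul, d.hy, map_neg]
  · rw [← map_mul, d.xx, map_zero]
  · rw [← map_mul, d.yy, map_zero]
  · rw [← map_mul, ← map_mul, ← map_mul, ← map_mul, ← map_mul, ← map_mul, d.xy, map_neg]

theorem datum_act (M : FinRep k (H32 k)) : Datum (M.act (gen k Gen.g)) (M.act (gen k Gen.h))
    (M.act (gen k Gen.x)) (M.act (gen k Gen.y)) :=
  (datum_gen k).map M.act.toRingHom

theorem indec_sys (h2 : (2 : k) ≠ 0) {M : FinRep k (H32 k)} (hM : M.IsIndecomposable) :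
    (sysOf h2 (datum_act M)).Indec := by
  have key : ∀ A : Submodule k M.V, (∀ a, ∀ x ∈ A, (sysOf h2 (datum_act M)).t a x ∈ A) →
      M.IsStable A := by
    intro A hA a
    have hsum : ∀ m : M.V, m = ∑ c, cproj (M.act (gen k Gen.g)) (M.act (gen k Gen.h)) c m :=
      fun m => ((sysOf h2 (datum_act M)).e_sum m).symm
    have hc : ∀ c, ∀ m ∈ A, cproj (M.act (gen k Gen.g)) (M.act (gen k Gen.h)) c m ∈ A :=
      fun c m hm => hA (Sum.inr c) m hm
    induction a using H32.induction with
    | hr r =>
      intro m hm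
      rw [AlgHom.commutes]
      exact Submodule.smul_mem _ r hm
    | hg i =>
      intro m hm
      cases i
      · rw [hsum m, map_sum]
        apply Submodule.sum_mem
        intro c _
        have := LinearMap.congr_fun (G_cproj h2 (datum_act M) c) m
        rw [Module.End.mul_apply] at this
        rw [this]
        exact Submodule.smul_mem _ _ (hc c m hm)
      · rw [hsum m, map_sum]
        apply Submodule.sum_mem
        intro c _
        have := LinearMap.congr_fun (K_cproj h2 (datum_act M) c) m
        rw [Module.End.mul_apply] at this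
        rw [this]
        exact Submodule.smul_mem _ _ (hc c m hm)
      · exact hA (Sum.inl true) m hm
      · exact hA (Sum.inl false) m hm
    | hmul a b ha hb =>
      intro m hm
      rw [map_mul]
      exact ha _ (hb _ hm)
    | hadd a b ha hb =>
      intro m hm
      rw [map_add]
      exact Submodule.add_mem _ (ha _ hm) (hb _ hm)
  intro A B hA hB hAB
  exact hM.2 A B (key A hA) (key B hB) hAB

/-- the entries which occur -/
def IsEntry (c x : k) : Prop := x = 0 ∨ x = 1 ∨ x = -1 ∨ x = c

theorem exists_nice_basis [IsAlgClosed k] (h2 : (2 : k) ≠ 0) {M : FinRep k (H32 k)}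
    (hM : M.IsIndecomposable) :
    ∃ (b : Module.Basis (Fin (Module.finrank k M.V)) k M.V) (c : k),
      ∀ i r s, IsEntry c (LinearMap.toMatrix b b (M.act (gen k i)) r s) := by
  have := hM.1
  obtain ⟨N, e, v, c, col, hli, hsp, hcol, hop⟩ := Sys.hasNice (indec_sys h2 hM)
  let b0 := Module.Basis.mk hli hsp.ge
  have hb0 : ∀ x, b0 x = v x := fun x => Module.Basis.mk_apply hli hsp.ge x
  have hcard : Fintype.card (Fin N × Fin e) = Module.finrank k M.V :=
    (Module.finrank_eq_card_basis b0).symm
  let σ := Fintype.equivFinOfCardEq hcard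
  let b := b0.reindex σ
  have hb : ∀ x, b (σ x) = v x := by
    intro x
    simp [b, hb0]
  have hrepr : ∀ x r, b.repr (v x) r = if σ x = r then 1 else 0 := by
    intro x r
    rw [← hb, Module.Basis.repr_self, Finsupp.single_apply]
  refine ⟨b, c, ?_⟩
  intro i r s
  rw [LinearMap.toMatrix_apply]
  obtain ⟨x, rfl⟩ := σ.surjective s
  rw [hb]
  have hsgn : ∀ (s : Bool), IsEntry c (sgn k s) := by
    intro s
    cases s
    · right; left; rfl
    · right; right; left; rfl
  have hletter : ∀ bb, IsEntry c (b.repr ((sysOf h2 (datum_act M)).op bb (v x)) r) := by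
    intro bb
    rcases hop bb x with h | ⟨j, h⟩ | ⟨j, h⟩ | ⟨j, j', hjj, h⟩
    · left
      rw [h, map_zero]
      rfl
    · rw [h, hrepr]
      by_cases hr : σ j = r
      · rw [if_pos hr]; right; left; rfl
      · rw [if_neg hr]; left; rfl
    · rw [h, map_smul, Finsupp.smul_apply, hrepr]
      by_cases hr : σ j = r
      · rw [if_pos hr, smul_eq_mul, mul_one]; right; right; right; rfl
      · rw [if_neg hr, smul_zero]; left; rfl
    · rw [h, map_add, map_smul, Finsupp.add_apply, Finsupp.smul_apply, hrepr, hrepr]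
      by_cases hr : σ j = r
      · have hr' : σ j' ≠ r := by
          intro h'
          exact hjj (σ.injective (hr.trans h'.symm))
        rw [if_pos hr, if_neg hr', smul_eq_mul, mul_one, add_zero]; right; right; right; rfl
      · rw [if_neg hr, smul_zero, zero_add]
        by_cases hr' : σ j' = r
        · rw [if_pos hr']; right; left; rfl
        · rw [if_neg hr']; left; rfl
  cases i
  · have h1 : M.act (gen k Gen.g) (v x) = sgn k (col x).1 • v x := by
      have := LinearMap.congr_fun (G_cproj h2 (datum_act M) (col x)) (v x)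
      have h3 : cproj (M.act (gen k Gen.g)) (M.act (gen k Gen.h)) (col x) (v x) = v x := hcol x
      rw [Module.End.mul_apply, LinearMap.smul_apply, h3] at this
      exact this
    rw [h1, map_smul, Finsupp.smul_apply, hrepr]
    by_cases hr : σ x = r
    · rw [if_pos hr, smul_eq_mul, mul_one]; exact hsgn _
    · rw [if_neg hr, smul_zero]; left; rfl
  · have h1 : M.act (gen k Gen.h) (v x) = sgn k (col x).2 • v x := by
      have := LinearMap.congr_fun (K_cproj h2 (datum_act M) (col x)) (v x)
      have h3 : cproj (M.act (gen k Gen.g)) (M.act (gen k Gen.h)) (col x) (v x) = v x := hcol x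
      rw [Module.End.mul_apply, LinearMap.smul_apply, h3] at this
      exact this
    rw [h1, map_smul, Finsupp.smul_apply, hrepr]
    by_cases hr : σ x = r
    · rw [if_pos hr, smul_eq_mul, mul_one]; exact hsgn _
    · rw [if_neg hr, smul_zero]; left; rfl
  · exact hletter true
  · exact hletter false

instance : Finite Gen := by
  let f : Gen → Fin 4 := fun i => match i with
    | Gen.g => 0
    | Gen.h => 1
    | Gen.x => 2
    | Gen.y => 3
  apply Finite.of_injective f
  intro i j hij
  cases i <;> cases j <;> first | rfl | (exfalso; simp [f] at hij)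

/-- polynomial entries -/
noncomputable def patVal (k : Type u) [Field k] (i : Fin 4) : k[X] :=
  if i = 0 then 0 else if i = 1 then 1 else if i = 2 then -1 else Polynomial.X

/-- pattern matrix -/
noncomputable def patMat (k : Type u) [Field k] {d : ℕ} (a : Fin d → Fin d → Fin 4) :
    Matrix (Fin d) (Fin d) k[X] := Matrix.of fun r s => patVal k (a r s)

/-- evaluation of matrices -/
noncomputable def evM {d : ℕ} (c : k) :
    Matrix (Fin d) (Fin d) k[X] →ₐ[k] Matrix (Fin d) (Fin d) k :=
  AlgHom.mapMatrix (Polynomial.aeval c)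

theorem evM_apply {d : ℕ} (c : k) (A : Matrix (Fin d) (Fin d) k[X]) (r s : Fin d) :
    evM c A r s = (A r s).eval c := by
  simp [evM]

theorem exists_pattern {d : ℕ} (c : k) (ρ : Matrix (Fin d) (Fin d) k)
    (h : ∀ r s, IsEntry c (ρ r s)) : ∃ a : Fin d → Fin d → Fin 4, evM c (patMat k a) = ρ := by
  have h1 : ∀ r s, ∃ i : Fin 4, (patVal k i).eval c = ρ r s := by
    intro r s
    rcases h r s with h | h | h | h
    · exact ⟨0, by rw [h]; simp [patVal]⟩
    · exact ⟨1, by rw [h]; simp [patVal]⟩
    · exact ⟨2, by rw [h]; simp [patVal]⟩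
    · exact ⟨3, by rw [h]; simp [patVal]⟩
  choose a ha using h1
  refine ⟨a, ?_⟩
  ext r s
  rw [evM_apply]
  exact ha r s

theorem mat_eq_of_infinite {d : ℕ} (A B : Matrix (Fin d) (Fin d) k[X])
    (h : Set.Infinite {c : k | evM c A = evM c B}) : A = B := by
  ext1 r s
  apply Polynomial.eq_of_infinite_eval_eq
  apply h.mono
  intro c hc
  have h1 : evM c A = evM c B := hc
  have := congrFun (congrFun h1 r) s
  rw [evM_apply, evM_apply] at this
  exact this

/-- the relations hold identically -/
abbrev PolyDatum (k : Type u) [Field k] {d : ℕ} (a : Gen → Fin d → Fin d → Fin 4) : Prop :=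
  Datum (patMat k (a Gen.g)) (patMat k (a Gen.h)) (patMat k (a Gen.x)) (patMat k (a Gen.y))

/-- the relations hold at `c` -/
abbrev EvDatum {d : ℕ} (a : Gen → Fin d → Fin d → Fin 4) (c : k) : Prop :=
  Datum (evM c (patMat k (a Gen.g))) (evM c (patMat k (a Gen.h))) (evM c (patMat k (a Gen.x)))
    (evM c (patMat k (a Gen.y)))

theorem polyDatum_of_infinite {d : ℕ} (a : Gen → Fin d → Fin d → Fin 4)
    (h : Set.Infinite {c : k | EvDatum a c}) : PolyDatum k a := by
  refine ⟨?_, ?_, ?_, ?_, ?_, ?_, ?_, ?_, ?_, ?_⟩ <;> apply mat_eq_of_infinite <;>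
    refine h.mono (fun c hc => ?_) <;> rw [Set.mem_ofPred_eq] at hc ⊢
  · simp only [map_mul, map_one]; exact hc.gg
  · simp only [map_mul, map_one]; exact hc.hh
  · simp only [map_mul]; exact hc.gh
  · simp only [map_mul, map_neg]; exact hc.gx
  · simp only [map_mul]; exact hc.gy
  · simp only [map_mul, map_neg]; exact hc.hx
  · simp only [map_mul, map_neg]; exact hc.hy
  · simp only [map_mul, map_zero]; exact hc.xx
  · simp only [map_mul, map_zero]; exact hc.yy
  · simp only [map_mul, map_neg]; exact hc.xy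

theorem iso_of_matrix {M : FinRep k (H32 k)} {d : ℕ} (b : Module.Basis (Fin d) k M.V)
    (E : H32 k →ₐ[k] Module.End k (Fin d → k))
    (h : ∀ i v, E (gen k i) v = (LinearMap.toMatrix b b (M.act (gen k i))).mulVec v) :
    Iso M ⟨Fin d → k, E⟩ := by
  refine ⟨b.equivFun.toLinearMap, ?_, b.equivFun.bijective⟩
  apply isHom_of_gen
  intro i m
  rw [h]
  exact (LinearMap.toMatrix_mulVec_repr b b (M.act (gen k i)) m).symm

theorem isTame [IsAlgClosed k] (h2 : (2 : k) ≠ 0) : IsTame k (H32 k) := by
  have hinf : Infinite k := IsAlgClosed.instInfinite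
  refine ⟨not_repFinite h2, fun d => ?_⟩
  -- the families
  have hfam : Set.Finite {F : H32 k →ₐ[k] Matrix (Fin d) (Fin d) k[X] |
      ∃ (a : Gen → Fin d → Fin d → Fin 4) (h : PolyDatum k a), F = Datum.lift h} := by
    apply (Set.finite_range (fun x : {a : Gen → Fin d → Fin d → Fin 4 // PolyDatum k a} =>
      (Datum.lift x.2 : H32 k →ₐ[k] Matrix (Fin d) (Fin d) k[X]))).subset
    rintro F ⟨a, h, rfl⟩
    exact ⟨⟨a, h⟩, rfl⟩
  have hexc : Set.Finite {E : FinRep k (H32 k) |
      ∃ (a : Gen → Fin d → Fin d → Fin 4) (_ : ¬ PolyDatum k a) (c : k) (h : EvDatum a c),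
        E = mrep h} := by
    have hf : ∀ x : {a : Gen → Fin d → Fin d → Fin 4 // ¬ PolyDatum k a},
        Finite {c : k // EvDatum x.1 c} := by
      rintro ⟨a, ha⟩
      have h1 : Set.Finite {c : k | EvDatum a c} := by
        by_contra hcon
        exact ha (polyDatum_of_infinite a hcon)
      exact h1.to_subtype
    apply (Set.finite_range (fun x : (Σ x : {a : Gen → Fin d → Fin d → Fin 4 //
      ¬ PolyDatum k a}, {c : k // EvDatum x.1 c}) => (mrep x.2.2 : FinRep k (H32 k)))).subset
    rintro E ⟨a, ha, c, h, rfl⟩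
    exact ⟨⟨⟨a, ha⟩, ⟨c, h⟩⟩, rfl⟩
  refine ⟨hfam.toFinset.toList, hexc.toFinset.toList, ?_⟩
  intro M hM hd
  subst hd
  obtain ⟨b, c, hbc⟩ := exists_nice_basis h2 hM
  choose a ha using fun i => exists_pattern c (LinearMap.toMatrix b b (M.act (gen k i))) (hbc i)
  have hev : EvDatum a c := by
    unfold EvDatum
    rw [ha, ha, ha, ha]
    exact (datum_act M).map (LinearMap.toMatrixAlgEquiv b).toRingEquiv.toRingHom
  by_cases hp : PolyDatum k a
  · right
    refine ⟨Datum.lift hp, ?_, c, ?_⟩
    · rw [Finset.mem_toList, Set.Finite.mem_toFinset]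
      exact ⟨a, hp, rfl⟩
    · apply iso_of_matrix b
      intro i v
      rw [← ha]
      change (Matrix.toLinAlgEquiv' (R := k) (n := Fin _))
        (evM c (Datum.lift hp (gen k i))) v = _
      rw [Datum.lift_gen]
      cases i <;> rfl
  · left
    refine ⟨mrep hev, ?_, ?_⟩
    · rw [Finset.mem_toList, Set.Finite.mem_toFinset]
      exact ⟨a, hp, c, hev, rfl⟩
    · apply iso_of_matrix b
      intro i v
      rw [← ha]
      change (Matrix.toLinAlgEquiv' (R := k) (n := Fin _)) (Datum.lift hev (gen k i)) v = _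
      rw [Datum.lift_gen]
      cases i <;> rfl

end Pool.Agent.Lib.MP_868e2f_al
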