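import Pool.Agent.Lib.MP_868e2f_al.Band
import Pool.Agent.Lib.MP_868e2f_al.NotFinite

/-! The Hopf algebra `H32` is tame. -/

namespace Pool.Agent.Lib.MP_868e2f_al

universe u

open FinRep Polynomial

section Proj

variable {k A : Type*} [Field k] [Ring A] [Algebra k A]

/-- the projector `(1 + s g) / 2` -/
def prj (s : k) (g : A) : A := (2 : k)⁻¹ • (1 + s • g)

variable (h2 : (2 : k) ≠ 0) {s : k} (hs : s * s = 1) {g : A} (hg : g * g = 1)

include h2 hs hg

theorem prj_mul_self : prj s g * prj s g = prj s g := by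
  unfold prj
  rw [smul_mul_smul_comm, mul_add, mul_one, add_mul, one_mul, smul_mul_smul_comm, hs, hg, one_smul]
  have h3 : (1 : A) + s • g + (s • g + 1) = (2 : k) • (1 + s • g) := by
    rw [two_smul]; abel
  rw [h3, smul_smul, mul_assoc, inv_mul_cancel₀ h2, mul_one]

theorem prj_mul_neg : prj s g * prj (-s) g = 0 := by
  unfold prj
  rw [smul_mul_smul_comm, mul_add, mul_one, add_mul, one_mul, smul_mul_smul_comm, mul_neg, hs, hg]
  have h3 : (1 : A) + s • g + (-s • g + (-1 : k) • (1 : A)) = 0 := by
    rw [neg_smul, neg_smul, one_smul]; abel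
  rw [h3, smul_zero]

theorem mul_prj : g * prj s g = s • prj s g := by
  unfold prj
  rw [mul_smul_comm, mul_add, mul_one, mul_smul_comm, hg, smul_smul, mul_comm s, ← smul_smul,
    smul_add s, smul_smul s s, hs, one_smul, add_comm]

end Proj

section Proj2

variable {k A : Type*} [Field k] [Ring A] [Algebra k A]

theorem prj_sum (h2 : (2 : k) ≠ 0) (g : A) : prj (1 : k) g + prj (-1 : k) g = 1 := by
  unfold prj
  rw [← smul_add]
  have h3 : (1 : A) + (1 : k) • g + (1 + (-1 : k) • g) = (2 : k) • 1 := by
    rw [two_smul, neg_smul, one_smul]; abel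
  rw [h3, smul_smul, inv_mul_cancel₀ h2, one_smul]

theorem prj_anti (s : k) {g x : A} (h : x * g = -(g * x)) :
    x * prj s g = prj (-s) g * x := by
  unfold prj
  rw [mul_smul_comm, smul_mul_assoc, mul_add, add_mul, mul_one, one_mul, mul_smul_comm,
    smul_mul_assoc, h, smul_neg, neg_smul]

theorem prj_comm (s : k) {g x : A} (h : x * g = g * x) : x * prj s g = prj s g * x := by
  unfold prj
  rw [mul_smul_comm, smul_mul_assoc, mul_add, add_mul, mul_one, one_mul, mul_smul_comm,
    smul_mul_assoc, h]

end Proj2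

/-- signs -/
def sgn (k : Type*) [Field k] (c : Bool) : k := if c then -1 else 1

theorem sgn_not (k : Type*) [Field k] (c : Bool) : sgn k (!c) = - sgn k c := by
  cases c <;> simp [sgn]

theorem sgn_sq (k : Type*) [Field k] (c : Bool) : sgn k c * sgn k c = 1 := by
  cases c <;> simp [sgn]

section System

variable {k : Type u} [Field k] (h2 : (2 : k) ≠ 0) {V : Type*} [AddCommGroup V] [Module k V]
  {G K X Y : Module.End k V} (d : Datum G K X Y)

/-- colour projectors -/
noncomputable def cproj (G K : Module.End k V) (c : Bool × Bool) : Module.End k V :=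
  prj (sgn k c.1) G * prj (sgn k c.2) K

include h2 d

theorem prj_GK (s s' : k) : prj s G * prj s' K = prj s' K * prj s G := by
  apply prj_comm
  exact (prj_comm s d.gh.symm).symm

theorem cproj_idem (c : Bool × Bool) : cproj G K c * cproj G K c = cproj G K c := by
  unfold cproj
  rw [mul_assoc, ← mul_assoc (prj (sgn k c.2) K), ← prj_GK h2 d, ← mul_assoc, ← mul_assoc,
    prj_mul_self h2 (sgn_sq k _) d.gg, mul_assoc, prj_mul_self h2 (sgn_sq k _) d.hh]

theorem cproj_orth (c c' : Bool × Bool) (h : c ≠ c') : cproj G K c * cproj G K c' = 0 := by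
  unfold cproj
  rw [mul_assoc, ← mul_assoc (prj (sgn k c.2) K), ← prj_GK h2 d, ← mul_assoc, ← mul_assoc]
  by_cases h1 : c.1 = c'.1
  · have h3 : c'.2 = !c.2 := by
      have : c.2 ≠ c'.2 := fun h4 => h (Prod.ext h1 h4)
      revert this
      cases c.2 <;> cases c'.2 <;> simp
    rw [mul_assoc, h3, sgn_not, prj_mul_neg h2 (sgn_sq k _) d.hh, mul_zero]
  · have h3 : c'.1 = !c.1 := by
      revert h1
      cases c.1 <;> cases c'.1 <;> simp
    rw [h3, sgn_not, prj_mul_neg h2 (sgn_sq k _) d.gg, zero_mul, zero_mul]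

theorem cproj_sum : ∑ c, cproj G K c = 1 := by
  rw [Fintype.sum_prod_type]
  simp only [Fintype.sum_bool, cproj, sgn, if_true, if_false, Bool.false_eq_true]
  rw [← mul_add, ← mul_add, ← add_mul]
  have h3 := prj_sum h2 G
  have h4 := prj_sum h2 K
  rw [add_comm] at h3 h4
  rw [h3, h4, mul_one]

theorem cproj_x (c : Bool × Bool) : X * cproj G K c = cproj G K (!c.1, !c.2) * X := by
  unfold cproj
  rw [← mul_assoc, prj_anti _ d.gx, mul_assoc, prj_anti _ d.hx, ← mul_assoc, sgn_not, sgn_not]

theorem cproj_y (c : Bool × Bool) : Y * cproj G K c = cproj G K (c.1, !c.2) * Y := by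
  unfold cproj
  rw [← mul_assoc, prj_comm _ d.gy, mul_assoc, prj_anti _ d.hy, ← mul_assoc, sgn_not]

theorem G_cproj (c : Bool × Bool) : G * cproj G K c = sgn k c.1 • cproj G K c := by
  unfold cproj
  rw [← mul_assoc, mul_prj h2 (sgn_sq k _) d.gg, smul_mul_assoc]

theorem K_cproj (c : Bool × Bool) : K * cproj G K c = sgn k c.2 • cproj G K c := by
  unfold cproj
  rw [prj_GK h2 d, ← mul_assoc, mul_prj h2 (sgn_sq k _) d.hh, smul_mul_assoc]

/-- the system of a module -/
noncomputable def sysOf : Sys k V (Bool × Bool) where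
  op b := if b then X else Y
  sq b v := by
    cases b
    · have := LinearMap.congr_fun d.yy v
      simpa using this
    · have := LinearMap.congr_fun d.xx v
      simpa using this
  e := cproj G K
  sh b c := if b then (!c.1, !c.2) else (c.1, !c.2)
  sh_sh b c := by cases b <;> simp
  e_idem c v := LinearMap.congr_fun (cproj_idem h2 d c) v
  e_orth c c' v h := LinearMap.congr_fun (cproj_orth h2 d c c' h) v
  e_sum v := by
    have := LinearMap.congr_fun (cproj_sum h2 d) v
    rw [LinearMap.sum_apply] at this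
    exact this
  op_e b c v := by
    cases b
    · exact LinearMap.congr_fun (cproj_y h2 d c) v
    · exact LinearMap.congr_fun (cproj_x h2 d c) v

end System

end Pool.Agent.Lib.MP_868e2f_al
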