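import Pool.Agent.Lib.MP_868e2f_al.Duals

/-! Walks in the graph of vertices and compatible sequences. -/

namespace Pool.Agent.Lib.MP_868e2f_al

set_option linter.unusedSectionVars false

namespace Sys

variable {k V κ : Type*} [Field k] [AddCommGroup V] [Module k V] [Fintype κ]

/-- the type of valid vertices -/
def P (S : Sys k V κ) : Type _ := {p : Vx k V κ // S.Valid p}

variable {S : Sys k V κ}

/-- adjacency -/
def Adj (b : Bool) (p q : S.P) : Prop := S.Edge b p.1 q.1 ∨ S.Edge b q.1 p.1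

theorem Adj.symm {b : Bool} {p q : S.P} (h : Adj b p q) : Adj b q p := Or.symm h

section Fin

variable [FiniteDimensional k V]

theorem Adj.unique {b : Bool} {p q q' : S.P} (h : Adj b p q) (h' : Adj b p q') : q = q' := by
  rcases h with h | h <;> rcases h' with h' | h'
  · exact Subtype.ext (h.target_unique h' p.2 q.2 q'.2)
  · exact (h.not_both p.2 h').elim
  · exact (h'.not_both p.2 h).elim
  · exact Subtype.ext (h.source_unique h' q.2 q'.2 p.2)

theorem Adj.ne {b : Bool} {p q : S.P} (h : Adj b p q) : p ≠ q := by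
  rintro rfl
  rcases h with h | h <;> exact h.not_both p.2 h

instance : Finite S.P := by
  let f : S.P → (Bool → Fin (Module.finrank k V + 1)) × κ := fun p =>
    (fun b => ⟨Module.finrank k (p.1.Z b), Nat.lt_succ_of_le (Submodule.finrank_le _)⟩, p.1.c)
  apply Finite.of_injective f
  rintro ⟨p, hp⟩ ⟨q, hq⟩ hpq
  apply Subtype.ext
  have h1 := congrArg Prod.fst hpq
  have h2 := congrArg Prod.snd hpq
  ext1
  · funext b
    have h3 : Module.finrank k (p.Z b) = Module.finrank k (q.Z b) :=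
      congrArg Fin.val (congrFun h1 b)
    rcases (hp.1 b).total _ (hq.1 b) with h | h
    · exact Submodule.eq_of_le_of_finrank_eq h h3
    · exact (Submodule.eq_of_le_of_finrank_eq h h3.symm).symm
  · exact h2

open Classical in
/-- the neighbour along the letter `b`, or the vertex itself if there is none -/
noncomputable def sg (b : Bool) (p : S.P) : S.P := if h : ∃ q, Adj b p q then h.choose else p

theorem sg_adj {b : Bool} {p : S.P} (h : ∃ q, Adj b p q) : Adj b p (sg b p) := by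
  unfold sg
  rw [dif_pos h]
  exact h.choose_spec

theorem Adj.sg_eq {b : Bool} {p q : S.P} (h : Adj b p q) : sg b p = q :=
  (sg_adj ⟨q, h⟩).unique h

theorem sg_none {b : Bool} {p : S.P} (h : ¬ ∃ q, Adj b p q) : sg b p = p := by
  unfold sg
  rw [dif_neg h]

theorem sg_sg (b : Bool) (p : S.P) : sg b (sg b p) = p := by
  by_cases h : ∃ q, Adj b p q
  · exact (sg_adj h).symm.sg_eq
  · rw [sg_none h, sg_none h]

theorem sg_self {b : Bool} {p : S.P} (h : sg b p = p) : ¬ ∃ q, Adj b p q := by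
  intro h'
  exact (sg_adj h').ne h.symm

theorem adj_of_sg_ne {b : Bool} {p : S.P} (h : sg b p ≠ p) : Adj b p (sg b p) := by
  by_cases h' : ∃ q, Adj b p q
  · exact sg_adj h'
  · exact absurd (sg_none h') h

variable (S) in
/-- the step of the walk -/
noncomputable def step : Equiv.Perm (S.P × Bool) where
  toFun x := (sg x.2 x.1, !x.2)
  invFun x := (sg (!x.2) x.1, !x.2)
  left_inv x := by simp [sg_sg]
  right_inv x := by simp [sg_sg]

theorem step_apply (x : S.P × Bool) : step S x = (sg x.2 x.1, !x.2) := rfl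

/-- walks indexed by the integers -/
def IsWalk (W : ℤ → S.P × Bool) : Prop := ∀ n, W (n + 1) = step S (W n)

/-- the reversed walk -/
def rev (W : ℤ → S.P × Bool) : ℤ → S.P × Bool := fun n => ((W (-n)).1, !(W (-n)).2)

theorem IsWalk.rev {W : ℤ → S.P × Bool} (h : IsWalk W) : IsWalk (rev W) := by
  intro n
  have h1 := h (-(n + 1))
  have h2 : -(n + 1) + 1 = -n := by ring
  rw [h2] at h1
  unfold Sys.rev
  rw [step_apply, h1, step_apply]
  simp [sg_sg]

theorem IsWalk.letter {W : ℤ → S.P × Bool} (h : IsWalk W) (n : ℤ) :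
    (W (n + 1)).2 = !(W n).2 := by rw [h n, step_apply]

theorem IsWalk.vert {W : ℤ → S.P × Bool} (h : IsWalk W) (n : ℤ) :
    (W (n + 1)).1 = sg (W n).2 (W n).1 := by rw [h n, step_apply]

theorem IsWalk.vert' {W : ℤ → S.P × Bool} (h : IsWalk W) (n : ℤ) :
    (W n).1 = sg (W n).2 (W (n + 1)).1 := by rw [h.vert, sg_sg]

theorem IsWalk.iterate {W : ℤ → S.P × Bool} (h : IsWalk W) (n : ℕ) :
    (step S)^[n] (W 0) = W n := by
  induction n with
  | zero => rfl
  | succ n ih => rw [Function.iterate_succ_apply', ih, ← h]; push_cast; rfl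

/-- Odd distance: vertices are distinct as long as the walk does not bounce. -/
theorem IsWalk.ne_of_odd {W : ℤ → S.P × Bool} (h : IsWalk W) (d : ℕ) :
    ∀ i : ℤ, (∀ n : ℤ, i ≤ n → n < i + 2 * d + 1 → (W (n + 1)).1 ≠ (W n).1) →
      (W i).1 ≠ (W (i + 2 * d + 1)).1 := by
  induction d with
  | zero =>
    intro i hi
    have := hi i (le_refl _) (by push_cast; linarith)
    have e : i + 2 * ((0 : ℕ) : ℤ) + 1 = i + 1 := by push_cast; ring
    rw [e]
    exact this.symm
  | succ d ih =>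
    intro i hi heq
    have hpar : ∀ m : ℕ, (W (i + 2 * m)).2 = (W i).2 := by
      intro m
      induction m with
      | zero =>
        have e : i + 2 * ((0 : ℕ) : ℤ) = i := by push_cast; ring
        rw [e]
      | succ m ihm =>
        have e1 : i + 2 * ((m + 1 : ℕ) : ℤ) = (i + 2 * (m : ℤ)) + 1 + 1 := by push_cast; ring
        rw [e1, h.letter, h.letter, Bool.not_not, ihm]
    have h1 := h.vert i
    have h2 := h.vert' (i + 2 * ((d + 1 : ℕ) : ℤ))
    rw [hpar (d + 1), ← heq, ← h1] at h2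
    apply ih (i + 1)
    · intro n hn1 hn2
      apply hi n (by linarith)
      push_cast
      linarith
    · have e2 : i + 1 + 2 * (d : ℤ) + 1 = i + 2 * ((d + 1 : ℕ) : ℤ) := by push_cast; ring
      rw [e2, h2]

/-- compatible vectors -/
def Cmp (b : Bool) (p q : S.P) (u v : V) : Prop :=
  (S.Edge b p.1 q.1 → S.op b u = v) ∧ (S.Edge b q.1 p.1 → S.op b v = u)

/-- compatible functionals -/
def CmpD (b : Bool) (p q : S.P) (φ ψ : Module.Dual k V) : Prop :=
  (S.Edge b p.1 q.1 → ∀ v, ψ (S.op b v) = φ v) ∧ (S.Edge b q.1 p.1 → ∀ v, φ (S.op b v) = ψ v)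

theorem Cmp.symm {b : Bool} {p q : S.P} {u v : V} (h : Cmp b p q u v) : Cmp b q p v u :=
  ⟨h.2, h.1⟩

theorem CmpD.symm {b : Bool} {p q : S.P} {φ ψ : Module.Dual k V} (h : CmpD b p q φ ψ) :
    CmpD b q p ψ φ := ⟨h.2, h.1⟩

theorem pairing {b : Bool} {p q : S.P} (ha : Adj b p q) {u v : V} {φ ψ : Module.Dual k V}
    (h : Cmp b p q u v) (h' : CmpD b p q φ ψ) : φ u = ψ v := by
  rcases ha with ha | ha
  · rw [← h.1 ha, h'.1 ha]
  · rw [← h.2 ha, h'.2 ha]

theorem exists_cmp (b : Bool) (p : S.P) {u : V} (hu : u ∈ S.U p.1) :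
    ∃ v ∈ S.U (sg b p).1, Cmp b p (sg b p) u v := by
  by_cases h : ∃ q, Adj b p q
  · rcases sg_adj h with h1 | h1
    · exact ⟨S.op b u, h1.op_mem hu, fun _ => rfl, fun h2 => (h1.not_both p.2 h2).elim⟩
    · obtain ⟨v, hv, hvu⟩ := h1.exists_preimage (sg b p).2.1 hu
      exact ⟨v, hv, fun h2 => (h2.not_both p.2 h1).elim, fun _ => hvu⟩
  · rw [sg_none h]
    exact ⟨0, Submodule.zero_mem _, fun h2 => (h ⟨p, Or.inl h2⟩).elim,
      fun h2 => (h ⟨p, Or.inl h2⟩).elim⟩

theorem exists_cmpD (b : Bool) (p : S.P) {φ : Module.Dual k V} (hφ : φ ∈ S.D p.1) :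
    ∃ ψ ∈ S.D (sg b p).1, CmpD b p (sg b p) φ ψ := by
  by_cases h : ∃ q, Adj b p q
  · rcases sg_adj h with h1 | h1
    · obtain ⟨ψ, hψ, hψφ⟩ := h1.exists_D hφ
      exact ⟨ψ, hψ, fun _ => hψφ, fun h2 => (h1.not_both p.2 h2).elim⟩
    · exact ⟨φ ∘ₗ S.op b, h1.comp_mem_D hφ, fun h2 => (h2.not_both p.2 h1).elim,
        fun _ v => rfl⟩
  · rw [sg_none h]
    exact ⟨0, Submodule.zero_mem _, fun h2 => (h ⟨p, Or.inl h2⟩).elim,
      fun h2 => (h ⟨p, Or.inl h2⟩).elim⟩

end Fin

end Sys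

/-- Gluing of two half-infinite sequences. -/
theorem glue {E : Type*} (A : ℤ → E → Prop) (C : ℤ → E → E → Prop) (a c : ℕ → E)
    (h0 : a 0 = c 0) (ha : ∀ n : ℕ, A n (a n) ∧ C n (a n) (a (n + 1)))
    (hc : ∀ n : ℕ, A (-n) (c n) ∧ C (-n - 1) (c (n + 1)) (c n)) :
    ∃ z : ℤ → E, (∀ n : ℕ, z n = a n) ∧ (∀ n : ℕ, z (-n) = c n) ∧
      ∀ n, A n (z n) ∧ C n (z n) (z (n + 1)) := by
  let z : ℤ → E := fun n => if 0 ≤ n then a n.toNat else c (-n).toNat
  have hz1 : ∀ n : ℕ, z n = a n := by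
    intro n
    have : (0 : ℤ) ≤ n := Int.natCast_nonneg n
    simp [z]
  have hz2 : ∀ n : ℕ, z (-n) = c n := by
    intro n
    cases n with
    | zero =>
      have := hz1 0
      rw [h0] at this
      simpa using this
    | succ n =>
      have h1 : ¬ (0 : ℤ) ≤ -((n + 1 : ℕ) : ℤ) := by push_cast; linarith
      change (if (0 : ℤ) ≤ -((n + 1 : ℕ) : ℤ) then _ else _) = _
      rw [if_neg h1, neg_neg, Int.toNat_natCast]
  refine ⟨z, hz1, hz2, ?_⟩
  intro n
  rcases le_or_gt 0 n with hn | hn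
  · obtain ⟨m, rfl⟩ := Int.eq_ofNat_of_zero_le hn
    have e1 : z ((m : ℤ) + 1) = a (m + 1) := by
      have := hz1 (m + 1)
      push_cast at this
      exact this
    rw [hz1, e1]
    exact ha m
  · obtain ⟨m, hm⟩ : ∃ m : ℕ, n = -((m + 1 : ℕ) : ℤ) := by
      refine ⟨(-n - 1).toNat, ?_⟩
      have : (0 : ℤ) ≤ -n - 1 := by linarith
      push_cast
      rw [Int.toNat_of_nonneg this]
      ring
    subst hm
    have e1 : -((m + 1 : ℕ) : ℤ) + 1 = -(m : ℤ) := by push_cast; ring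
    have e2 : -((m + 1 : ℕ) : ℤ) = -(m : ℤ) - 1 := by push_cast; ring
    constructor
    · rw [hz2]
      exact (hc (m + 1)).1
    · rw [e1, hz2, hz2, e2]
      exact (hc m).2

/-- Dependent choice. -/
theorem exists_half {E : Type*} (A : ℕ → E → Prop) (C : ℕ → E → E → Prop)
    (h : ∀ n u, A n u → ∃ v, A (n + 1) v ∧ C n u v) (u : E) (hu : A 0 u) :
    ∃ a : ℕ → E, a 0 = u ∧ ∀ n, A n (a n) ∧ C n (a n) (a (n + 1)) := by
  choose f hf1 hf2 using h
  let a : ∀ n, {v : E // A n v} := fun n =>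
    Nat.rec ⟨u, hu⟩ (fun n v => ⟨f n v.1 v.2, hf1 n v.1 v.2⟩) n
  exact ⟨fun n => (a n).1, rfl, fun n => ⟨(a n).2, hf2 n _ _⟩⟩

end Pool.Agent.Lib.MP_868e2f_al
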