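import Pool.Agent.Lib.MP_868e2f_al.Chains
import Pool.Agent.Lib.MP_868e2f_al.Pencil

/-! Compatible sequences indexed by the integers. -/

namespace Pool.Agent.Lib.MP_868e2f_al

set_option linter.unusedSectionVars false

namespace Sys

variable {k V κ : Type*} [Field k] [AddCommGroup V] [Module k V] [Fintype κ] {S : Sys k V κ}

/-- compatible sequences of vectors along `W` -/
def ZS (W : ℤ → S.P × Bool) : Submodule k (ℤ → V) where
  carrier := {z | ∀ n, z n ∈ S.U (W n).1.1 ∧ Cmp (W n).2 (W n).1 (W (n + 1)).1 (z n) (z (n + 1))}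
  zero_mem' := fun _ => ⟨Submodule.zero_mem _, fun _ => map_zero _, fun _ => map_zero _⟩
  add_mem' := by
    intro a b ha hb n
    refine ⟨Submodule.add_mem _ (ha n).1 (hb n).1, fun h => ?_, fun h => ?_⟩
    · rw [Pi.add_apply, Pi.add_apply, map_add, (ha n).2.1 h, (hb n).2.1 h]
    · rw [Pi.add_apply, Pi.add_apply, map_add, (ha n).2.2 h, (hb n).2.2 h]
  smul_mem' := by
    intro c a ha n
    refine ⟨Submodule.smul_mem _ _ (ha n).1, fun h => ?_, fun h => ?_⟩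
    · rw [Pi.smul_apply, Pi.smul_apply, map_smul, (ha n).2.1 h]
    · rw [Pi.smul_apply, Pi.smul_apply, map_smul, (ha n).2.2 h]

/-- compatible sequences of functionals along `W` -/
def ZD (W : ℤ → S.P × Bool) : Submodule k (ℤ → Module.Dual k V) where
  carrier := {z | ∀ n, z n ∈ S.D (W n).1.1 ∧ CmpD (W n).2 (W n).1 (W (n + 1)).1 (z n) (z (n + 1))}
  zero_mem' := fun _ => ⟨Submodule.zero_mem _, fun _ _ => rfl, fun _ _ => rfl⟩
  add_mem' := by
    intro a b ha hb n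
    refine ⟨Submodule.add_mem _ (ha n).1 (hb n).1, fun h v => ?_, fun h v => ?_⟩
    · rw [Pi.add_apply, Pi.add_apply, LinearMap.add_apply, LinearMap.add_apply, (ha n).2.1 h,
        (hb n).2.1 h]
    · rw [Pi.add_apply, Pi.add_apply, LinearMap.add_apply, LinearMap.add_apply, (ha n).2.2 h,
        (hb n).2.2 h]
  smul_mem' := by
    intro c a ha n
    refine ⟨Submodule.smul_mem _ _ (ha n).1, fun h v => ?_, fun h v => ?_⟩
    · rw [Pi.smul_apply, Pi.smul_apply, LinearMap.smul_apply, LinearMap.smul_apply, (ha n).2.1 h]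
    · rw [Pi.smul_apply, Pi.smul_apply, LinearMap.smul_apply, LinearMap.smul_apply, (ha n).2.2 h]

variable {W : ℤ → S.P × Bool}

theorem mem_ZS {z : ℤ → V} : z ∈ ZS W ↔ ∀ n, z n ∈ S.U (W n).1.1 ∧
    Cmp (W n).2 (W n).1 (W (n + 1)).1 (z n) (z (n + 1)) := Iff.rfl

theorem mem_ZD {z : ℤ → Module.Dual k V} : z ∈ ZD W ↔ ∀ n, z n ∈ S.D (W n).1.1 ∧
    CmpD (W n).2 (W n).1 (W (n + 1)).1 (z n) (z (n + 1)) := Iff.rfl

theorem ZS_shift {L : ℤ} (hper : ∀ n, W (n + L) = W n) {z : ℤ → V} (hz : z ∈ ZS W) :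
    (fun n => z (n + L)) ∈ ZS W := by
  intro n
  have h1 := hz (n + L)
  have e : n + L + 1 = n + 1 + L := by ring
  rw [hper n, e, hper (n + 1)] at h1
  exact h1

theorem ZD_shift {L : ℤ} (hper : ∀ n, W (n + L) = W n) {z : ℤ → Module.Dual k V}
    (hz : z ∈ ZD W) : (fun n => z (n + L)) ∈ ZD W := by
  intro n
  have h1 := hz (n + L)
  have e : n + L + 1 = n + 1 + L := by ring
  rw [hper n, e, hper (n + 1)] at h1
  exact h1

theorem per_neg {L : ℤ} (hper : ∀ n, W (n + L) = W n) : ∀ n, W (n + -L) = W n := by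
  intro n
  rw [← hper (n + -L)]
  congr 1
  ring

section Fin

variable [FiniteDimensional k V]

theorem rev_rev (W : ℤ → S.P × Bool) : rev (rev W) = W := by
  funext n
  simp [rev]

theorem ZS_rev (hW : IsWalk W) {z : ℤ → V} (hz : z ∈ ZS (rev W)) :
    (fun n => z (-n)) ∈ ZS W := by
  intro n
  constructor
  · have h1 := (hz (-n)).1
    unfold rev at h1
    rw [neg_neg] at h1
    exact h1
  · have h1 := (hz (-(n + 1))).2
    unfold rev at h1
    have e1 : -(n + 1) + 1 = -n := by ring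
    rw [neg_neg, e1, neg_neg, hW.letter n] at h1
    simp only [Bool.not_not] at h1
    exact h1.symm

theorem ZD_rev (hW : IsWalk W) {z : ℤ → Module.Dual k V} (hz : z ∈ ZD (rev W)) :
    (fun n => z (-n)) ∈ ZD W := by
  intro n
  constructor
  · have h1 := (hz (-n)).1
    unfold rev at h1
    rw [neg_neg] at h1
    exact h1
  · have h1 := (hz (-(n + 1))).2
    unfold rev at h1
    have e1 : -(n + 1) + 1 = -n := by ring
    rw [neg_neg, e1, neg_neg, hW.letter n] at h1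
    simp only [Bool.not_not] at h1
    exact h1.symm

/-- extend a forward sequence to the left -/
theorem exists_ZS_of_seq (hW : IsWalk W) {a : ℕ → V} (ha : Seq (W 0) a) :
    ∃ z ∈ ZS W, ∀ n : ℕ, z n = a n := by
  obtain ⟨c, hc0, hc⟩ := exists_half (E := V) (fun n u => u ∈ S.U (W (-n)).1.1)
    (fun n u v => Cmp (W (-n - 1)).2 (W (-n - 1)).1 (W (-n)).1 v u)
    (fun n u hu => by
      have h1 := hW.vert' (-(n : ℤ) - 1)
      have e1 : -(n : ℤ) - 1 + 1 = -(n : ℤ) := by ring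
      rw [e1] at h1
      obtain ⟨v, hv, hv'⟩ := exists_cmp (W (-n - 1)).2 (W (-n)).1 hu
      rw [← h1] at hv hv'
      refine ⟨v, ?_, hv'.symm⟩
      have e2 : -((n + 1 : ℕ) : ℤ) = -(n : ℤ) - 1 := by push_cast; ring
      rw [e2]
      exact hv) (a 0) (by simpa using (ha 0).1)
  obtain ⟨z, hz1, hz2, hz3⟩ := glue (E := V) (fun n u => u ∈ S.U (W n).1.1)
    (fun n u v => Cmp (W n).2 (W n).1 (W (n + 1)).1 u v) a c hc0.symm
    (fun n => by
      have h1 := ha n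
      rw [hW.iterate, hW.iterate] at h1
      push_cast at h1
      exact h1)
    (fun n => by
      have h1 := hc n
      have e1 : -(n : ℤ) - 1 + 1 = -(n : ℤ) := by ring
      rw [e1]
      exact h1)
  exact ⟨z, hz3, hz1⟩

theorem exists_ZD_of_seq (hW : IsWalk W) {a : ℕ → Module.Dual k V} (ha : SeqD (W 0) a) :
    ∃ z ∈ ZD W, ∀ n : ℕ, z n = a n := by
  obtain ⟨c, hc0, hc⟩ := exists_half (E := Module.Dual k V) (fun n u => u ∈ S.D (W (-n)).1.1)
    (fun n u v => CmpD (W (-n - 1)).2 (W (-n - 1)).1 (W (-n)).1 v u)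
    (fun n u hu => by
      have h1 := hW.vert' (-(n : ℤ) - 1)
      have e1 : -(n : ℤ) - 1 + 1 = -(n : ℤ) := by ring
      rw [e1] at h1
      obtain ⟨v, hv, hv'⟩ := exists_cmpD (W (-n - 1)).2 (W (-n)).1 hu
      rw [← h1] at hv hv'
      refine ⟨v, ?_, hv'.symm⟩
      have e2 : -((n + 1 : ℕ) : ℤ) = -(n : ℤ) - 1 := by push_cast; ring
      rw [e2]
      exact hv) (a 0) (by simpa using (ha 0).1)
  obtain ⟨z, hz1, hz2, hz3⟩ := glue (E := Module.Dual k V) (fun n u => u ∈ S.D (W n).1.1)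
    (fun n u v => CmpD (W n).2 (W n).1 (W (n + 1)).1 u v) a c hc0.symm
    (fun n => by
      have h1 := ha n
      rw [hW.iterate, hW.iterate] at h1
      push_cast at h1
      exact h1)
    (fun n => by
      have h1 := hc n
      have e1 : -(n : ℤ) - 1 + 1 = -(n : ℤ) := by ring
      rw [e1]
      exact h1)
  exact ⟨z, hz3, hz1⟩

/-- extend a backward sequence to the right -/
theorem exists_ZS_of_rev (hW : IsWalk W) {a : ℕ → V} (ha : Seq (rev W 0) a) :
    ∃ z ∈ ZS W, ∀ n : ℕ, z (-n) = a n := by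
  obtain ⟨z, hz, hz'⟩ := exists_ZS_of_seq hW.rev ha
  refine ⟨fun n => z (-n), ZS_rev hW hz, fun n => ?_⟩
  change z (- -(n : ℤ)) = a n
  rw [neg_neg]
  exact hz' n

theorem exists_ZD_of_rev (hW : IsWalk W) {a : ℕ → Module.Dual k V} (ha : SeqD (rev W 0) a) :
    ∃ z ∈ ZD W, ∀ n : ℕ, z (-n) = a n := by
  obtain ⟨z, hz, hz'⟩ := exists_ZD_of_seq hW.rev ha
  refine ⟨fun n => z (-n), ZD_rev hW hz, fun n => ?_⟩
  change z (- -(n : ℤ)) = a n
  rw [neg_neg]
  exact hz' n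

theorem exists_seq (x : S.P × Bool) {u : V} (hu : u ∈ S.U x.1.1) :
    ∃ a, a 0 = u ∧ Seq x a := by
  obtain ⟨a, ha0, ha⟩ := exists_half (E := V) (fun n u => u ∈ S.U ((step S)^[n] x).1.1)
    (fun n u v => Cmp ((step S)^[n] x).2 ((step S)^[n] x).1 ((step S)^[n + 1] x).1 u v)
    (fun n u hu => by
      obtain ⟨v, hv, hv'⟩ := exists_cmp ((step S)^[n] x).2 ((step S)^[n] x).1 hu
      have e : ((step S)^[n + 1] x).1 = sg ((step S)^[n] x).2 ((step S)^[n] x).1 := by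
        rw [Function.iterate_succ_apply']; rfl
      rw [← e] at hv hv'
      exact ⟨v, hv, hv'⟩) u hu
  exact ⟨a, ha0, ha⟩

theorem exists_seqD (x : S.P × Bool) {u : Module.Dual k V} (hu : u ∈ S.D x.1.1) :
    ∃ a, a 0 = u ∧ SeqD x a := by
  obtain ⟨a, ha0, ha⟩ := exists_half (E := Module.Dual k V)
    (fun n u => u ∈ S.D ((step S)^[n] x).1.1)
    (fun n u v => CmpD ((step S)^[n] x).2 ((step S)^[n] x).1 ((step S)^[n + 1] x).1 u v)
    (fun n u hu => by
      obtain ⟨v, hv, hv'⟩ := exists_cmpD ((step S)^[n] x).2 ((step S)^[n] x).1 hu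
      have e : ((step S)^[n + 1] x).1 = sg ((step S)^[n] x).2 ((step S)^[n] x).1 := by
        rw [Function.iterate_succ_apply']; rfl
      rw [← e] at hv hv'
      exact ⟨v, hv, hv'⟩) u hu
  exact ⟨a, ha0, ha⟩

theorem exists_ZS (hW : IsWalk W) {u : V} (hu : u ∈ S.U (W 0).1.1) : ∃ z ∈ ZS W, z 0 = u := by
  obtain ⟨a, ha0, ha⟩ := exists_seq (W 0) hu
  obtain ⟨z, hz, hz'⟩ := exists_ZS_of_seq hW ha
  refine ⟨z, hz, ?_⟩
  rw [← ha0, ← hz' 0]
  rfl

theorem exists_ZD (hW : IsWalk W) {u : Module.Dual k V} (hu : u ∈ S.D (W 0).1.1) :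
    ∃ z ∈ ZD W, z 0 = u := by
  obtain ⟨a, ha0, ha⟩ := exists_seqD (W 0) hu
  obtain ⟨z, hz, hz'⟩ := exists_ZD_of_seq hW ha
  refine ⟨z, hz, ?_⟩
  rw [← ha0, ← hz' 0]
  rfl

/-- pairing is constant along an edge -/
theorem ZS_pairing {z : ℤ → V} (hz : z ∈ ZS W) {Φ : ℤ → Module.Dual k V} (hΦ : Φ ∈ ZD W)
    {n : ℤ} (h : Adj (W n).2 (W n).1 (W (n + 1)).1) : Φ (n + 1) (z (n + 1)) = Φ n (z n) :=
  (pairing h (hz n).2 (hΦ n).2).symm

section AllAdj

variable (hadj : ∀ n, Adj (W n).2 (W n).1 (W (n + 1)).1)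

include hadj

theorem ZS_pairing_nat {z : ℤ → V} (hz : z ∈ ZS W) {Φ : ℤ → Module.Dual k V} (hΦ : Φ ∈ ZD W)
    (n : ℕ) : Φ n (z n) = Φ 0 (z 0) := by
  induction n with
  | zero => rfl
  | succ n ih =>
    rw [← ih]
    push_cast
    exact ZS_pairing hz hΦ (hadj n)

theorem ZS_M {z : ℤ → V} (hz : z ∈ ZS W) (n : ℤ) :
    z n ∈ S.M (W n).1.1 ↔ z (n + 1) ∈ S.M (W (n + 1)).1.1 := by
  obtain ⟨h1, h2⟩ := (hz n).2
  rcases hadj n with h | h
  · rw [← h1 h]
    exact ⟨fun h3 => h.op_M h3, fun h3 => h.mem_M h3⟩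
  · rw [← h2 h]
    exact ⟨fun h3 => h.mem_M h3, fun h3 => h.op_M h3⟩

theorem ZS_M_nat {z : ℤ → V} (hz : z ∈ ZS W) (m : ℤ) (n : ℕ) :
    z m ∈ S.M (W m).1.1 ↔ z (m + n) ∈ S.M (W (m + n)).1.1 := by
  induction n with
  | zero =>
    have e : m + ((0 : ℕ) : ℤ) = m := by push_cast; ring
    rw [e]
  | succ n ih =>
    have e : m + ((n + 1 : ℕ) : ℤ) = m + n + 1 := by push_cast; ring
    rw [ih, e]
    exact ZS_M hadj hz _

theorem ZD_kill {Φ : ℤ → Module.Dual k V} (hΦ : Φ ∈ ZD W) (n : ℤ) :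
    (∀ u ∈ S.U (W n).1.1, Φ n u = 0) ↔ (∀ u ∈ S.U (W (n + 1)).1.1, Φ (n + 1) u = 0) := by
  obtain ⟨h1, h2⟩ := (hΦ n).2
  rcases hadj n with h | h
  · constructor
    · intro h3 w hw
      obtain ⟨u, hu, rfl⟩ := h.exists_preimage (W n).1.2.1 hw
      rw [h1 h]
      exact h3 u hu
    · intro h3 u hu
      rw [← h1 h]
      exact h3 _ (h.op_mem hu)
  · constructor
    · intro h3 u hu
      rw [← h2 h]
      exact h3 _ (h.op_mem hu)
    · intro h3 w hw
      obtain ⟨u, hu, rfl⟩ := h.exists_preimage (W (n + 1)).1.2.1 hw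
      rw [h2 h]
      exact h3 u hu

theorem ZD_kill_nat {Φ : ℤ → Module.Dual k V} (hΦ : Φ ∈ ZD W) (m : ℤ) (n : ℕ) :
    (∀ u ∈ S.U (W m).1.1, Φ m u = 0) ↔ (∀ u ∈ S.U (W (m + n)).1.1, Φ (m + n) u = 0) := by
  induction n with
  | zero =>
    have e : m + ((0 : ℕ) : ℤ) = m := by push_cast; ring
    rw [e]
  | succ n ih =>
    have e : m + ((n + 1 : ℕ) : ℤ) = m + n + 1 := by push_cast; ring
    rw [ih, e]
    exact ZD_kill hadj hΦ _

end AllAdj

end Fin

end Sys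

end Pool.Agent.Lib.MP_868e2f_al
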